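import Pool.Agent.Q165.NCS.Stm

/-! # (ALG): the generating function is not symmetric -/

namespace Q165.NCS

open Polynomial Finset

/-- The operator `M = t + t L + R` on functions. -/
noncomputable def Mop (t : ℝ) : Module.End ℝ (ℕ → ℝ) where
  toFun u := fun h => t * u h + t * ∑ l ∈ range h, u l + u (h + 1)
  map_add' u v := by
    funext h
    simp only [Pi.add_apply, sum_add_distrib]
    ring
  map_smul' c u := by
    funext h
    simp only [Pi.smul_apply, smul_eq_mul, RingHom.id_apply, ← mul_sum]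
    ring

theorem Mop_apply (t : ℝ) (u : ℕ → ℝ) (h : ℕ) :
    Mop t u h = t * u h + t * ∑ l ∈ range h, u l + u (h + 1) := rfl

/-- difference operator -/
def Dop : Module.End ℝ (ℕ → ℝ) where
  toFun u := fun h => u (h + 1) - u h
  map_add' u v := by
    funext h
    simp only [Pi.add_apply]
    ring
  map_smul' c u := by
    funext h
    simp only [Pi.smul_apply, smul_eq_mul, RingHom.id_apply]
    ring

theorem Dop_apply (u : ℕ → ℝ) (h : ℕ) : Dop u h = u (h + 1) - u h := rfl

theorem Dop_Mop (t : ℝ) (u : ℕ → ℝ) :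
    Dop (Mop t u) = t • u + (1 + t) • Dop u + Dop (Dop u) := by
  funext h
  simp only [Dop_apply, Mop_apply, sum_range_succ, Pi.add_apply, Pi.smul_apply, smul_eq_mul]
  ring

/-- moments -/
theorem mom (t : ℝ) (ht : t ≠ 0) : ∀ m k : ℕ,
    ((Dop ^ k) (((Mop t) ^ m) (fun _ => 1))) 0 =
      t ^ (m + k) * ((Dop ^ k) (((Mop t⁻¹) ^ m) (fun _ => 1))) 0 := by
  have step0 : ∀ (t : ℝ) (u : ℕ → ℝ), ((Dop ^ 0) (Mop t u)) 0 =
      (1 + t) * ((Dop ^ 0) u) 0 + ((Dop ^ 1) u) 0 := by
    intro t u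
    simp only [pow_zero, pow_one, Module.End.one_apply, Dop_apply, Mop_apply, range_zero, sum_empty]
    ring
  have stepS : ∀ (t : ℝ) (u : ℕ → ℝ) (k : ℕ), ((Dop ^ (k + 1)) (Mop t u)) 0 =
      t * ((Dop ^ k) u) 0 + (1 + t) * ((Dop ^ (k + 1)) u) 0 + ((Dop ^ (k + 2)) u) 0 := by
    intro t u k
    have e1 : (Dop ^ (k + 1)) (Mop t u) = (Dop ^ k) (Dop (Mop t u)) := by
      rw [pow_succ]; rfl
    have e2 : (Dop ^ (k + 1)) u = (Dop ^ k) (Dop u) := by rw [pow_succ]; rfl
    have e3 : (Dop ^ (k + 2)) u = (Dop ^ k) (Dop (Dop u)) := by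
      rw [pow_succ, pow_succ]; rfl
    rw [e1, e2, e3, Dop_Mop, map_add, map_add, map_smul, map_smul]
    simp only [Pi.add_apply, Pi.smul_apply, smul_eq_mul]
  have base : ∀ k : ℕ, ((Dop ^ (k + 1)) (fun _ => (1 : ℝ))) = 0 := by
    intro k
    have : (Dop ^ (k + 1)) (fun _ => (1 : ℝ)) = (Dop ^ k) (Dop (fun _ => (1 : ℝ))) := by
      rw [pow_succ]; rfl
    rw [this]
    have h2 : Dop (fun _ => (1 : ℝ)) = 0 := by
      funext h; simp [Dop_apply]
    rw [h2, map_zero]
  intro m
  induction m with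
  | zero =>
    intro k
    rcases k with _ | k
    · simp
    · simp only [pow_zero, Module.End.one_apply]
      rw [base]; simp
  | succ m ih =>
    intro k
    have e1 : ∀ t : ℝ, ((Mop t) ^ (m + 1)) (fun _ => (1 : ℝ)) =
        Mop t (((Mop t) ^ m) (fun _ => (1 : ℝ))) := by
      intro t; rw [pow_succ']; rfl
    rcases k with _ | k
    · rw [e1 t, e1 t⁻¹, step0, step0, ih 0, ih 1]
      field_simp
      ring
    · rw [e1 t, e1 t⁻¹, stepS, stepS, ih k, ih (k + 1), ih (k + 2)]
      have : t ^ (m + 1 + (k + 1)) = t ^ (m + k) * t * t := by ring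
      have e3 : t ^ (m + (k + 1)) = t ^ (m + k) * t := by ring
      have e4 : t ^ (m + (k + 2)) = t ^ (m + k) * t * t := by ring
      rw [this, e3, e4]
      field_simp
      ring

/-- indicator of `0` -/
def del : ℕ → ℝ := fun h => if h = 0 then 1 else 0

theorem Mop_del (t : ℝ) : Mop t del = t • (fun _ => (1 : ℝ)) := by
  funext h
  rw [Mop_apply]
  rcases h with _ | h
  · simp [del]
  · rw [sum_range_succ']
    simp [del]

theorem momdel (t : ℝ) (ht : t ≠ 0) (m : ℕ) :
    ((Mop t) ^ (m + 1)) del 0 = t ^ (m + 2) * ((Mop t⁻¹) ^ (m + 1)) del 0 := by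
  have e1 : ∀ t : ℝ, ((Mop t) ^ (m + 1)) del = t • ((Mop t) ^ m) (fun _ => (1 : ℝ)) := by
    intro t
    rw [pow_succ, Module.End.mul_apply, Mop_del, map_smul]
  rw [e1 t, e1 t⁻¹]
  have h := mom t ht m 0
  simp only [pow_zero, Module.End.one_apply, add_zero] at h
  simp only [Pi.smul_apply, smul_eq_mul]
  rw [h]
  field_simp
  ring

/-- The polynomials of the sides. -/
noncomputable def th (t : ℝ) : ℕ → ℝ[X]
  | 0 => 1
  | 1 => X
  | k + 2 => (C (1 + t) + X) * th t (k + 1) - (C t + C (1 + t) * X) * th t k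

theorem th_rev (t : ℝ) (ht : t ≠ 0) : ∀ k : ℕ,
    (th t k).comp (C t * X) = C (t ^ k) * th t⁻¹ k ∧
      (th t (k + 1)).comp (C t * X) = C (t ^ (k + 1)) * th t⁻¹ (k + 1) := by
  intro k
  induction k with
  | zero => simp [th]
  | succ k ih =>
    refine ⟨ih.2, ?_⟩
    have e : ∀ t : ℝ, th t (k + 1 + 1) =
        (C (1 + t) + X) * th t (k + 1) - (C t + C (1 + t) * X) * th t k := fun t => by
      rw [th]
    rw [e t, e t⁻¹]
    simp only [sub_comp, mul_comp, add_comp, C_comp, X_comp]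
    rw [ih.1, ih.2]
    have c1 : (C (1 + t) + C t * X : ℝ[X]) * (C (t ^ (k + 1)) * th t⁻¹ (k + 1)) =
        C (t ^ (k + 1 + 1)) * ((C (1 + t⁻¹) + X) * th t⁻¹ (k + 1)) := by
      have : C (t ^ (k + 1 + 1)) * (C (1 + t⁻¹) + X : ℝ[X]) =
          (C (1 + t) + C t * X) * C (t ^ (k + 1)) := by
        rw [mul_add, ← C_mul, add_mul, ← C_mul]
        have a1 : t ^ (k + 1 + 1) * (1 + t⁻¹) = (1 + t) * t ^ (k + 1) := by field_simp; ring
        rw [a1]
        congr 1
        rw [mul_right_comm, ← C_mul]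
        congr 2
        ring
      rw [← mul_assoc (C (1 + t) + C t * X : ℝ[X]), ← mul_assoc (C (t ^ (k + 1 + 1)) : ℝ[X]), this]
    have c2 : (C t + C (1 + t) * (C t * X) : ℝ[X]) * (C (t ^ k) * th t⁻¹ k) =
        C (t ^ (k + 1 + 1)) * ((C t⁻¹ + C (1 + t⁻¹) * X) * th t⁻¹ k) := by
      have : C (t ^ (k + 1 + 1)) * (C t⁻¹ + C (1 + t⁻¹) * X : ℝ[X]) =
          (C t + C (1 + t) * (C t * X)) * C (t ^ k) := by
        rw [mul_add, ← C_mul, ← mul_assoc, ← C_mul, add_mul, ← C_mul, ← mul_assoc, ← C_mul,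
          mul_right_comm, ← C_mul]
        have b1 : t ^ (k + 1 + 1) * t⁻¹ = t * t ^ k := by field_simp; ring
        have b2 : t ^ (k + 1 + 1) * (1 + t⁻¹) = (1 + t) * t * t ^ k := by field_simp; ring
        rw [b1, b2]
      rw [← mul_assoc (C t + C (1 + t) * (C t * X) : ℝ[X]),
        ← mul_assoc (C (t ^ (k + 1 + 1)) : ℝ[X]), this]
    rw [c1, c2, mul_sub]

theorem th_zero (t : ℝ) (ht : 0 < t) : ∀ k : ℕ, (th t (k + 2)).coeff 0 < 0 ∧
    (th t (k + 3)).coeff 0 ≤ t * (th t (k + 2)).coeff 0 := by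
  have e : ∀ k, (th t (k + 2)).coeff 0 = (1 + t) * (th t (k + 1)).coeff 0 - t * (th t k).coeff 0 := by
    intro k
    rw [th]
    simp [mul_coeff_zero]
  intro k
  induction k with
  | zero =>
    have a1 : (th t 2).coeff 0 = -t := by
      rw [e 0]; simp [th]
    have a2 : (th t 3).coeff 0 = (1 + t) * -t := by
      rw [e 1, a1]; simp [th]
    simp only [zero_add]
    rw [a1, a2]
    constructor
    · linarith
    · nlinarith
  | succ k ih =>
    obtain ⟨i1, i2⟩ := ih
    have e3 := e (k + 2)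
    have h1 : (th t (k + 1 + 2)).coeff 0 < 0 := by
      have : (th t (k + 1 + 2)).coeff 0 = (th t (k + 3)).coeff 0 := rfl
      rw [this]
      nlinarith
    refine ⟨h1, ?_⟩
    have e4 : (th t (k + 1 + 3)).coeff 0 = (1 + t) * (th t (k + 3)).coeff 0 - t * (th t (k + 2)).coeff 0 := e (k + 2)
    rw [e4]
    have : (th t (k + 1 + 2)).coeff 0 = (th t (k + 3)).coeff 0 := rfl
    rw [this]
    linarith

/-- the side recursion -/
noncomputable def G (t : ℝ) : ℕ → (ℕ → ℝ) → ℕ → ℕ → ℝ
  | 0, u, h, _ => u h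
  | k + 1, u, h, f => t * G t k u h f + G t k u (h + 1) f + t * ∑ l ∈ range f, G t k u l l

/-- `V^k u` -/
noncomputable def vv (t : ℝ) (u : ℕ → ℝ) : ℕ → ℕ → ℝ
  | 0, h => u h
  | k + 1, h => t * vv t u k h + vv t u k (h + 1)

noncomputable def cc (t : ℝ) (u : ℕ → ℝ) : ℕ → ℕ → ℝ
  | 0, _ => 0
  | k + 1, f => (1 + t) * cc t u k f + t * ∑ l ∈ range f, G t k u l l

theorem G_eq (t : ℝ) (u : ℕ → ℝ) : ∀ k h f, G t k u h f = vv t u k h + cc t u k f := by
  intro k
  induction k with
  | zero => intro h f; simp [G, vv, cc]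
  | succ k ih =>
    intro h f
    have : G t (k + 1) u h f = t * G t k u h f + G t k u (h + 1) f +
      t * ∑ l ∈ range f, G t k u l l := by rw [G]
    rw [this, ih h f, ih (h + 1) f, vv, cc]
    ring

theorem G_succ (t : ℝ) (u : ℕ → ℝ) (k h : ℕ) : G t (k + 1) u h h =
    (1 + t) * G t k u h h + t * ∑ l ∈ range h, G t k u l l - (vv t u k h - vv t u k (h + 1)) := by
  rw [G_eq t u (k + 1) h h, vv, cc, G_eq t u k h h]
  ring

theorem G_succ2 (t : ℝ) (u : ℕ → ℝ) (k h : ℕ) : G t (k + 2) u h h =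
    (1 + t) * G t (k + 1) u h h + Mop t (fun x => G t (k + 1) u x x) h -
      (t * G t k u h h + (1 + t) * Mop t (fun x => G t k u x x) h) := by
  have h1 := G_succ t u (k + 1) h
  have h2 := G_succ t u k h
  have h3 := G_succ t u k (h + 1)
  have e1 : vv t u (k + 1) h = t * vv t u k h + vv t u k (h + 1) := by rw [vv]
  have e2 : vv t u (k + 1) (h + 1) = t * vv t u k (h + 1) + vv t u k (h + 1 + 1) := by rw [vv]
  have e0 : k + 1 + 1 = k + 2 := rfl
  rw [e0] at h1
  rw [h1, e1, e2, Mop_apply, Mop_apply]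
  rw [sum_range_succ] at h3
  have h4 : vv t u k (h + 1) - vv t u k (h + 1 + 1) =
      (1 + t) * G t k u (h + 1) (h + 1) +
        t * (∑ l ∈ range h, G t k u l l + G t k u h h) - G t (k + 1) u (h + 1) (h + 1) := by
    linarith
  have h5 : vv t u k h - vv t u k (h + 1) = (1 + t) * G t k u h h +
      t * ∑ l ∈ range h, G t k u l l - G t (k + 1) u h h := by linarith
  linear_combination (-1 : ℝ) * h4 - t * h5

theorem G_th (t : ℝ) (u : ℕ → ℝ) : ∀ k,
    (fun h => G t k u h h) = aeval (Mop t) (th t k) u ∧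
    (fun h => G t (k + 1) u h h) = aeval (Mop t) (th t (k + 1)) u := by
  intro k
  induction k with
  | zero =>
    constructor
    · funext h; simp [G, th]
    · funext h
      simp only [zero_add, th, aeval_X]
      rw [Mop_apply, G]
      simp only [G]
      ring
  | succ k ih =>
    refine ⟨ih.2, ?_⟩
    have e : th t (k + 1 + 1) =
        (C (1 + t) + X) * th t (k + 1) - (C t + C (1 + t) * X) * th t k := by
      rw [th]
    rw [e]
    simp only [map_sub, map_mul, map_add, aeval_C, aeval_X, LinearMap.sub_apply,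
      Module.End.mul_apply, LinearMap.add_apply, Module.algebraMap_end_apply]
    rw [← ih.1, ← ih.2]
    funext h
    have := G_succ2 t u k h
    have e0 : k + 1 + 1 = k + 2 := rfl
    rw [e0, this]
    simp only [Pi.sub_apply, Pi.add_apply, Pi.smul_apply, smul_eq_mul]
    ring

theorem Z_indep (t : ℝ) (cor : ℕ → Prop) (r j h f f' : ℕ) (hc : cor j) :
    Z t cor r j h f = Z t cor r j h f' := by
  cases r with
  | zero => simp [Z]
  | succ r => simp [Z, hc]

theorem Z_G (t : ℝ) (cor : ℕ → Prop) : ∀ m r j h f, (∀ l, j ≤ l → l < j + m → ¬ cor l) →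
    cor (j + m) → m ≤ r →
    Z t cor r j h f = G t m (fun x => Z t cor (r - m) (j + m) x 0) h f := by
  intro m
  induction m with
  | zero =>
    intro r j h f _ hc _
    simp only [G, Nat.sub_zero, Nat.add_zero]
    exact Z_indep t cor r j h f 0 hc
  | succ m ih =>
    intro r j h f hl hc hr
    obtain ⟨r', rfl⟩ : ∃ r', r = r' + 1 := ⟨r - 1, by omega⟩
    have hj : ¬ cor j := hl j le_rfl (by omega)
    have e1 : r' + 1 - (m + 1) = r' - m := by omega
    have e2 : j + (m + 1) = j + 1 + m := by omega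
    rw [Z, G, e1, e2]
    simp only [hj, if_false]
    have hl' : ∀ l, j + 1 ≤ l → l < j + 1 + m → ¬ cor l := fun l h1 h2 => hl l (by omega) (by omega)
    have hc' : cor (j + 1 + m) := by rw [← e2]; exact hc
    rw [ih r' (j + 1) h f hl' hc' (by omega), ih r' (j + 1) (h + 1) f hl' hc' (by omega)]
    congr 2
    apply sum_congr rfl
    intro l _
    exact ih r' (j + 1) l l hl' hc' (by omega)

theorem Z_side (t : ℝ) (cor : ℕ → Prop) (k r j h f : ℕ) (hj : cor j) (hk : 0 < k)
    (hl : ∀ l, j < l → l < j + k → ¬ cor l) (hc : cor (j + k)) (hr : k ≤ r) :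
    Z t cor r j h f = G t k (fun x => Z t cor (r - k) (j + k) x 0) h h := by
  obtain ⟨k', rfl⟩ : ∃ k', k = k' + 1 := ⟨k - 1, by omega⟩
  obtain ⟨r', rfl⟩ : ∃ r', r = r' + 1 := ⟨r - 1, by omega⟩
  have e1 : r' + 1 - (k' + 1) = r' - k' := by omega
  have e2 : j + (k' + 1) = j + 1 + k' := by omega
  rw [Z, G, e1, e2]
  simp only [hj, if_true]
  have hl' : ∀ l, j + 1 ≤ l → l < j + 1 + k' → ¬ cor l := fun l h1 h2 => hl l (by omega) (by omega)
  have hc' : cor (j + 1 + k') := by rw [← e2]; exact hc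
  rw [Z_G t cor k' r' (j + 1) h h hl' hc' (by omega), Z_G t cor k' r' (j + 1) (h + 1) h hl' hc' (by omega)]
  congr 2
  apply sum_congr rfl
  intro l _
  exact Z_G t cor k' r' (j + 1) l l hl' hc' (by omega)

/-- the polynomial of the remaining sides -/
theorem poly (t : ℝ) (ht : 0 < t) (cor : ℕ → Prop) (n : ℕ) (hn : cor n)
    (hadj : ∀ j, j < n → cor j → ¬ cor (j + 1)) :
    ∀ r j, j + r = n → cor j → ∃ f g : ℝ[X], f.comp (C t * X) = C (t ^ r) * g ∧ f.coeff 0 ≠ 0 ∧
      (∀ h f0, Z t cor r j h f0 = aeval (Mop t) f del h) ∧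
      (∀ h f0, Z t⁻¹ cor r j h f0 = aeval (Mop t⁻¹) g del h) := by
  intro r
  induction r using Nat.strong_induction_on with
  | _ r ih =>
    intro j hj hcj
    rcases Nat.eq_zero_or_pos r with rfl | hr
    · refine ⟨1, 1, by simp, by simp, ?_, ?_⟩
      · intro h f0; simp [Z, del]
      · intro h f0; simp [Z, del]
    · classical
      have hex : ∃ k, 0 < k ∧ cor (j + k) := ⟨r, hr, by rw [hj]; exact hn⟩
      obtain ⟨hk0, hkc⟩ := Nat.find_spec hex
      set k := Nat.find hex with hkdef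
      have hkr : k ≤ r := Nat.find_min' hex ⟨hr, by rw [hj]; exact hn⟩
      have hk2 : 2 ≤ k := by
        by_contra hcon
        have : k = 1 := by omega
        rw [this] at hkc
        exact hadj j (by omega) hcj hkc
      have hl : ∀ l, j < l → l < j + k → ¬ cor l := by
        intro l h1 h2 h3
        have := Nat.find_min hex (m := l - j) (by omega)
        apply this
        refine ⟨by omega, ?_⟩
        have e : j + (l - j) = l := by omega
        rw [e]; exact h3
      obtain ⟨f, g, h1, h2, h3, h4⟩ := ih (r - k) (by omega) (j + k) (by omega) hkc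
      refine ⟨th t k * f, th t⁻¹ k * g, ?_, ?_, ?_, ?_⟩
      · rw [mul_comp, h1, (th_rev t ht.ne' k).1]
        have : t ^ r = t ^ k * t ^ (r - k) := by rw [← pow_add]; congr 1; omega
        rw [this, C_mul]
        ring
      · rw [mul_coeff_zero]
        refine mul_ne_zero ?_ h2
        obtain ⟨k', hk'⟩ : ∃ k', k = k' + 2 := ⟨k - 2, by omega⟩
        rw [hk']
        exact (th_zero t ht k').1.ne
      · intro h f0
        rw [Z_side t cor k r j h f0 hcj hk0 hl hkc hkr]
        have e1 : (fun x => Z t cor (r - k) (j + k) x 0) = aeval (Mop t) f del := by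
          funext x; exact h3 x 0
        rw [e1, map_mul, Module.End.mul_apply, ← (G_th t _ k).1]
      · intro h f0
        rw [Z_side t⁻¹ cor k r j h f0 hcj hk0 hl hkc hkr]
        have e1 : (fun x => Z t⁻¹ cor (r - k) (j + k) x 0) = aeval (Mop t⁻¹) g del := by
          funext x; exact h4 x 0
        rw [e1, map_mul, Module.End.mul_apply, ← (G_th t⁻¹ _ k).1]

theorem final (t : ℝ) (ht : t ≠ 0) (n : ℕ) (f g : ℝ[X]) (hfg : f.comp (C t * X) = C (t ^ n) * g) :
    aeval (Mop t) f del 0 - t ^ (n + 1) * aeval (Mop t⁻¹) g del 0 = (1 - t) * f.coeff 0 := by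
  have hco : ∀ m, f.coeff m * t ^ m = t ^ n * g.coeff m := by
    intro m
    have := congrArg (fun q => q.coeff m) hfg
    simp only [comp_C_mul_X_coeff, coeff_C_mul] at this
    exact this
  have hex : ∀ (s : ℝ) (q : ℝ[X]) (N : ℕ), q.natDegree < N →
      aeval (Mop s) q del 0 = ∑ m ∈ range N, q.coeff m * ((Mop s) ^ m) del 0 := by
    intro s q N hN
    rw [aeval_eq_sum_range' hN]
    simp only [LinearMap.sum_apply, LinearMap.smul_apply, Finset.sum_apply, Pi.smul_apply,
      smul_eq_mul]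
  set N := max f.natDegree g.natDegree + 1 with hN
  rw [hex t f (N + 1) (by omega), hex t⁻¹ g (N + 1) (by omega)]
  rw [sum_range_succ' _ N, sum_range_succ' _ N]
  have hd : ∀ s : ℝ, ((Mop s) ^ 0) del 0 = 1 := by intro s; simp [del]
  rw [hd, hd]
  have h0 := hco 0
  simp only [pow_zero, mul_one] at h0
  have hs : ∑ m ∈ range N, f.coeff (m + 1) * ((Mop t) ^ (m + 1)) del 0 =
      t ^ (n + 1) * ∑ m ∈ range N, g.coeff (m + 1) * ((Mop t⁻¹) ^ (m + 1)) del 0 := by
    rw [mul_sum]
    apply sum_congr rfl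
    intro m _
    rw [momdel t ht m]
    have := hco (m + 1)
    calc f.coeff (m + 1) * (t ^ (m + 2) * ((Mop t⁻¹) ^ (m + 1)) del 0) =
        (f.coeff (m + 1) * t ^ (m + 1)) * t * ((Mop t⁻¹) ^ (m + 1)) del 0 := by ring
      _ = t ^ (n + 1) * (g.coeff (m + 1) * ((Mop t⁻¹) ^ (m + 1)) del 0) := by rw [this]; ring
  rw [hs, h0]
  ring

theorem alg : S_ALG := by
  intro n cor hn h0 hcn hadj heq
  obtain ⟨f, g, h1, h2, h3, h4⟩ := poly 2 two_pos cor n hcn hadj n 0 (by omega) h0
  have h5 := final 2 two_ne_zero n f g h1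
  rw [← h3 0 0, ← h4 0 0, heq] at h5
  have : (2 : ℝ)⁻¹ = 1 / 2 := by norm_num
  rw [this] at h5
  have h6 : f.coeff 0 = 0 := by linarith
  exact h2 h6

end Q165.NCS
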