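import Pool.Agent.Q165.NCS.Hull

/-! # (BLK), (ADJ): blank sides and consecutive corners -/

namespace Q165.NCS

theorem gg_seg {a b z : Pt} (hz : z ∈ segment ℝ a b) : 0 ≤ gg a b z := by
  rw [segment_eq_image'] at hz
  obtain ⟨θ, ⟨h0, _⟩, rfl⟩ := hz
  unfold gg
  simp only [Prod.fst_add, Prod.smul_fst, Prod.fst_sub, smul_eq_mul, Prod.snd_add, Prod.smul_snd,
    Prod.snd_sub]
  have : (a.1 + θ * (b.1 - a.1) - a.1) * (b.1 - a.1) + (a.2 + θ * (b.2 - a.2) - a.2) * (b.2 - a.2) =
      θ * ((b.1 - a.1) ^ 2 + (b.2 - a.2) ^ 2) := by ring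
  rw [this]
  positivity

theorem gg_zero {a b z : Pt} (hab : a ≠ b) (hz : orient a b z = 0) (h0 : gg a b z = 0) : z = a := by
  obtain ⟨h1, h2⟩ := on_line hz
  have hD := dpos hab
  rw [h0, zero_mul] at h1 h2
  apply Prod.ext
  · rcases mul_eq_zero.mp h1 with h | h
    · exact absurd h hD.ne'
    · linarith
  · rcases mul_eq_zero.mp h2 with h | h
    · exact absurd h hD.ne'
    · linarith

theorem ext_seg {a b x y : Pt} (hab : a ≠ b) (hx : x ∈ segment ℝ a b) (hy : y ∈ segment ℝ a b)
    (ha : a ∈ openSegment ℝ x y) : x = a ∧ y = a := by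
  obtain ⟨α, β, hα, hβ, hαβ, he⟩ := ha
  have g1 := gg_seg hx
  have g2 := gg_seg hy
  have e1 : α * x.1 + β * y.1 = a.1 := by
    have := congrArg Prod.fst he
    simpa using this
  have e2 : α * x.2 + β * y.2 = a.2 := by
    have := congrArg Prod.snd he
    simpa using this
  have g3 : α * gg a b x + β * gg a b y = 0 := by
    unfold gg
    have : α * ((x.1 - a.1) * (b.1 - a.1) + (x.2 - a.2) * (b.2 - a.2)) +
        β * ((y.1 - a.1) * (b.1 - a.1) + (y.2 - a.2) * (b.2 - a.2)) =
        ((α * x.1 + β * y.1) - (α + β) * a.1) * (b.1 - a.1) +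
        ((α * x.2 + β * y.2) - (α + β) * a.2) * (b.2 - a.2) := by ring
    rw [this, e1, e2, hαβ]
    ring
  have g4 := mul_nonneg hα.le g1
  have g5 := mul_nonneg hβ.le g2
  have g6 : α * gg a b x = 0 := by linarith
  have g7 : β * gg a b y = 0 := by linarith
  constructor
  · apply gg_zero hab
    · have := orient_seg (seg_symm hx)
      have e : orient a b x = orient b x a := by unfold orient; ring
      have := orient_seg hx
      unfold orient at this ⊢
      linarith
    · rcases mul_eq_zero.mp g6 with h | h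
      · exact absurd h hα.ne'
      · exact h
  · apply gg_zero hab
    · have := orient_seg hy
      unfold orient at this ⊢
      linarith
    · rcases mul_eq_zero.mp g7 with h | h
      · exact absurd h hβ.ne'
      · exact h

theorem blk : S_BLK := by
  intro P a b _ ha hb hab hleft hzero
  have ha' : a ∈ (P : Set Pt) := by exact_mod_cast ha
  have hb' : b ∈ (P : Set Pt) := by exact_mod_cast hb
  have hconv : ∀ x ∈ convexHull ℝ (P : Set Pt), 0 ≤ orient a b x := fun x hx =>
    orient_ge (fun z hz => hleft z (by exact_mod_cast hz)) hx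
  have hface : ∀ x ∈ convexHull ℝ (P : Set Pt), orient a b x = 0 → x ∈ segment ℝ a b := by
    intro x hx h0
    have h1 := face (fun z hz => hleft z (by exact_mod_cast hz)) hx h0
    have h2 : (P : Set Pt) ∩ {z | orient a b z = 0} ⊆ {a, b} := by
      rintro z ⟨hz, hz0⟩
      exact hzero z (by exact_mod_cast hz) hz0
    have h3 := convexHull_mono h2 h1
    rwa [convexHull_pair] at h3
  have hseg0 : ∀ x ∈ segment ℝ a b, orient a b x = 0 := by
    intro x hx
    have := orient_seg hx
    unfold orient at this ⊢
    linarith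
  have hsub : segment ℝ a b ⊆ convexHull ℝ (P : Set Pt) := segment_subset_convexHull ha' hb'
  have hext : ∀ c ∈ ({a, b} : Set Pt), ∀ x ∈ convexHull ℝ (P : Set Pt),
      ∀ y ∈ convexHull ℝ (P : Set Pt), c ∈ openSegment ℝ x y →
      x ∈ segment ℝ a b ∧ y ∈ segment ℝ a b := by
    intro c hc x hx y hy hcxy
    have hc0 : orient a b c = 0 := by
      rcases hc with rfl | hc
      · unfold orient; ring
      · rw [Set.mem_singleton_iff] at hc
        rw [hc]; unfold orient; ring
    obtain ⟨α, β, hα, hβ, hαβ, rfl⟩ := hcxy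
    rw [orient_comb a b x y α β hαβ] at hc0
    have g4 := mul_nonneg hα.le (hconv x hx)
    have g5 := mul_nonneg hβ.le (hconv y hy)
    have g6 : α * orient a b x = 0 := by linarith
    have g7 : β * orient a b y = 0 := by linarith
    refine ⟨hface x hx ?_, hface y hy ?_⟩
    · rcases mul_eq_zero.mp g6 with h | h
      · exact absurd h hα.ne'
      · exact h
    · rcases mul_eq_zero.mp g7 with h | h
      · exact absurd h hβ.ne'
      · exact h
  refine ⟨⟨hab, ?_, ?_, ?_⟩, ?_⟩
  · rw [mem_extremePoints]
    refine ⟨subset_convexHull ℝ _ ha', fun x hx y hy hxy => ?_⟩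
    obtain ⟨h1, h2⟩ := hext a (by simp) x hx y hy hxy
    exact ext_seg hab h1 h2 hxy
  · rw [mem_extremePoints]
    refine ⟨subset_convexHull ℝ _ hb', fun x hx y hy hxy => ?_⟩
    obtain ⟨h1, h2⟩ := hext b (by simp) x hx y hy hxy
    exact ext_seg hab.symm (seg_symm h1) (seg_symm h2) hxy
  · intro x hx
    refine ⟨subset_closure (hsub hx), fun hint => ?_⟩
    have hD := dpos hab
    have hcont : Continuous (fun ε : ℝ => x + ε • ((b.2 - a.2, -(b.1 - a.1)) : Pt)) := by
      fun_prop
    have hev : ∀ᶠ ε : ℝ in nhds 0, x + ε • ((b.2 - a.2, -(b.1 - a.1)) : Pt) ∈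
        interior (convexHull ℝ (P : Set Pt)) := by
      have := hcont.tendsto 0
      simp only [zero_smul, add_zero] at this
      exact this (isOpen_interior.mem_nhds hint)
    have hev2 : ∀ᶠ ε : ℝ in nhdsWithin 0 (Set.Ioi 0),
        x + ε • ((b.2 - a.2, -(b.1 - a.1)) : Pt) ∈ interior (convexHull ℝ (P : Set Pt)) :=
      hev.filter_mono nhdsWithin_le_nhds
    obtain ⟨ε, h1, h2⟩ := (hev2.and self_mem_nhdsWithin).exists
    have h3 := hconv _ (interior_subset h1)
    have h4 := hseg0 x hx
    have h5 : orient a b (x + ε • ((b.2 - a.2, -(b.1 - a.1)) : Pt)) =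
        orient a b x - ε * ((b.1 - a.1) ^ 2 + (b.2 - a.2) ^ 2) := by
      unfold orient
      simp only [Prod.fst_add, Prod.smul_fst, Prod.snd_add, Prod.smul_snd, smul_eq_mul]
      ring
    rw [h5, h4] at h3
    have : 0 < ε * ((b.1 - a.1) ^ 2 + (b.2 - a.2) ^ 2) := mul_pos h2 hD
    linarith
  · intro c hc hcs
    exact hzero c hc (hseg0 c hcs)

theorem colSeg {P : Finset Pt} {y z : Pt} (h : ∀ x ∈ P, x ∈ segment ℝ y z) :
    Collinear ℝ (P : Set Pt) := by
  rw [collinear_iff_exists_forall_eq_smul_vadd]
  refine ⟨y, z - y, fun x hx => ?_⟩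
  have := h x (by exact_mod_cast hx)
  rw [segment_eq_image'] at this
  obtain ⟨θ, _, rfl⟩ := this
  exact ⟨θ, by simp [add_comm]⟩

theorem adj : S_ADJ := by
  intro P n p cor hE hcol hnb j hj hcj hcj1
  have hn := hE.pos
  apply hnb (p j) (p (j + 1))
  apply blk P _ _ hcol (hE.mem j hj.le) (hE.mem (j + 1) hj)
  · intro hh
    rcases Nat.lt_or_ge (j + 1) n with h | h
    · have := hE.inj j (j + 1) hj h hh
      omega
    · have e : j + 1 = n := by omega
      rw [e, hE.closed] at hh
      have := hE.inj j 0 hj (by omega) hh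
      omega
  · intro c hc
    obtain ⟨k, hk, rfl⟩ := hE.surj c hc
    rcases Nat.lt_trichotomy k j with h | h | h
    · have := hE.left k j (j + 1) h (by omega) hj
      have e : orient (p j) (p (j + 1)) (p k) = orient (p k) (p j) (p (j + 1)) := by
        unfold orient; ring
      rw [e]; exact this
    · rw [h]
      have e : orient (p j) (p (j + 1)) (p j) = 0 := by unfold orient; ring
      rw [e]
    · rcases Nat.eq_or_lt_of_le (by omega : j + 1 ≤ k) with h' | h'
      · rw [← h']
        have e : orient (p j) (p (j + 1)) (p (j + 1)) = 0 := by unfold orient; ring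
        rw [e]
      · exact hE.left j (j + 1) k (by omega) h' hk.le
  · intro c hc h0
    obtain ⟨k, hk, rfl⟩ := hE.surj c hc
    rcases Nat.lt_trichotomy k j with h | h | h
    · rcases Nat.lt_or_ge (j + 1) n with h' | h'
      · exfalso
        have e : orient (p k) (p j) (p (j + 1)) = 0 := by
          unfold orient at h0 ⊢; linarith
        rcases hE.col k j (j + 1) h (by omega) h' e with hA | ⟨_, hB⟩
        · exact hA j h (by omega) hcj
        · exact hB (j + 1) (by omega) h' hcj1
      · have e : j + 1 = n := by omega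
        rw [e, hE.closed] at h0 ⊢
        rcases Nat.eq_zero_or_pos k with h'' | h''
        · right; rw [h'']
        · exfalso
          have e2 : orient (p 0) (p k) (p j) = 0 := by
            unfold orient at h0 ⊢; linarith
          rcases hE.col 0 k j h'' h hj e2 with hA | ⟨_, hB⟩
          · apply hcol
            apply colSeg (y := p 0) (z := p j)
            intro x hx
            obtain ⟨i, hi, rfl⟩ := hE.surj x hx
            rcases Nat.eq_zero_or_pos i with g | g
            · rw [g]; exact left_mem_segment ℝ _ _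
            · rcases Nat.eq_or_lt_of_le (by omega : i ≤ j) with g' | g'
              · rw [g']; exact right_mem_segment ℝ _ _
              · exact hE.btw 0 i j g g' hj.le hA
          · exact hB j h hj hcj
    · left; rw [h]
    · rcases Nat.eq_or_lt_of_le (by omega : j + 1 ≤ k) with h' | h'
      · right; rw [h']
      · exfalso
        rcases hE.col j (j + 1) k (by omega) h' hk h0 with hA | ⟨hj0, hB⟩
        · exact hA (j + 1) (by omega) h' hcj1
        · subst hj0
          apply hcol
          apply colSeg (y := p 1) (z := p n)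
          intro x hx
          obtain ⟨i, hi, rfl⟩ := hE.surj x hx
          rcases Nat.eq_zero_or_pos i with g | g
          · rw [g, hE.closed]; exact right_mem_segment ℝ _ _
          · rcases Nat.eq_or_lt_of_le (by omega : 1 ≤ i) with g' | g'
            · rw [← g']; exact left_mem_segment ℝ _ _
            · exact hE.btw 1 i n g' hi le_rfl hB

end Q165.NCS
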