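import Mathlib

/-!
# Noncrossing partition lattices of planar point sets (MP_f3bbeb_co)

Definitions used in the final statement.
-/

namespace Q165.NCS

/-- The plane. -/
abbrev Pt : Type := ℝ × ℝ

/-- A set partition of the finite point set `P` is *noncrossing* if the convex hulls of
distinct blocks are disjoint. -/
def Noncrossing (P : Finset Pt) (π : Finpartition P) : Prop :=
  ∀ B ∈ π.parts, ∀ C ∈ π.parts, B ≠ C →
    Disjoint (convexHull ℝ (B : Set Pt)) (convexHull ℝ (C : Set Pt))

/-- `NC(P)`: the noncrossing partitions of `P`, ordered by refinement (finer is smaller). -/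
abbrev NC (P : Finset Pt) : Type := {π : Finpartition P // Noncrossing P π}

/-- `P` is a *hull configuration*: all points lie on one segment, or all points lie on the
boundary of `Conv(P)`. -/
def HullConfiguration (P : Finset Pt) : Prop :=
  (∃ a b : Pt, (P : Set Pt) ⊆ segment ℝ a b) ∨
    (P : Set Pt) ⊆ frontier (convexHull ℝ (P : Set Pt))

/-- The segment `[a, b]` is a side of `Conv(P)`: its endpoints are two distinct vertices
(extreme points) of `Conv(P)` and it lies on the boundary of `Conv(P)`. -/
def IsSide (P : Finset Pt) (a b : Pt) : Prop :=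
  a ≠ b ∧ a ∈ Set.extremePoints ℝ (convexHull ℝ (P : Set Pt)) ∧
    b ∈ Set.extremePoints ℝ (convexHull ℝ (P : Set Pt)) ∧
    segment ℝ a b ⊆ frontier (convexHull ℝ (P : Set Pt))

/-- The side `[a, b]` is *blank*: the only points of `P` on it are its endpoints. -/
def BlankSide (P : Finset Pt) (a b : Pt) : Prop :=
  IsSide P a b ∧ ∀ c ∈ P, c ∈ segment ℝ a b → c = a ∨ c = b

/-- The poset is *graded of rank `N`*: every maximal chain has `N + 1` elements. -/
def GradedOfRank (α : Type) [PartialOrder α] (N : ℕ) : Prop :=
  ∀ c : Set α, IsMaxChain (· ≤ ·) c → c.ncard = N + 1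

/-- `r_i`: the number of elements of rank `i` (the rank of `x` in a graded poset is the length
of the longest chain ending at `x`, `Order.height x`). -/
noncomputable def rankCount (α : Type) [PartialOrder α] (i : ℕ) : ℕ :=
  Nat.card {x : α // Order.height x = (i : ℕ∞)}

/-- *Rank-symmetric*: graded, and `r_i = r_{N-i}` for `0 ≤ i ≤ N`. -/
def RankSymmetric (α : Type) [PartialOrder α] : Prop :=
  ∃ N : ℕ, GradedOfRank α N ∧ ∀ i ≤ N, rankCount α i = rankCount α (N - i)

end Q165.NCS
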