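import Pool.Agent.Q165.NCS.Stm

/-! # (ENUM): from the fan to the boundary enumeration -/

namespace Q165.NCS

section
variable {P : Finset Pt} {n : ℕ} {p : ℕ → Pt} {e : ℝ} {L s : ℕ → ℝ}

theorem or0 (h : Fan P n p e L s) {i j : ℕ} (hi : 0 < i) (hi' : i < n) (hj : 0 < j) (hj' : j < n) :
    orient (p 0) (p i) (p j) = L i * L j * (s j - s i) := by
  unfold orient
  rw [h.fst i hi hi', h.snd i hi hi', h.fst j hj hj', h.snd j hj hj']
  ring

theorem or1 (h : Fan P n p e L s) {i j k : ℕ} (hi : 0 < i) (hi' : i < n) (hj : 0 < j) (hj' : j < n)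
    (hk : 0 < k) (hk' : k < n) :
    orient (p i) (p j) (p k) =
      L i * L j * (s j - s i) + L j * L k * (s k - s j) - L i * L k * (s k - s i) := by
  unfold orient
  rw [h.fst i hi hi', h.snd i hi hi', h.fst j hj hj', h.snd j hj hj', h.fst k hk hk',
    h.snd k hk hk']
  ring

theorem smono (h : Fan P n p e L s) {i j : ℕ} (hi : 0 < i) (hij : i ≤ j) (hj : j < n) :
    s i ≤ s j := by
  rcases hij.lt_or_eq with hlt | rfl
  · rcases h.mono i j hi hlt hj with h1 | ⟨h1, _⟩ | ⟨h1, _⟩
    · exact h1.le
    · exact h1.le
    · exact h1.le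
  · exact le_refl _

/-- supporting functional in fan coordinates -/
theorem supp (h : Fan P n p e L s) (hS : HasSup P) {i : ℕ} (hi : 0 < i) (hi' : i < n) :
    ∃ α γ : ℝ, (α ≠ 0 ∨ γ ≠ 0) ∧ 0 ≤ L i * (α + γ * s i) ∧
      ∀ k, 0 < k → k < n → L k * (α + γ * s k) ≤ L i * (α + γ * s i) := by
  obtain ⟨α, β, hne, hx⟩ := hS (p i) (h.mem i hi'.le)
  refine ⟨α, β - α * e, ?_, ?_, ?_⟩
  · by_contra hcon
    push Not at hcon
    obtain ⟨h1, h2⟩ := hcon
    rw [h1] at h2
    rcases hne with h3 | h3
    · exact h3 h1
    · exact h3 (by linarith)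
  · have h0 := hx (p 0) (h.mem 0 (Nat.zero_le _))
    rw [h.fst i hi hi', h.snd i hi hi'] at h0
    have : α * ((p 0).1 - ((p 0).1 + L i * (1 - e * s i))) +
        β * ((p 0).2 - ((p 0).2 + L i * s i)) = - (L i * (α + (β - α * e) * s i)) := by ring
    rw [this] at h0
    linarith
  · intro k hk hk'
    have h0 := hx (p k) (h.mem k hk'.le)
    rw [h.fst i hi hi', h.snd i hi hi', h.fst k hk hk', h.snd k hk hk'] at h0
    have : α * ((p 0).1 + L k * (1 - e * s k) - ((p 0).1 + L i * (1 - e * s i))) +
        β * ((p 0).2 + L k * s k - ((p 0).2 + L i * s i)) =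
        L k * (α + (β - α * e) * s k) - L i * (α + (β - α * e) * s i) := by ring
    rw [this] at h0
    linarith

theorem ray (h : Fan P n p e L s) (hS : HasSup P) {i j : ℕ} (hi : 0 < i) (hij : i < j) (hj : j < n)
    (hs : s i = s j) : s i = s 1 ∨ s i = s (n - 1) := by
  have hn := h.pos
  rcases h.mono i j hi hij hj with h1 | ⟨_, h2, h3⟩ | ⟨_, h2, _⟩
  · exact absurd hs h1.ne
  · left
    obtain ⟨α, γ, hne, h0, hk⟩ := supp h hS hi (hij.trans hj)
    have hLi := h.Lpos i hi (hij.trans hj)
    have h4 : 0 ≤ α + γ * s i := by
      by_contra hcon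
      push Not at hcon
      nlinarith
    have h5 := hk j (hi.trans hij) hj
    rw [← hs] at h5
    have h6 : α + γ * s i = 0 := by
      by_contra hcon
      have : 0 < α + γ * s i := lt_of_le_of_ne h4 (Ne.symm hcon)
      nlinarith
    have h7 : γ ≠ 0 := by
      intro hg
      rw [hg] at h6
      rcases hne with h8 | h8
      · exact h8 (by linarith)
      · exact h8 hg
    have h8 := hk (n - 1) (by omega) (by omega)
    have h9 := hk 1 (by omega) (by omega)
    rw [h6, mul_zero] at h8 h9
    have hα : α = - (γ * s i) := by linarith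
    rw [hα] at h8 h9
    have hL1 := h.Lpos 1 (by omega) (by omega)
    have hLn := h.Lpos (n - 1) (by omega) (by omega)
    have h10 : γ < 0 := by
      by_contra hcon
      push Not at hcon
      have hg : 0 < γ := lt_of_le_of_ne hcon (Ne.symm h7)
      have : 0 < L (n - 1) * (-(γ * s i) + γ * s (n - 1)) := by
        apply mul_pos hLn
        nlinarith
      linarith
    have h11 : s i ≤ s 1 := by
      by_contra hcon
      push Not at hcon
      have : 0 < L 1 * (-(γ * s i) + γ * s 1) := by
        apply mul_pos hL1
        nlinarith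
      linarith
    exact le_antisymm h11 (smono h (by omega) (by omega) (hij.trans hj))
  · right; exact h2

theorem strict3 (h : Fan P n p e L s) (hS : HasSup P) {i j k : ℕ} (hi : 0 < i) (hij : i < j)
    (hjk : j < k) (hk : k < n) (h1 : s i < s j) (h2 : s j < s k) :
    0 ≤ orient (p i) (p j) (p k) ∧ (orient (p i) (p j) (p k) = 0 →
      ∀ l, l < n → 0 ≤ orient (p i) (p k) (p l)) := by
  obtain ⟨α, γ, hne, h0, hsup⟩ := supp h hS (hi.trans hij) (hjk.trans hk)
  have hLi := h.Lpos i hi (by omega)
  have hLj := h.Lpos j (by omega) (by omega)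
  have hLk := h.Lpos k (by omega) (by omega)
  have fi := hsup i hi (by omega)
  have fk := hsup k (by omega) (by omega)
  have hT := or1 h hi (by omega : i < n) (by omega : 0 < j) (by omega : j < n)
    (by omega : 0 < k) (by omega : k < n)
  set T := orient (p i) (p j) (p k) with hTdef
  have hOij : 0 < L i * L j * (s j - s i) := mul_pos (mul_pos hLi hLj) (by linarith)
  have hOjk : 0 < L j * L k * (s k - s j) := mul_pos (mul_pos hLj hLk) (by linarith)
  have hOik : 0 < L i * L k * (s k - s i) := mul_pos (mul_pos hLi hLk) (by linarith)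
  have hid : T * (L j * (α + γ * s j)) +
      (L j * L k * (s k - s j)) * (L i * (α + γ * s i) - L j * (α + γ * s j)) +
      (L i * L j * (s j - s i)) * (L k * (α + γ * s k) - L j * (α + γ * s j)) = 0 := by
    rw [hT]; ring
  have key : ∀ c : ℝ, L i * (α + γ * s i) = c → L j * (α + γ * s j) = c → c = 0 → False := by
    intro c hc1 hc2 hc3
    rw [hc3] at hc1 hc2
    have e1 : α + γ * s i = 0 := by
      rcases mul_eq_zero.mp hc1 with h3 | h3
      · exact absurd h3 hLi.ne'
      · exact h3
    have e2 : α + γ * s j = 0 := by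
      rcases mul_eq_zero.mp hc2 with h3 | h3
      · exact absurd h3 hLj.ne'
      · exact h3
    have e3 : γ * (s j - s i) = 0 := by linarith
    have e4 : γ = 0 := by
      rcases mul_eq_zero.mp e3 with h3 | h3
      · exact h3
      · exact absurd h3 (by linarith : (0:ℝ) < s j - s i).ne'
    rw [e4] at e1
    rcases hne with h3 | h3
    · exact h3 (by linarith)
    · exact h3 e4
  constructor
  · by_contra hcon
    push Not at hcon
    have t1 : T * (L j * (α + γ * s j)) ≤ 0 := by nlinarith
    have t2 : (L j * L k * (s k - s j)) * (L i * (α + γ * s i) - L j * (α + γ * s j)) ≤ 0 :=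
      mul_nonpos_of_nonneg_of_nonpos hOjk.le (by linarith)
    have t3 : (L i * L j * (s j - s i)) * (L k * (α + γ * s k) - L j * (α + γ * s j)) ≤ 0 :=
      mul_nonpos_of_nonneg_of_nonpos hOij.le (by linarith)
    have z1 : T * (L j * (α + γ * s j)) = 0 := by linarith
    have z2 : (L j * L k * (s k - s j)) * (L i * (α + γ * s i) - L j * (α + γ * s j)) = 0 := by
      linarith
    have z3 : L j * (α + γ * s j) = 0 := by
      rcases mul_eq_zero.mp z1 with h3 | h3
      · exact absurd h3 hcon.ne
      · exact h3
    have z4 : L i * (α + γ * s i) - L j * (α + γ * s j) = 0 := by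
      rcases mul_eq_zero.mp z2 with h3 | h3
      · exact absurd h3 hOjk.ne'
      · exact h3
    exact key 0 (by linarith) z3 rfl
  · intro hT0 l hl
    rw [hT0, zero_mul, zero_add] at hid
    have t2 : (L j * L k * (s k - s j)) * (L i * (α + γ * s i) - L j * (α + γ * s j)) ≤ 0 :=
      mul_nonpos_of_nonneg_of_nonpos hOjk.le (by linarith)
    have t3 : (L i * L j * (s j - s i)) * (L k * (α + γ * s k) - L j * (α + γ * s j)) ≤ 0 :=
      mul_nonpos_of_nonneg_of_nonpos hOij.le (by linarith)
    have z2 : (L j * L k * (s k - s j)) * (L i * (α + γ * s i) - L j * (α + γ * s j)) = 0 := by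
      linarith
    have z3 : (L i * L j * (s j - s i)) * (L k * (α + γ * s k) - L j * (α + γ * s j)) = 0 := by
      linarith
    have z4 : L i * (α + γ * s i) = L j * (α + γ * s j) := by
      rcases mul_eq_zero.mp z2 with h3 | h3
      · exact absurd h3 hOjk.ne'
      · linarith
    have z5 : L k * (α + γ * s k) = L j * (α + γ * s j) := by
      rcases mul_eq_zero.mp z3 with h3 | h3
      · exact absurd h3 hOij.ne'
      · linarith
    set c := L j * (α + γ * s j) with hc
    have hcpos : 0 < c := lt_of_le_of_ne h0 (fun hh => key c z4 rfl hh.symm)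
    rcases Nat.eq_zero_or_pos l with rfl | hl0
    · have : orient (p i) (p k) (p 0) = orient (p 0) (p i) (p k) := by unfold orient; ring
      rw [this, or0 h hi (by omega) (by omega) hk]
      exact hOik.le
    · have hl3 := or1 h hi (by omega : i < n) (by omega : 0 < k) hk hl0 hl
      have fl := hsup l hl0 hl
      have hLl := h.Lpos l hl0 hl
      have hcc : c * orient (p i) (p k) (p l) =
          (L i * L k * (s k - s i)) * (c - L l * (α + γ * s l)) := by
        rw [hl3]
        have e1 : c * (L k * L l * (s l - s k)) = L i * (α + γ * s i) * (L k * L l * (s l - s k)) := by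
          rw [z4]
        have e2 : c * (L i * L l * (s l - s i)) = L k * (α + γ * s k) * (L i * L l * (s l - s i)) := by
          rw [z5]
        have : c * (L i * L k * (s k - s i) + L k * L l * (s l - s k) - L i * L l * (s l - s i)) =
            c * (L i * L k * (s k - s i)) + c * (L k * L l * (s l - s k)) -
              c * (L i * L l * (s l - s i)) := by ring
        rw [this, e1, e2]
        ring
      have : 0 ≤ c * orient (p i) (p k) (p l) := by
        rw [hcc]
        exact mul_nonneg hOik.le (by linarith)
      by_contra hcon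
      push Not at hcon
      nlinarith

/-- the trichotomy for interior indices -/
theorem tri (h : Fan P n p e L s) (hS : HasSup P) {i j k : ℕ} (hi : 0 < i) (hij : i < j)
    (hjk : j < k) (hk : k < n) :
    0 < orient (p i) (p j) (p k) ∨
    (orient (p i) (p j) (p k) = 0 ∧ s i = s j ∧ s j = s k) ∨
    (orient (p i) (p j) (p k) = 0 ∧ s i < s j ∧ s j < s k ∧
      ∀ l, l < n → 0 ≤ orient (p i) (p k) (p l)) := by
  have hLi := h.Lpos i hi (by omega)
  have hLj := h.Lpos j (by omega) (by omega)
  have hLk := h.Lpos k (by omega) (by omega)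
  have hT := or1 h hi (by omega : i < n) (by omega : 0 < j) (by omega : j < n)
    (by omega : 0 < k) (by omega : k < n)
  have m1 := smono h hi hij.le (by omega : j < n)
  have m2 := smono h (by omega : 0 < j) hjk.le hk
  rcases m1.lt_or_eq with a1 | a1
  · rcases m2.lt_or_eq with a2 | a2
    · obtain ⟨b1, b2⟩ := strict3 h hS hi hij hjk hk a1 a2
      rcases b1.lt_or_eq with b3 | b3
      · left; exact b3
      · right; right
        exact ⟨b3.symm, a1, a2, b2 b3.symm⟩
    · left
      have hr := ray h hS (by omega : 0 < j) hjk hk a2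
      have hm1 : s 1 ≤ s i := smono h (by omega) (by omega) (by omega)
      have hr2 : s j = s (n - 1) := by
        rcases hr with hr | hr
        · linarith
        · exact hr
      rcases h.mono j k (by omega) hjk hk with c1 | ⟨_, c2, _⟩ | ⟨_, _, c3⟩
      · linarith
      · linarith
      · rw [hT, ← a2]
        have : L i * L j * (s j - s i) + L j * L k * (s j - s j) - L i * L k * (s j - s i) =
            L i * (L j - L k) * (s j - s i) := by ring
        rw [this]
        exact mul_pos (mul_pos hLi (by linarith)) (by linarith)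
  · rcases m2.lt_or_eq with a2 | a2
    · left
      have hm : s k ≤ s (n - 1) := smono h (by omega) (by omega) (by omega)
      rcases h.mono i j hi hij (by omega) with c1 | ⟨_, _, c3⟩ | ⟨_, c2, _⟩
      · linarith
      · rw [hT, ← a1]
        have : L i * L j * (s i - s i) + L j * L k * (s k - s i) - L i * L k * (s k - s i) =
            (L j - L i) * L k * (s k - s i) := by ring
        rw [this]
        exact mul_pos (mul_pos (by linarith) hLk) (by linarith)
      · linarith
    · right; left
      refine ⟨?_, a1, a2⟩
      rw [hT, ← a2, ← a1]; ring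

theorem orient_cyc (a b c : Pt) : orient a b c = orient c a b := by unfold orient; ring

theorem left_aux (h : Fan P n p e L s) (hS : HasSup P) (i j k : ℕ) (hij : i < j) (hjk : j < k)
    (hk : k ≤ n) : 0 ≤ orient (p i) (p j) (p k) := by
  rcases Nat.eq_zero_or_pos i with rfl | hi
  · rcases hk.lt_or_eq with hk1 | rfl
    · rw [or0 h hij (by omega) (by omega) hk1]
      have := smono h hij hjk.le hk1
      have h1 := h.Lpos j hij (by omega)
      have h2 := h.Lpos k (by omega) hk1
      exact mul_nonneg (mul_pos h1 h2).le (by linarith)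
    · rw [h.closed]
      have : orient (p 0) (p j) (p 0) = 0 := by unfold orient; ring
      rw [this]
  · rcases hk.lt_or_eq with hk1 | rfl
    · rcases tri h hS hi hij hjk hk1 with h1 | ⟨h1, _⟩ | ⟨h1, _⟩
      · exact h1.le
      · exact h1.ge
      · exact h1.ge
    · rw [h.closed, orient_cyc, or0 h hi (by omega) (by omega) hjk]
      have := smono h hi hij.le hjk
      have h1 := h.Lpos i hi (by omega)
      have h2 := h.Lpos j (by omega) hjk
      exact mul_nonneg (mul_pos h1 h2).le (by linarith)

/-- the corner predicate -/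
def corn (p : ℕ → Pt) (n l : ℕ) : Prop :=
  l = 0 ∨ l = n ∨ orient (p (l - 1)) (p l) (p (l + 1)) ≠ 0

/-- three points on the line `a b` -/
theorem onLine {a b x y z : Pt} (hab : a ≠ b) (hx : orient a b x = 0) (hy : orient a b y = 0)
    (hz : orient a b z = 0) : orient x y z = 0 := by
  have hd : 0 < (b.1 - a.1) ^ 2 + (b.2 - a.2) ^ 2 := by
    rcases eq_or_ne b.1 a.1 with h1 | h1
    · have h2 : b.2 ≠ a.2 := fun h2 => hab (Prod.ext h1.symm h2.symm)
      have : 0 < (b.2 - a.2) ^ 2 := by
        have := sub_ne_zero.mpr h2
        positivity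
      nlinarith [sq_nonneg (b.1 - a.1)]
    · have : 0 < (b.1 - a.1) ^ 2 := by
        have := sub_ne_zero.mpr h1
        positivity
      nlinarith [sq_nonneg (b.2 - a.2)]
  have hid : ((b.1 - a.1) ^ 2 + (b.2 - a.2) ^ 2) * orient x y z =
      ((b.1 - a.1) * (x.1 - a.1) + (b.2 - a.2) * (x.2 - a.2)) * (orient a b y - orient a b z) +
      ((b.1 - a.1) * (y.1 - a.1) + (b.2 - a.2) * (y.2 - a.2)) * (orient a b z - orient a b x) +
      ((b.1 - a.1) * (z.1 - a.1) + (b.2 - a.2) * (z.2 - a.2)) * (orient a b x - orient a b y) := by
    unfold orient; ring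
  rw [hx, hy, hz] at hid
  simp only [sub_self, mul_zero, add_zero] at hid
  rcases mul_eq_zero.mp hid with h1 | h1
  · exact absurd h1 hd.ne'
  · exact h1

/-- equal slopes on an index interval -/
theorem eqs (h : Fan P n p e L s) {i k : ℕ} (hi : 0 < i) (hk : k < n)
    (hs : s i = s k) : ∀ l, i ≤ l → l ≤ k → s l = s i := fun l h1 h2 =>
  le_antisymm (by rw [hs]; exact smono h (by omega) h2 hk) (smono h hi h1 (by omega))

theorem or1_zero (h : Fan P n p e L s) {i j k : ℕ} (hi : 0 < i) (hi' : i < n) (hj : 0 < j)
    (hj' : j < n) (hk : 0 < k) (hk' : k < n) (h1 : s j = s i) (h2 : s k = s i) :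
    orient (p i) (p j) (p k) = 0 := by
  rw [or1 h hi hi' hj hj' hk hk', h1, h2]; ring

theorem col_aux (h : Fan P n p e L s) (hS : HasSup P) (i j k : ℕ) (hij : i < j) (hjk : j < k)
    (hk : k < n) (h0 : orient (p i) (p j) (p k) = 0) :
    (∀ l, i < l → l < k → ¬ corn p n l) ∨ (i = 0 ∧ ∀ l, j < l → l < n → ¬ corn p n l) := by
  rcases Nat.eq_zero_or_pos i with rfl | hi
  · have hLj := h.Lpos j hij (by omega)
    have hLk := h.Lpos k (by omega) hk
    rw [or0 h hij (by omega) (by omega) hk] at h0
    have hs : s j = s k := by
      rcases mul_eq_zero.mp h0 with h1 | h1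
      · exact absurd h1 (mul_pos hLj hLk).ne'
      · linarith
    rcases ray h hS hij hjk hk hs with hr | hr
    · left
      intro l hl0 hlk
      have hE := eqs h (by omega : 0 < 1) hk (by rw [← hr]; exact hs)
      rintro (h1 | h1 | h1)
      · omega
      · omega
      · apply h1
        rcases Nat.eq_or_lt_of_le (by omega : 1 ≤ l) with h2 | h2
        · subst h2
          simp only [Nat.sub_self]
          rw [or0 h (by omega) (by omega) (by omega) (by omega), hE (1 + 1) (by omega) (by omega)]
          ring
        · exact or1_zero h (by omega) (by omega) (by omega) (by omega) (by omega) (by omega)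
            (by rw [hE l (by omega) (by omega), hE (l - 1) (by omega) (by omega)])
            (by rw [hE (l + 1) (by omega) (by omega), hE (l - 1) (by omega) (by omega)])
    · right
      refine ⟨rfl, fun l hl0 hln => ?_⟩
      have hE := eqs h hij (by omega : n - 1 < n) hr
      rintro (h1 | h1 | h1)
      · omega
      · omega
      · apply h1
        rcases Nat.eq_or_lt_of_le (by omega : l + 1 ≤ n) with h2 | h2
        · rw [h2, h.closed, orient_cyc, or0 h (by omega) (by omega) (by omega) (by omega),
            hE l (by omega) (by omega), hE (l - 1) (by omega) (by omega)]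
          ring
        · exact or1_zero h (by omega) (by omega) (by omega) (by omega) (by omega) (by omega)
            (by rw [hE l (by omega) (by omega), hE (l - 1) (by omega) (by omega)])
            (by rw [hE (l + 1) (by omega) (by omega), hE (l - 1) (by omega) (by omega)])
  · left
    intro l hl0 hlk
    rcases tri h hS hi hij hjk hk with h1 | ⟨_, h2, h3⟩ | ⟨_, _, _, h4⟩
    · exact absurd h0 h1.ne'
    · have hE := eqs h hi hk (h2.trans h3)
      rintro (h1 | h1 | h1)
      · omega
      · omega
      · exact h1 (or1_zero h (by omega) (by omega) (by omega) (by omega) (by omega) (by omega)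
            (by rw [hE l (by omega) (by omega), hE (l - 1) (by omega) (by omega)])
            (by rw [hE (l + 1) (by omega) (by omega), hE (l - 1) (by omega) (by omega)]))
    · have hne : p i ≠ p k := fun hh => by
        have := h.inj i k (by omega) hk hh
        omega
      have hon : ∀ m, i ≤ m → m ≤ k → orient (p i) (p k) (p m) = 0 := by
        intro m hm1 hm2
        rcases Nat.eq_or_lt_of_le hm1 with rfl | hm1
        · unfold orient; ring
        rcases Nat.eq_or_lt_of_le hm2 with rfl | hm2
        · unfold orient; ring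
        have a1 := h4 m (by omega)
        have a2 := left_aux h hS i m k hm1 hm2 hk.le
        have a3 : orient (p i) (p m) (p k) = - orient (p i) (p k) (p m) := by unfold orient; ring
        linarith
      rintro (h1 | h1 | h1)
      · omega
      · omega
      · exact h1 (onLine hne (hon _ (by omega) (by omega)) (hon _ (by omega) (by omega))
          (hon _ (by omega) (by omega)))

/-- local betweenness -/
theorem loc (h : Fan P n p e L s) (hS : HasSup P) (l : ℕ) (hl : 0 < l) (hln : l < n)
    (h0 : orient (p (l - 1)) (p l) (p (l + 1)) = 0) :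
    ∃ c : ℝ, 0 < c ∧ (p (l + 1)).1 - (p l).1 = c * ((p l).1 - (p (l - 1)).1) ∧
      (p (l + 1)).2 - (p l).2 = c * ((p l).2 - (p (l - 1)).2) := by
  have hn := h.pos
  have hends := h.ends
  have hLl := h.Lpos l hl hln
  rcases Nat.eq_or_lt_of_le (by omega : 1 ≤ l) with h1 | h1
  · subst h1
    simp only [Nat.sub_self] at h0 ⊢
    have hL2 := h.Lpos (1 + 1) (by omega) (by omega)
    rw [or0 h (by omega) (by omega) (by omega) (by omega)] at h0
    have hs : s 1 = s (1 + 1) := by
      rcases mul_eq_zero.mp h0 with h1 | h1
      · exact absurd h1 (mul_pos hLl hL2).ne'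
      · linarith
    rcases h.mono 1 (1 + 1) (by omega) (by omega) (by omega) with c1 | ⟨_, _, c3⟩ | ⟨_, c2, _⟩
    · exact absurd hs c1.ne
    · refine ⟨(L (1 + 1) - L 1) / L 1, div_pos (by linarith) hLl, ?_, ?_⟩
      · rw [h.fst 1 (by omega) (by omega), h.fst (1 + 1) (by omega) (by omega), ← hs]
        field_simp
        ring
      · rw [h.snd 1 (by omega) (by omega), h.snd (1 + 1) (by omega) (by omega), ← hs]
        field_simp
        ring
    · exact absurd c2 hends.ne
  · have hLp := h.Lpos (l - 1) (by omega) (by omega)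
    rcases Nat.eq_or_lt_of_le (by omega : l + 1 ≤ n) with h2 | h2
    · rw [h2, h.closed] at h0 ⊢
      rw [orient_cyc, or0 h (by omega) (by omega) (by omega) (by omega)] at h0
      have hs : s (l - 1) = s l := by
        rcases mul_eq_zero.mp h0 with h1 | h1
        · exact absurd h1 (mul_pos hLp hLl).ne'
        · linarith
      have hln1 : n - 1 = l := by omega
      rcases h.mono (l - 1) l (by omega) (by omega) (by omega) with c1 | ⟨_, c2, _⟩ | ⟨_, _, c3⟩
      · exact absurd hs c1.ne
      · rw [hln1] at c2
        exact absurd hs c2.ne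
      · have hne : L (l - 1) - L l ≠ 0 := by linarith
        refine ⟨L l / (L (l - 1) - L l), div_pos hLl (by linarith), ?_, ?_⟩
        · rw [h.fst l (by omega) (by omega), h.fst (l - 1) (by omega) (by omega), hs]
          field_simp
          ring
        · rw [h.snd l (by omega) (by omega), h.snd (l - 1) (by omega) (by omega), hs]
          field_simp
          ring
    · have hLn := h.Lpos (l + 1) (by omega) (by omega)
      rcases tri h hS (by omega : 0 < l - 1) (by omega : l - 1 < l) (by omega : l < l + 1) h2 with
        d1 | ⟨_, d2, d3⟩ | ⟨d0, d1, d2, _⟩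
      · exact absurd h0 d1.ne'
      · rcases h.mono (l - 1) l (by omega) (by omega) (by omega) with c1 | ⟨_, c2, c3⟩ | ⟨_, c2, c3⟩
        · exact absurd d2 c1.ne
        · rcases h.mono l (l + 1) (by omega) (by omega) (by omega) with
            b1 | ⟨_, b2, b3⟩ | ⟨_, b2, b3⟩
          · exact absurd d3 b1.ne
          · have hne : L l - L (l - 1) ≠ 0 := by linarith
            refine ⟨(L (l + 1) - L l) / (L l - L (l - 1)), div_pos (by linarith) (by linarith),
              ?_, ?_⟩
            · rw [h.fst l (by omega) (by omega), h.fst (l - 1) (by omega) (by omega),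
                h.fst (l + 1) (by omega) (by omega), ← d3, d2]
              field_simp
              ring
            · rw [h.snd l (by omega) (by omega), h.snd (l - 1) (by omega) (by omega),
                h.snd (l + 1) (by omega) (by omega), ← d3, d2]
              field_simp
              ring
          · rw [d2] at c2
            exact absurd b2 c2.ne
        · rcases h.mono l (l + 1) (by omega) (by omega) (by omega) with
            b1 | ⟨_, b2, b3⟩ | ⟨_, b2, b3⟩
          · exact absurd d3 b1.ne
          · rw [d2] at c2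
            exact absurd c2 b2.ne
          · have hne : L l - L (l - 1) ≠ 0 := by linarith
            refine ⟨(L (l + 1) - L l) / (L l - L (l - 1)),
              div_pos_of_neg_of_neg (by linarith) (by linarith), ?_, ?_⟩
            · rw [h.fst l (by omega) (by omega), h.fst (l - 1) (by omega) (by omega),
                h.fst (l + 1) (by omega) (by omega), ← d3, d2]
              field_simp
              ring
            · rw [h.snd l (by omega) (by omega), h.snd (l - 1) (by omega) (by omega),
                h.snd (l + 1) (by omega) (by omega), ← d3, d2]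
              field_simp
              ring
      · rw [or1 h (by omega) (by omega) (by omega) (by omega) (by omega) (by omega)] at d0
        set A := L (l - 1) * L l * (s l - s (l - 1)) with hA
        set B := L l * L (l + 1) * (s (l + 1) - s l) with hB
        have hApos : 0 < A := mul_pos (mul_pos hLp hLl) (by linarith)
        have hBpos : 0 < B := mul_pos (mul_pos hLl hLn) (by linarith)
        refine ⟨B / A, div_pos hBpos hApos, ?_, ?_⟩
        · rw [h.fst l (by omega) (by omega), h.fst (l - 1) (by omega) (by omega),
            h.fst (l + 1) (by omega) (by omega), div_mul_eq_mul_div, eq_div_iff hApos.ne', hA, hB]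
          rw [hA, hB] at d0
          linear_combination (-L l * (1 - e * s l)) * d0
        · rw [h.snd l (by omega) (by omega), h.snd (l - 1) (by omega) (by omega),
            h.snd (l + 1) (by omega) (by omega), div_mul_eq_mul_div, eq_div_iff hApos.ne', hA, hB]
          rw [hA, hB] at d0
          linear_combination (-L l * s l) * d0

theorem chain (h : Fan P n p e L s) (hS : HasSup P) (i k : ℕ) (hk : k ≤ n)
    (hc : ∀ l, i < l → l < k → ¬ corn p n l) :
    ∀ m, i + m < k → ∃ c : ℝ, 0 < c ∧
      (p (i + m + 1)).1 - (p (i + m)).1 = c * ((p (i + 1)).1 - (p i).1) ∧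
      (p (i + m + 1)).2 - (p (i + m)).2 = c * ((p (i + 1)).2 - (p i).2) := by
  intro m
  induction m with
  | zero => intro _; exact ⟨1, one_pos, by simp, by simp⟩
  | succ m ih =>
    intro hm
    obtain ⟨c, c0, c1, c2⟩ := ih (by omega)
    have hnc := hc (i + (m + 1)) (by omega) (by omega)
    have h0 : orient (p (i + (m + 1) - 1)) (p (i + (m + 1))) (p (i + (m + 1) + 1)) = 0 := by
      by_contra hh
      exact hnc (Or.inr (Or.inr hh))
    obtain ⟨d, d0, d1, d2⟩ := loc h hS (i + (m + 1)) (by omega) (by omega) h0
    have e1 : i + (m + 1) - 1 = i + m := by omega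
    rw [e1] at d1 d2
    refine ⟨d * c, mul_pos d0 c0, ?_, ?_⟩
    · rw [d1, mul_assoc, ← c1]; rfl
    · rw [d2, mul_assoc, ← c2]; rfl

theorem chain2 (h : Fan P n p e L s) (hS : HasSup P) (i k : ℕ) (hk : k ≤ n)
    (hc : ∀ l, i < l → l < k → ¬ corn p n l) :
    ∃ C : ℕ → ℝ, C 0 = 0 ∧ (∀ m, i + m < k → C m < C (m + 1)) ∧ ∀ m, i + m ≤ k →
      (p (i + m)).1 - (p i).1 = C m * ((p (i + 1)).1 - (p i).1) ∧
      (p (i + m)).2 - (p i).2 = C m * ((p (i + 1)).2 - (p i).2) := by
  have hch := chain h hS i k hk hc
  choose! c hc0 hc1 hc2 using hch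
  refine ⟨fun m => ∑ l ∈ Finset.range m, c l, by simp, ?_, ?_⟩
  · intro m hm
    simp only [Finset.sum_range_succ]
    linarith [hc0 m hm]
  · intro m
    induction m with
    | zero => intro _; simp
    | succ m ih =>
      intro hm
      obtain ⟨i1, i2⟩ := ih (by omega)
      simp only [Finset.sum_range_succ] at i1 i2 ⊢
      have a1 := hc1 m (by omega)
      have a2 := hc2 m (by omega)
      have e1 : i + (m + 1) = i + m + 1 := by omega
      rw [e1]
      constructor
      · linarith
      · linarith

theorem btw_aux (h : Fan P n p e L s) (hS : HasSup P) (i j k : ℕ) (hij : i < j) (hjk : j < k)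
    (hk : k ≤ n) (hc : ∀ l, i < l → l < k → ¬ corn p n l) :
    p j ∈ segment ℝ (p i) (p k) := by
  obtain ⟨C, C0, Cm, Ce⟩ := chain2 h hS i k hk hc
  have hmono : ∀ m m', m ≤ m' → i + m' ≤ k → C m ≤ C m' := by
    intro m m' hm
    induction m', hm using Nat.le_induction with
    | base => intro _; exact le_refl _
    | succ q hq ih => intro hh; exact (ih (by omega)).trans (Cm q (by omega)).le
  have hj0 : 0 < C (j - i) := by
    have h1 := Cm 0 (by omega)
    have h2 := hmono 1 (j - i) (by omega) (by omega)
    rw [C0] at h1
    simp only [zero_add] at h1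
    linarith
  have hjk' : C (j - i) < C (k - i) := by
    have h1 := Cm (j - i) (by omega)
    have h2 := hmono (j - i + 1) (k - i) (by omega) (by omega)
    linarith
  obtain ⟨a1, a2⟩ := Ce (j - i) (by omega)
  obtain ⟨b1, b2⟩ := Ce (k - i) (by omega)
  have e1 : i + (j - i) = j := by omega
  have e2 : i + (k - i) = k := by omega
  rw [e1] at a1 a2
  rw [e2] at b1 b2
  have hkpos : 0 < C (k - i) := by linarith
  rw [segment_eq_image']
  refine ⟨C (j - i) / C (k - i), ⟨by positivity, by rw [div_le_one hkpos]; exact hjk'.le⟩, ?_⟩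
  apply Prod.ext
  · simp only [Prod.fst_add, Prod.smul_fst, Prod.fst_sub, smul_eq_mul]
    rw [b1]
    field_simp
    linarith
  · simp only [Prod.snd_add, Prod.smul_snd, Prod.snd_sub, smul_eq_mul]
    rw [b2]
    field_simp
    linarith

end

theorem enum : S_ENUM := by
  intro P n p e L s h hS
  exact ⟨corn p n, h.card, h.pos, h.closed, h.mem, h.inj, h.surj, left_aux h hS, Or.inl rfl,
    Or.inr (Or.inl rfl), btw_aux h hS, col_aux h hS⟩

end Q165.NCS
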