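import Pool.Agent.Q165.NCS.Stm

/-! # (FAN): sorting around an extreme point -/

namespace Q165.NCS

theorem generic (P : Finset Pt) :
    ∃ e : ℝ, ∀ x ∈ P, ∀ y ∈ P, x.1 + e * x.2 = y.1 + e * y.2 → x = y := by
  classical
  obtain ⟨e, he⟩ := Infinite.exists_notMem_finset
    ((P ×ˢ P).image (fun q : Pt × Pt => (q.2.1 - q.1.1) / (q.1.2 - q.2.2)))
  refine ⟨e, fun x hx y hy hxy => ?_⟩
  by_cases h : x.2 = y.2
  · rw [h] at hxy
    exact Prod.ext (by linarith) h
  · exfalso
    apply he
    rw [Finset.mem_image]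
    refine ⟨(x, y), Finset.mem_product.mpr ⟨hx, hy⟩, ?_⟩
    have h2 : x.2 - y.2 ≠ 0 := sub_ne_zero.mpr h
    simp only
    rw [div_eq_iff h2]
    linarith

theorem fan : S_FAN := by
  classical
  intro P hP
  obtain ⟨e, he⟩ := generic P
  have hne : P.Nonempty := by
    by_contra hcon
    rw [Finset.not_nonempty_iff_eq_empty] at hcon
    rw [hcon] at hP
    exact hP (by simpa using collinear_empty ℝ Pt)
  obtain ⟨v, hv, hmin⟩ := Finset.exists_min_image P (fun x => x.1 + e * x.2) hne
  set l : Pt → ℝ := fun x => (x.1 + e * x.2) - (v.1 + e * v.2) with hl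
  have lpos : ∀ x ∈ P.erase v, 0 < l x := by
    intro x hx
    rw [Finset.mem_erase] at hx
    have h1 := hmin x hx.2
    rcases h1.lt_or_eq with h2 | h2
    · simp only [hl]; linarith
    · exact absurd (he v hv x hx.2 h2).symm hx.1
  set s : Pt → ℝ := fun x => (x.2 - v.2) / l x with hs
  have hsnd : ∀ x ∈ P.erase v, x.2 = v.2 + l x * s x := by
    intro x hx
    have := (lpos x hx).ne'
    simp only [hs]
    field_simp
    ring
  have hfst : ∀ x ∈ P.erase v, x.1 = v.1 + l x * (1 - e * s x) := by
    intro x hx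
    have h1 := hsnd x hx
    have h2 : l x = (x.1 + e * x.2) - (v.1 + e * v.2) := rfl
    have : l x * (1 - e * s x) = l x - e * (l x * s x) := by ring
    rw [this]
    have h3 : l x * s x = x.2 - v.2 := by linarith
    rw [h3, h2]; ring
  -- not all slopes are equal
  have hdiff : ¬ ∃ c, ∀ x ∈ P.erase v, s x = c := by
    rintro ⟨c, hc⟩
    apply hP
    rw [collinear_iff_of_mem (p₀ := v) (by exact_mod_cast hv)]
    refine ⟨(1 - e * c, c), fun x hx => ?_⟩
    by_cases hxv : x = v
    · exact ⟨0, by rw [hxv]; simp⟩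
    · have hx' : x ∈ P.erase v := Finset.mem_erase.mpr ⟨hxv, by exact_mod_cast hx⟩
      refine ⟨l x, ?_⟩
      have h1 := hfst x hx'
      have h2 := hsnd x hx'
      rw [hc x hx'] at h1 h2
      apply Prod.ext
      · simp only [vadd_eq_add, Prod.fst_add, Prod.smul_fst, smul_eq_mul]
        linarith
      · simp only [vadd_eq_add, Prod.snd_add, Prod.smul_snd, smul_eq_mul]
        linarith
  have hQ : (P.erase v).Nonempty := by
    by_contra hcon
    rw [Finset.not_nonempty_iff_eq_empty] at hcon
    apply hdiff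
    refine ⟨0, fun x hx => ?_⟩
    rw [hcon] at hx
    exact absurd hx (Finset.notMem_empty _)
  obtain ⟨xM, hxM, hM⟩ := Finset.exists_max_image (P.erase v) s hQ
  set key : Pt → ℝ ×ₗ ℝ := fun x => toLex (s x, if s x = s xM then - l x else l x) with hkey
  have key_lt : ∀ x y, key x < key y ↔ (s x < s y ∨ (s x = s y ∧
      (if s x = s xM then - l x else l x) < (if s y = s xM then - l y else l y))) := by
    intro x y
    simp only [hkey, Prod.Lex.toLex_lt_toLex]
  have key_inj : ∀ x ∈ P.erase v, ∀ y ∈ P.erase v, key x = key y → x = y := by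
    intro x hx y hy hxy
    simp only [hkey, EmbeddingLike.apply_eq_iff_eq, Prod.mk.injEq] at hxy
    obtain ⟨h1, h2⟩ := hxy
    rw [h1] at h2
    have h3 : l x = l y := by
      split_ifs at h2 with h4
      · linarith
      · exact h2
    apply he x (Finset.mem_of_mem_erase hx) y (Finset.mem_of_mem_erase hy)
    simp only [hl] at h3
    linarith
  set m := (P.erase v).card with hm
  have hK : ((P.erase v).image key).card = m := Finset.card_image_of_injOn
    (fun x hx y hy h => key_inj x (by exact_mod_cast hx) y (by exact_mod_cast hy) h)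
  have hq : ∀ i : Fin m, ∃ x ∈ P.erase v, key x = ((P.erase v).image key).orderEmbOfFin hK i := by
    intro i
    have := Finset.orderEmbOfFin_mem ((P.erase v).image key) hK i
    rw [Finset.mem_image] at this
    exact this
  choose q hq1 hq2 using hq
  have hmpos : 0 < m := Finset.card_pos.mpr hQ
  have hcard : P.card = m + 1 := by rw [hm, Finset.card_erase_add_one hv]
  have hqlt : ∀ i j : Fin m, i < j → key (q i) < key (q j) := by
    intro i j hij
    rw [hq2, hq2]
    exact (Finset.orderEmbOfFin _ hK).strictMono hij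
  have hqsurj : ∀ x ∈ P.erase v, ∃ i, q i = x := by
    intro x hx
    have h1 : key x ∈ Set.range (((P.erase v).image key).orderEmbOfFin hK) := by
      rw [Finset.range_orderEmbOfFin]
      exact_mod_cast Finset.mem_image_of_mem key hx
    obtain ⟨i, hi⟩ := h1
    exact ⟨i, key_inj _ (hq1 i) _ hx ((hq2 i).trans hi)⟩
  set p : ℕ → Pt := fun i => if h : 0 < i ∧ i < m + 1 then q ⟨i - 1, by omega⟩ else v with hp
  have p0 : p 0 = v := by simp [hp]
  have pn : p (m + 1) = v := by simp [hp]
  have pi : ∀ i (h0 : 0 < i) (h1 : i < m + 1), p i = q ⟨i - 1, by omega⟩ := by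
    intro i h0 h1
    simp only [hp]
    rw [dif_pos ⟨h0, h1⟩]
  have piQ : ∀ i, 0 < i → i < m + 1 → p i ∈ P.erase v := by
    intro i h0 h1
    rw [pi i h0 h1]; exact hq1 _
  have plt : ∀ i j, 0 < i → i < j → j < m + 1 → key (p i) < key (p j) := by
    intro i j h0 h1 h2
    rw [pi i h0 (by omega), pi j (by omega) h2]
    apply hqlt
    rw [Fin.mk_lt_mk]
    omega
  have sle : ∀ i j, 0 < i → i ≤ j → j < m + 1 → s (p i) ≤ s (p j) := by
    intro i j h0 h1 h2
    rcases h1.lt_or_eq with h3 | h3
    · rcases (key_lt _ _).mp (plt i j h0 h3 h2) with h4 | ⟨h4, _⟩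
      · exact h4.le
      · exact h4.le
    · rw [h3]
  have psurj : ∀ x ∈ P, ∃ i, i < m + 1 ∧ p i = x := by
    intro x hx
    by_cases hxv : x = v
    · exact ⟨0, by omega, by rw [p0, hxv]⟩
    · obtain ⟨i, hi⟩ := hqsurj x (Finset.mem_erase.mpr ⟨hxv, hx⟩)
      refine ⟨i.1 + 1, by omega, ?_⟩
      rw [pi _ (by omega) (by omega), ← hi]
      congr 1
  have psurj' : ∀ x ∈ P.erase v, ∃ i, 0 < i ∧ i < m + 1 ∧ p i = x := by
    intro x hx
    obtain ⟨i, hi, hix⟩ := psurj x (Finset.mem_of_mem_erase hx)
    refine ⟨i, ?_, hi, hix⟩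
    rcases Nat.eq_zero_or_pos i with h | h
    · rw [h, p0] at hix
      exact absurd hix.symm (Finset.ne_of_mem_erase hx)
    · exact h
  have sM : s (p m) = s xM := by
    obtain ⟨i, hi0, hi, hix⟩ := psurj' xM hxM
    apply le_antisymm (hM _ (piQ m hmpos (by omega)))
    rw [← hix]
    exact sle i m hi0 (by omega) (by omega)
  have hends : s (p 1) < s (p m) := by
    rcases (sle 1 m (by omega) (by omega) (by omega)).lt_or_eq with h | h
    · exact h
    · exfalso
      apply hdiff
      refine ⟨s (p 1), fun x hx => ?_⟩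
      obtain ⟨i, hi0, hi, rfl⟩ := psurj' x hx
      have a1 := sle 1 i (by omega) (by omega) hi
      have a2 := sle i m hi0 (by omega) (by omega)
      rw [← h] at a2
      exact le_antisymm a2 a1
  have hm2 : 2 ≤ m := by
    by_contra hcon
    have : m = 1 := by omega
    rw [this] at hends
    exact lt_irrefl _ hends
  refine ⟨m + 1, p, e, fun i => l (p i), fun i => s (p i), hcard, by omega, ?_, ?_, ?_, psurj,
    ?_, ?_, ?_, ?_, ?_⟩
  · rw [pn, p0]
  · intro i hi
    rcases Nat.eq_zero_or_pos i with h | h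
    · rw [h, p0]; exact hv
    · rcases hi.lt_or_eq with h1 | h1
      · exact Finset.mem_of_mem_erase (piQ i h h1)
      · rw [h1, pn]; exact hv
  · intro i j hi hj hij
    have inj' : ∀ i j, i < m + 1 → j < m + 1 → i < j → p i = p j → False := by
      intro i j hi hj hlt hij
      rcases Nat.eq_zero_or_pos i with h | h
      · have := piQ j (by omega) hj
        rw [← hij, h, p0] at this
        exact absurd rfl (Finset.ne_of_mem_erase this)
      · have := plt i j h hlt hj
        rw [hij] at this
        exact lt_irrefl _ this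
    rcases Nat.lt_trichotomy i j with h | h | h
    · exact (inj' i j hi hj h hij).elim
    · exact h
    · exact (inj' j i hj hi h hij.symm).elim
  · intro i h0 h1
    exact lpos _ (piQ i h0 h1)
  · intro i h0 h1
    rw [p0]; exact hfst _ (piQ i h0 h1)
  · intro i h0 h1
    rw [p0]; exact hsnd _ (piQ i h0 h1)
  · intro i j h0 h1 h2
    show s (p i) < s (p j) ∨ (s (p i) = s (p j) ∧ s (p i) < s (p (m + 1 - 1)) ∧ l (p i) < l (p j)) ∨
      (s (p i) = s (p j) ∧ s (p i) = s (p (m + 1 - 1)) ∧ l (p j) < l (p i))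
    have e1 : m + 1 - 1 = m := by omega
    rw [e1, sM]
    rcases (key_lt _ _).mp (plt i j h0 h1 h2) with h4 | ⟨h4, h5⟩
    · left; exact h4
    · right
      rw [← h4] at h5
      split_ifs at h5 with h6
      · right
        exact ⟨h4, h6, by linarith⟩
      · left
        exact ⟨h4, lt_of_le_of_ne (hM _ (piQ i h0 (by omega))) h6, h5⟩
  · show s (p 1) < s (p (m + 1 - 1))
    have e1 : m + 1 - 1 = m := by omega
    rw [e1]; exact hends

end Q165.NCS
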