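import Pool.Agent.Q165.NCS.Stm

/-! # (HULL): noncrossing in terms of the enumeration -/

namespace Q165.NCS

theorem halfspace (α β c : ℝ) : Convex ℝ {z : Pt | c ≤ α * z.1 + β * z.2} := by
  intro x hx y hy a b ha hb hab
  simp only [Set.mem_ofPred_eq, Prod.fst_add, Prod.snd_add, Prod.smul_fst, Prod.smul_snd,
    smul_eq_mul] at *
  have h1 := mul_le_mul_of_nonneg_left hx ha
  have h2 := mul_le_mul_of_nonneg_left hy hb
  have h3 : a * c + b * c = c := by rw [← add_mul, hab, one_mul]
  nlinarith

theorem hull_ge {S : Set Pt} {α β c : ℝ} (h : ∀ z ∈ S, c ≤ α * z.1 + β * z.2) {x : Pt}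
    (hx : x ∈ convexHull ℝ S) : c ≤ α * x.1 + β * x.2 :=
  convexHull_min (fun z hz => h z hz) (halfspace α β c) hx

theorem orient_ge {S : Set Pt} {q r : Pt} (h : ∀ z ∈ S, 0 ≤ orient q r z) {x : Pt}
    (hx : x ∈ convexHull ℝ S) : 0 ≤ orient q r x := by
  have h1 := hull_ge (α := -(r.2 - q.2)) (β := r.1 - q.1)
    (c := -(r.2 - q.2) * q.1 + (r.1 - q.1) * q.2) (S := S) (x := x) (fun z hz => by
      have := h z hz
      unfold orient at this
      linarith) hx
  unfold orient
  linarith

theorem orient_le {S : Set Pt} {q r : Pt} (h : ∀ z ∈ S, orient q r z ≤ 0) {x : Pt}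
    (hx : x ∈ convexHull ℝ S) : orient q r x ≤ 0 := by
  have h1 := hull_ge (α := (r.2 - q.2)) (β := -(r.1 - q.1))
    (c := (r.2 - q.2) * q.1 - (r.1 - q.1) * q.2) (S := S) (x := x) (fun z hz => by
      have := h z hz
      unfold orient at this
      linarith) hx
  unfold orient
  linarith

theorem orient_comb (q r x y : Pt) (a b : ℝ) (hab : a + b = 1) :
    orient q r (a • x + b • y) = a * orient q r x + b * orient q r y := by
  unfold orient
  simp only [Prod.fst_add, Prod.snd_add, Prod.smul_fst, Prod.smul_snd, smul_eq_mul]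
  have h1 : q.2 = a * q.2 + b * q.2 := by rw [← add_mul, hab, one_mul]
  have h2 : q.1 = a * q.1 + b * q.1 := by rw [← add_mul, hab, one_mul]
  calc _ = (r.1 - q.1) * (a * x.2 + b * y.2 - (a * q.2 + b * q.2)) -
        (r.2 - q.2) * (a * x.1 + b * y.1 - (a * q.1 + b * q.1)) := by rw [← h1, ← h2]
    _ = _ := by ring

/-- the face of the hull on which an affine functional vanishes -/
theorem face {S : Set Pt} {q r : Pt} (h : ∀ z ∈ S, 0 ≤ orient q r z) {x : Pt}
    (hx : x ∈ convexHull ℝ S) (h0 : orient q r x = 0) :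
    x ∈ convexHull ℝ (S ∩ {z | orient q r z = 0}) := by
  set T : Set Pt := {z | 0 < orient q r z} ∪ convexHull ℝ (S ∩ {z | orient q r z = 0}) with hT
  have hzero : ∀ z ∈ convexHull ℝ (S ∩ {z | orient q r z = 0}), orient q r z = 0 := by
    intro z hz
    exact le_antisymm (orient_le (fun w hw => hw.2.le) hz) (orient_ge (fun w hw => hw.2.ge) hz)
  have hconv : Convex ℝ T := by
    intro y hy z hz a b ha hb hab
    rcases ha.eq_or_lt with ha0 | ha0
    · have : b = 1 := by linarith
      rw [← ha0, this, zero_smul, one_smul, zero_add]; exact hz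
    rcases hb.eq_or_lt with hb0 | hb0
    · have : a = 1 := by linarith
      rw [← hb0, this, zero_smul, one_smul, add_zero]; exact hy
    rcases hy with hy | hy <;> rcases hz with hz | hz
    · left
      simp only [Set.mem_ofPred_eq] at *
      rw [orient_comb q r y z a b hab]
      have := mul_pos ha0 hy
      have := mul_pos hb0 hz
      linarith
    · left
      simp only [Set.mem_ofPred_eq] at *
      rw [orient_comb q r y z a b hab, hzero z hz]
      have := mul_pos ha0 hy
      linarith
    · left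
      simp only [Set.mem_ofPred_eq] at *
      rw [orient_comb q r y z a b hab, hzero y hy]
      have := mul_pos hb0 hz
      linarith
    · right
      exact (convex_convexHull ℝ _) hy hz ha hb hab
  have hsub : S ⊆ T := by
    intro z hz
    rcases (h z hz).lt_or_eq with h1 | h1
    · left; exact h1
    · right; exact subset_convexHull ℝ _ ⟨hz, h1.symm⟩
  rcases convexHull_min hsub hconv hx with h1 | h1
  · exact absurd h0 (ne_of_gt h1)
  · exact h1

/-- coordinate on the line `q r` -/
def gg (q r z : Pt) : ℝ := (z.1 - q.1) * (r.1 - q.1) + (z.2 - q.2) * (r.2 - q.2)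

theorem dpos {q r : Pt} (hqr : q ≠ r) : 0 < (r.1 - q.1) ^ 2 + (r.2 - q.2) ^ 2 := by
  rcases eq_or_ne r.1 q.1 with h1 | h1
  · have h2 : r.2 ≠ q.2 := fun h2 => hqr (Prod.ext h1.symm h2.symm)
    have : 0 < (r.2 - q.2) ^ 2 := by
      have := sub_ne_zero.mpr h2
      positivity
    nlinarith [sq_nonneg (r.1 - q.1)]
  · have : 0 < (r.1 - q.1) ^ 2 := by
      have := sub_ne_zero.mpr h1
      positivity
    nlinarith [sq_nonneg (r.2 - q.2)]

theorem on_line {q r z : Pt} (hz : orient q r z = 0) :
    ((r.1 - q.1) ^ 2 + (r.2 - q.2) ^ 2) * (z.1 - q.1) = gg q r z * (r.1 - q.1) ∧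
    ((r.1 - q.1) ^ 2 + (r.2 - q.2) ^ 2) * (z.2 - q.2) = gg q r z * (r.2 - q.2) := by
  unfold orient at hz
  unfold gg
  constructor
  · linear_combination (-(r.2 - q.2)) * hz
  · linear_combination (r.1 - q.1) * hz

theorem line_seg {q r x y z : Pt} (hqr : q ≠ r) (hx : orient q r x = 0) (hy : orient q r y = 0)
    (hz : orient q r z = 0) (h1 : gg q r x ≤ gg q r y) (h2 : gg q r y ≤ gg q r z) :
    y ∈ segment ℝ x z := by
  have hD := dpos hqr
  set D := (r.1 - q.1) ^ 2 + (r.2 - q.2) ^ 2 with hDdef
  obtain ⟨x1, x2⟩ := on_line hx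
  obtain ⟨y1, y2⟩ := on_line hy
  obtain ⟨z1, z2⟩ := on_line hz
  rw [← hDdef] at x1 x2 y1 y2 z1 z2
  rcases (h1.trans h2).eq_or_lt with h3 | h3
  · have h4 : gg q r y = gg q r x := le_antisymm (by rw [h3]; exact h2) h1
    have e1 : y = x := by
      apply Prod.ext
      · have : D * (y.1 - q.1) = D * (x.1 - q.1) := by rw [x1, y1, h4]
        have := mul_left_cancel₀ hD.ne' this
        linarith
      · have : D * (y.2 - q.2) = D * (x.2 - q.2) := by rw [x2, y2, h4]
        have := mul_left_cancel₀ hD.ne' this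
        linarith
    rw [e1]
    exact left_mem_segment ℝ x z
  · rw [segment_eq_image']
    have hpos : 0 < gg q r z - gg q r x := by linarith
    refine ⟨(gg q r y - gg q r x) / (gg q r z - gg q r x),
      ⟨div_nonneg (by linarith) hpos.le, by rw [div_le_one hpos]; linarith⟩, ?_⟩
    apply Prod.ext
    · simp only [Prod.fst_add, Prod.smul_fst, Prod.fst_sub, smul_eq_mul]
      have : D * ((gg q r z - gg q r x) * (y.1 - x.1)) =
          D * ((gg q r y - gg q r x) * (z.1 - x.1)) := by
        linear_combination (gg q r z - gg q r x) * (y1 - x1) - (gg q r y - gg q r x) * (z1 - x1)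
      have := mul_left_cancel₀ hD.ne' this
      rw [div_mul_eq_mul_div, ← this]
      field_simp
      ring
    · simp only [Prod.snd_add, Prod.smul_snd, Prod.snd_sub, smul_eq_mul]
      have : D * ((gg q r z - gg q r x) * (y.2 - x.2)) =
          D * ((gg q r y - gg q r x) * (z.2 - x.2)) := by
        linear_combination (gg q r z - gg q r x) * (y2 - x2) - (gg q r y - gg q r x) * (z2 - x2)
      have := mul_left_cancel₀ hD.ne' this
      rw [div_mul_eq_mul_div, ← this]
      field_simp
      ring

/-- the separation lemma -/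
theorem sep {P : Finset Pt} {π : Finpartition P}
    (hI : ∀ B ∈ π.parts, ∀ x ∈ B, ∀ z ∈ B, ∀ y ∈ P, y ∈ segment ℝ x z → y ∈ B)
    {B C : Finset Pt} (hB : B ∈ π.parts) (hC : C ∈ π.parts) (hBC : B ≠ C) {q r : Pt}
    (hqr : q ≠ r) (h1 : ∀ z ∈ B, 0 ≤ orient q r z) (h2 : ∀ z ∈ C, orient q r z ≤ 0) :
    Disjoint (convexHull ℝ (B : Set Pt)) (convexHull ℝ (C : Set Pt)) := by
  classical
  rw [Set.disjoint_left]
  intro x hxB hxC
  have f1 := orient_ge (S := (B : Set Pt)) (q := q) (r := r) (fun z hz => h1 z hz) hxB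
  have f2 := orient_le (S := (C : Set Pt)) (q := q) (r := r) (fun z hz => h2 z hz) hxC
  have f0 : orient q r x = 0 := le_antisymm f2 f1
  have gB := face (S := (B : Set Pt)) (q := q) (r := r) (fun z hz => h1 z hz) hxB f0
  have sw : ∀ z, orient r q z = - orient q r z := by intro z; unfold orient; ring
  have gC := face (S := (C : Set Pt)) (q := r) (r := q) (fun z hz => by
    rw [sw]; have := h2 z hz; linarith) hxC (by rw [sw, f0, neg_zero])
  have gC' : x ∈ convexHull ℝ ((C : Set Pt) ∩ {z | orient q r z = 0}) := by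
    have : ((C : Set Pt) ∩ {z | orient r q z = 0}) = ((C : Set Pt) ∩ {z | orient q r z = 0}) := by
      ext z
      simp only [Set.mem_inter_iff, Set.mem_ofPred_eq, sw, neg_eq_zero]
    rwa [this] at gC
  -- extreme points on the line
  have ext : ∀ S : Finset Pt, x ∈ convexHull ℝ ((S : Set Pt) ∩ {z | orient q r z = 0}) →
      ∃ a ∈ S, ∃ b ∈ S, orient q r a = 0 ∧ orient q r b = 0 ∧
        gg q r a ≤ gg q r x ∧ gg q r x ≤ gg q r b := by
    intro S hS
    have hne : (S.filter (fun z => orient q r z = 0)).Nonempty := by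
      by_contra hcon
      rw [Finset.not_nonempty_iff_eq_empty] at hcon
      have : ((S : Set Pt) ∩ {z | orient q r z = 0}) = ∅ := by
        ext z
        simp only [Set.mem_inter_iff, Finset.mem_coe, Set.mem_ofPred_eq, Set.mem_empty_iff_false,
          iff_false]
        intro hz
        have : z ∈ S.filter (fun z => orient q r z = 0) := Finset.mem_filter.mpr hz
        rw [hcon] at this
        exact absurd this (Finset.notMem_empty _)
      rw [this, convexHull_empty] at hS
      exact hS
    obtain ⟨a, ha, ha'⟩ := Finset.exists_min_image _ (gg q r) hne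
    obtain ⟨b, hb, hb'⟩ := Finset.exists_max_image _ (gg q r) hne
    rw [Finset.mem_filter] at ha hb
    refine ⟨a, ha.1, b, hb.1, ha.2, hb.2, ?_, ?_⟩
    · have := hull_ge (α := r.1 - q.1) (β := r.2 - q.2)
        (c := gg q r a + (q.1 * (r.1 - q.1) + q.2 * (r.2 - q.2)))
        (S := (S : Set Pt) ∩ {z | orient q r z = 0}) (x := x) (fun z hz => by
          have := ha' z (Finset.mem_filter.mpr hz)
          have e : gg q r z = (r.1 - q.1) * z.1 + (r.2 - q.2) * z.2 -
            (q.1 * (r.1 - q.1) + q.2 * (r.2 - q.2)) := by unfold gg; ring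
          linarith) hS
      have e : gg q r x = (r.1 - q.1) * x.1 + (r.2 - q.2) * x.2 -
            (q.1 * (r.1 - q.1) + q.2 * (r.2 - q.2)) := by unfold gg; ring
      linarith
    · have := hull_ge (α := -(r.1 - q.1)) (β := -(r.2 - q.2))
        (c := -gg q r b - (q.1 * (r.1 - q.1) + q.2 * (r.2 - q.2)))
        (S := (S : Set Pt) ∩ {z | orient q r z = 0}) (x := x) (fun z hz => by
          have := hb' z (Finset.mem_filter.mpr hz)
          have e : gg q r z = (r.1 - q.1) * z.1 + (r.2 - q.2) * z.2 -
            (q.1 * (r.1 - q.1) + q.2 * (r.2 - q.2)) := by unfold gg; ring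
          linarith) hS
      have e : gg q r x = (r.1 - q.1) * x.1 + (r.2 - q.2) * x.2 -
            (q.1 * (r.1 - q.1) + q.2 * (r.2 - q.2)) := by unfold gg; ring
      linarith
  obtain ⟨b1, hb1, b2, hb2, ob1, ob2, gb1, gb2⟩ := ext B gB
  obtain ⟨c1, hc1, c2, hc2, oc1, oc2, gc1, gc2⟩ := ext C gC'
  have disj : ∀ z, z ∈ B → z ∈ C → False := fun z hz1 hz2 =>
    hBC (π.eq_of_mem_parts hB hC hz1 hz2)
  rcases le_total (gg q r b1) (gg q r c1) with h | h
  · have : c1 ∈ segment ℝ b1 b2 := line_seg hqr ob1 oc1 ob2 h (gc1.trans gb2)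
    exact disj c1 (hI B hB b1 hb1 b2 hb2 c1 (π.le hC hc1) this) hc1
  · have : b1 ∈ segment ℝ c1 c2 := line_seg hqr oc1 ob1 oc2 h (gb1.trans gc2)
    exact disj b1 hb1 (hI C hC c1 hc1 c2 hc2 b1 (π.le hB hb1) this)

theorem anti_right {x y z : Pt} (h1 : y ∈ segment ℝ x z) (h2 : z ∈ segment ℝ x y) : y = z :=
  (wbtw_swap_right_iff ℝ x).mp ⟨mem_segment_iff_wbtw.mp h1, mem_segment_iff_wbtw.mp h2⟩

theorem seg_symm {x y z : Pt} (h : y ∈ segment ℝ x z) : y ∈ segment ℝ z x := by
  rw [segment_symm]; exact h

theorem orient_seg {x y z : Pt} (h : y ∈ segment ℝ x z) : orient x y z = 0 := by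
  rw [segment_eq_image'] at h
  obtain ⟨θ, _, rfl⟩ := h
  unfold orient
  simp only [Prod.fst_add, Prod.smul_fst, Prod.fst_sub, smul_eq_mul, Prod.snd_add, Prod.smul_snd,
    Prod.snd_sub]
  ring

section
variable {P : Finset Pt} {n : ℕ} {p : ℕ → Pt} {cor : ℕ → Prop} {π : Finpartition P}

theorem meet (hN : Noncrossing P π) {a b c d : ℕ} (h1 : RelOf P π p a c) (h2 : RelOf P π p b d)
    {z : Pt} (hz1 : z ∈ segment ℝ (p a) (p c)) (hz2 : z ∈ segment ℝ (p b) (p d)) :
    RelOf P π p a b := by
  obtain ⟨B, hB, ha, hc⟩ := h1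
  obtain ⟨C, hC, hb, hd⟩ := h2
  have : B = C := by
    by_contra hne
    exact Set.disjoint_left.mp (hN B hB C hC hne)
      (segment_subset_convexHull (by exact_mod_cast ha) (by exact_mod_cast hc) hz1)
      (segment_subset_convexHull (by exact_mod_cast hb) (by exact_mod_cast hd) hz2)
  subst this
  exact ⟨B, hB, ha, hb⟩

theorem rel_refl (hE : Enum P n p cor) {i : ℕ} (hi : i ≤ n) : RelOf P π p i i :=
  ⟨π.part (p i), π.part_mem.mpr (hE.mem i hi), π.mem_part (hE.mem i hi), π.mem_part (hE.mem i hi)⟩

theorem rel_symm {i j : ℕ} (h : RelOf P π p i j) : RelOf P π p j i := by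
  obtain ⟨B, hB, h1, h2⟩ := h
  exact ⟨B, hB, h2, h1⟩

theorem rel_trans {i j k : ℕ} (h : RelOf P π p i j) (h' : RelOf P π p j k) : RelOf P π p i k := by
  obtain ⟨B, hB, h1, h2⟩ := h
  obtain ⟨C, hC, h3, h4⟩ := h'
  have := π.eq_of_mem_parts hB hC h2 h3
  subst this
  exact ⟨B, hB, h1, h4⟩

theorem rel_zn (hE : Enum P n p cor) : RelOf P π p 0 n := by
  obtain ⟨B, hB, h1, h2⟩ := rel_refl (π := π) hE (Nat.zero_le n)
  exact ⟨B, hB, h1, by rw [hE.closed]; exact h1⟩

theorem crossd (hE : Enum P n p cor) (hN : Noncrossing P π) {a b c d : ℕ} (hab : a < b)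
    (hbc : b < c) (hcd : c < d) (hd : d < n) (h1 : RelOf P π p a c) (h2 : RelOf P π p b d) :
    RelOf P π p a b := by
  have A1 := hE.left b c d hbc hcd hd.le
  have A2 := hE.left a c d (by omega) hcd hd.le
  have A3 := hE.left a b d hab (by omega) hd.le
  have A4 := hE.left a b c hab hbc (by omega)
  have hsum : orient (p b) (p c) (p d) + orient (p a) (p b) (p d) =
      orient (p a) (p c) (p d) + orient (p a) (p b) (p c) := by unfold orient; ring
  have e1 : orient (p b) (p c) (p d) * (p a).1 + orient (p a) (p b) (p d) * (p c).1 =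
      orient (p a) (p c) (p d) * (p b).1 + orient (p a) (p b) (p c) * (p d).1 := by
    unfold orient; ring
  have e2 : orient (p b) (p c) (p d) * (p a).2 + orient (p a) (p b) (p d) * (p c).2 =
      orient (p a) (p c) (p d) * (p b).2 + orient (p a) (p b) (p c) * (p d).2 := by
    unfold orient; ring
  set a1 := orient (p b) (p c) (p d)
  set a2 := orient (p a) (p c) (p d)
  set a3 := orient (p a) (p b) (p d)
  set a4 := orient (p a) (p b) (p c)
  rcases (add_nonneg A1 A3).lt_or_eq with hS | hS
  · have z1 : (a1 / (a1 + a3)) • p a + (a3 / (a1 + a3)) • p c ∈ segment ℝ (p a) (p c) :=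
      ⟨a1 / (a1 + a3), a3 / (a1 + a3), by positivity, by positivity,
        by rw [← add_div]; exact div_self hS.ne', rfl⟩
    have z2 : (a1 / (a1 + a3)) • p a + (a3 / (a1 + a3)) • p c ∈ segment ℝ (p b) (p d) := by
      refine ⟨a2 / (a1 + a3), a4 / (a1 + a3), by positivity, by positivity,
        by rw [← add_div, ← hsum]; exact div_self hS.ne', ?_⟩
      apply Prod.ext
      · simp only [Prod.fst_add, Prod.smul_fst, smul_eq_mul]
        field_simp
        linarith
      · simp only [Prod.snd_add, Prod.smul_snd, smul_eq_mul]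
        field_simp
        linarith
    exact meet hN h1 h2 z1 z2
  · have h4 : a4 = 0 := by linarith
    rcases hE.col a b c hab hbc (by omega) h4 with hA | ⟨rfl, hB⟩
    · exact meet hN h1 h2 (hE.btw a b c hab hbc (by omega) hA) (left_mem_segment ℝ _ _)
    · exact meet hN h1 h2 (right_mem_segment ℝ _ _)
        (hE.btw b c d hbc hcd hd.le (fun l l1 l2 => hB l l1 (by omega)))

theorem to_rel (hE : Enum P n p cor) (hN : Noncrossing P π) : NCRel n cor (RelOf P π p) := by
  refine ⟨fun i hi => rel_refl hE hi, fun i j _ _ => rel_symm, fun i j k _ _ _ => rel_trans,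
    rel_zn hE, ?_, ?_⟩
  · intro a b c d hab hbc hcd hd h1 h2
    rcases hd.lt_or_eq with hd' | hd'
    · exact crossd hE hN hab hbc hcd hd' h1 h2
    · subst hd'
      have h0 : RelOf P π p 0 b := rel_trans (rel_zn hE) (rel_symm h2)
      rcases Nat.eq_zero_or_pos a with rfl | ha
      · exact h0
      · have h3 := crossd hE hN ha hab hbc hcd h0 h1
        exact rel_trans (rel_symm h3) h0
  · intro a b c hab hbc hc hcor h1
    exact meet hN h1 (rel_refl hE (by omega : b ≤ n)) (hE.btw a b c hab hbc hc hcor)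
      (left_mem_segment ℝ _ _)

theorem interval (hE : Enum P n p cor) (hR : NCRel n cor (RelOf P π p)) :
    ∀ B ∈ π.parts, ∀ x ∈ B, ∀ z ∈ B, ∀ y ∈ P, y ∈ segment ℝ x z → y ∈ B := by
  -- version with sorted outer indices
  have main : ∀ B ∈ π.parts, ∀ i j k, i < n → j < n → k < n → i < k → p i ∈ B → p k ∈ B →
      p j ∈ segment ℝ (p i) (p k) → p j ∈ B := by
    intro B hB i j k hi hj hk hik hxi hxk hy
    have hrel : RelOf P π p i k := ⟨B, hB, hxi, hxk⟩
    have done : RelOf P π p i j → p j ∈ B := by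
      rintro ⟨C, hC, h1, h2⟩
      rw [π.eq_of_mem_parts hB hC hxi h1]
      exact h2
    rcases Nat.lt_trichotomy i j with h1 | h1 | h1
    · rcases Nat.lt_trichotomy j k with h2 | h2 | h2
      · have h0 := orient_seg hy
        rcases hE.col i j k h1 h2 hk h0 with hA | ⟨rfl, hB'⟩
        · exact done (hR.side i j k h1 h2 hk.le hA hrel)
        · have h3 := hE.btw j k n h2 hk le_rfl hB'
          rw [hE.closed] at h3
          have := anti_right hy (seg_symm h3)
          have := hE.inj j k hj hk this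
          omega
      · rw [h2]; exact hxk
      · have h0 : orient (p i) (p k) (p j) = 0 := by
          have := orient_seg hy
          unfold orient at this ⊢
          linarith
        rcases hE.col i k j hik h2 hj h0 with hA | ⟨rfl, hB'⟩
        · have h3 := hE.btw i k j hik h2 hj.le hA
          have := anti_right hy h3
          have := hE.inj j k hj hk this
          omega
        · have h3 : RelOf P π p k n := rel_trans (rel_symm hrel) (rel_zn hE)
          have h4 := hR.side k j n h2 hj le_rfl hB' h3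
          exact done (rel_trans hrel h4)
    · rw [← h1]; exact hxi
    · have h0 : orient (p j) (p i) (p k) = 0 := by
        have := orient_seg hy
        unfold orient at this ⊢
        linarith
      rcases hE.col j i k h1 hik hk h0 with hA | ⟨rfl, hB'⟩
      · have h3 := hE.btw j i k h1 hik hk.le hA
        have := anti_right (seg_symm hy) (seg_symm h3)
        have := hE.inj j i hj hi this
        omega
      · have h3 := hE.btw i k n hik hk le_rfl hB'
        rw [hE.closed] at h3
        have := anti_right hy h3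
        have := hE.inj 0 k hj hk this
        omega
  intro B hB x hx z hz y hy hseg
  obtain ⟨i, hi, rfl⟩ := hE.surj x (π.le hB hx)
  obtain ⟨k, hk, rfl⟩ := hE.surj z (π.le hB hz)
  obtain ⟨j, hj, rfl⟩ := hE.surj y hy
  rcases Nat.lt_trichotomy i k with h1 | h1 | h1
  · exact main B hB i j k hi hj hk h1 hx hz hseg
  · subst h1
    rw [segment_same, Set.mem_singleton_iff] at hseg
    rw [hseg]; exact hx
  · exact main B hB k j i hk hj hi h1 hz hx (seg_symm hseg)

/-- the separating line -/
theorem sepline (hE : Enum P n p cor) (hR : NCRel n cor (RelOf P π p)) {B C : Finset Pt}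
    (hB : B ∈ π.parts) (hC : C ∈ π.parts) (hBC : B ≠ C) {x y : Pt} (hx : x ∈ B) (hy : y ∈ B)
    (hxy : x ≠ y) : ∃ q r : Pt, q ≠ r ∧ (∀ z ∈ B, 0 ≤ orient q r z) ∧ ∀ z ∈ C, orient q r z ≤ 0 := by
  classical
  have disj : ∀ i, p i ∈ B → p i ∈ C → False := fun i hz1 hz2 =>
    hBC (π.eq_of_mem_parts hB hC hz1 hz2)
  have same : ∀ i j, RelOf P π p i j → p i ∈ B → p j ∈ C → False := by
    rintro i j ⟨D, hD, h1, h2⟩ h3 h4
    have e1 := π.eq_of_mem_parts hB hD h3 h1
    have e2 := π.eq_of_mem_parts hC hD h4 h2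
    exact hBC (e1.trans e2.symm)
  have relB : ∀ i j, p i ∈ B → p j ∈ B → RelOf P π p i j := fun i j h1 h2 => ⟨B, hB, h1, h2⟩
  have relC : ∀ i j, p i ∈ C → p j ∈ C → RelOf P π p i j := fun i j h1 h2 => ⟨C, hC, h1, h2⟩
  obtain ⟨w, hw⟩ := π.nonempty_of_mem_parts hC
  obtain ⟨c0, hc0, rfl⟩ := hE.surj w (π.le hC hw)
  obtain ⟨ix, hix, rfl⟩ := hE.surj x (π.le hB hx)
  obtain ⟨iy, hiy, rfl⟩ := hE.surj y (π.le hB hy)
  have hixy : ix ≠ iy := fun hh => hxy (by rw [hh])
  set lo := (Finset.range c0).filter (fun i => p i ∈ B) with hlo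
  set up := (Finset.Ioc c0 n).filter (fun i => p i ∈ B) with hup
  have mlo : ∀ i, i ∈ lo ↔ i < c0 ∧ p i ∈ B := fun i => by
    rw [hlo, Finset.mem_filter, Finset.mem_range]
  have mup : ∀ i, i ∈ up ↔ (c0 < i ∧ i ≤ n) ∧ p i ∈ B := fun i => by
    rw [hup, Finset.mem_filter, Finset.mem_Ioc]
  have bz : p 0 ∈ B ↔ p n ∈ B := by rw [hE.closed]
  have bc0 : ∀ i, p i ∈ B → i ≠ c0 := fun i hi hh => disj i hi (by rw [hh]; exact hw)
  by_cases hcase : lo.Nonempty ∧ up.Nonempty
  · obtain ⟨h1, h2⟩ := hcase
    set u := lo.max' h1 with hu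
    set v := up.min' h2 with hv
    obtain ⟨u1, u2⟩ := (mlo u).mp (lo.max'_mem h1)
    obtain ⟨⟨v1, v2⟩, v3⟩ := (mup v).mp (up.min'_mem h2)
    have umax : ∀ i, i < c0 → p i ∈ B → i ≤ u := fun i h3 h4 => lo.le_max' i ((mlo i).mpr ⟨h3, h4⟩)
    have vmin : ∀ i, c0 < i → i ≤ n → p i ∈ B → v ≤ i := fun i h3 h3' h4 =>
      up.min'_le i ((mup i).mpr ⟨⟨h3, h3'⟩, h4⟩)
    have hne : p u ≠ p v := by
      intro hh
      have hv' : v = n := by
        by_contra hcon
        have := hE.inj u v (by omega) (by omega) hh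
        omega
      have hu' : u = 0 := by
        rw [hv', hE.closed] at hh
        exact hE.inj u 0 (by omega) (by have := hE.pos; omega) hh
      have key : ∀ i, i < n → p i ∈ B → i = 0 := by
        intro i hi hiB
        rcases Nat.lt_trichotomy i c0 with h5 | h5 | h5
        · have := umax i h5 hiB; omega
        · exact absurd h5 (bc0 i hiB)
        · have := vmin i h5 hi.le hiB; omega
      exact hixy ((key ix hix hx).trans (key iy hiy hy).symm)
    have inC : ∀ c, c < n → p c ∈ C → u < c ∧ c < v := by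
      intro c hc hcC
      have huc : c ≠ u := fun hh => disj u u2 (by rw [← hh]; exact hcC)
      have hvc : c ≠ v := fun hh => disj v v3 (by rw [← hh]; exact hcC)
      constructor
      · by_contra hcon
        have hlt : c < u := by omega
        exact same u c (rel_symm (hR.cross c u c0 v hlt u1 v1 v2 (relC c c0 hcC hw)
          (relB u v u2 v3))) u2 hcC
      · by_contra hcon
        have hlt : v < c := by omega
        exact same u c0 (hR.cross u c0 v c u1 v1 hlt hc.le (relB u v u2 v3) (relC c0 c hw hcC))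
          u2 hw
    refine ⟨p u, p v, hne, ?_, ?_⟩
    · intro z hz
      obtain ⟨b, hb, rfl⟩ := hE.surj z (π.le hB hz)
      have hb' : b ≤ u ∨ v ≤ b := by
        rcases Nat.lt_trichotomy b c0 with h5 | h5 | h5
        · left; exact umax b h5 hz
        · exact absurd h5 (bc0 b hz)
        · right; exact vmin b h5 hb.le hz
      rcases hb' with hb' | hb'
      · rcases hb'.lt_or_eq with h6 | h6
        · have := hE.left b u v h6 (by omega) v2
          have e : orient (p u) (p v) (p b) = orient (p b) (p u) (p v) := by unfold orient; ring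
          rw [e]; exact this
        · rw [h6]
          have e : orient (p u) (p v) (p u) = 0 := by unfold orient; ring
          rw [e]
      · rcases hb'.lt_or_eq with h6 | h6
        · exact hE.left u v b (by omega) h6 hb.le
        · rw [← h6]
          have e : orient (p u) (p v) (p v) = 0 := by unfold orient; ring
          rw [e]
    · intro z hz
      obtain ⟨c, hc, rfl⟩ := hE.surj z (π.le hC hz)
      obtain ⟨h5, h6⟩ := inC c hc hz
      have := hE.left u c v h5 h6 v2
      have e : orient (p u) (p v) (p c) = - orient (p u) (p c) (p v) := by unfold orient; ring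
      rw [e]; linarith
  · -- all of B on one side of c0
    have hB0 : ∀ i, i ≤ n → p i ∈ B → 0 < i ∧ i < n := by
      intro i hi hiB
      have h0 : p 0 ∉ B := by
        intro h0
        apply hcase
        have hne0 : 0 ≠ c0 := bc0 0 h0
        exact ⟨⟨0, (mlo 0).mpr ⟨by omega, h0⟩⟩, ⟨n, (mup n).mpr ⟨⟨hc0, le_rfl⟩, bz.mp h0⟩⟩⟩
      constructor
      · rcases Nat.eq_zero_or_pos i with rfl | h
        · exact absurd hiB h0
        · exact h
      · rcases hi.lt_or_eq with h | h
        · exact h
        · rw [h, hE.closed] at hiB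
          exact absurd hiB h0
    set all := (Finset.range n).filter (fun i => p i ∈ B) with hall
    have mall : ∀ i, i ∈ all ↔ i < n ∧ p i ∈ B := fun i => by
      rw [hall, Finset.mem_filter, Finset.mem_range]
    have hne : all.Nonempty := ⟨ix, (mall ix).mpr ⟨hix, hx⟩⟩
    set u := all.min' hne with hu
    set v := all.max' hne with hv
    obtain ⟨u1, u2⟩ := (mall u).mp (all.min'_mem hne)
    obtain ⟨v1, v2⟩ := (mall v).mp (all.max'_mem hne)
    have umin : ∀ i, i < n → p i ∈ B → u ≤ i := fun i h3 h4 => all.min'_le i ((mall i).mpr ⟨h3, h4⟩)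
    have vmax : ∀ i, i < n → p i ∈ B → i ≤ v := fun i h3 h4 => all.le_max' i ((mall i).mpr ⟨h3, h4⟩)
    have huv : u < v := by
      have a1 := umin ix hix hx
      have a2 := umin iy hiy hy
      have a3 := vmax ix hix hx
      have a4 := vmax iy hiy hy
      omega
    have hside : c0 < u ∨ v < c0 := by
      by_contra hcon
      push Not at hcon
      apply hcase
      have a1 : u ≠ c0 := bc0 u u2
      have a2 : v ≠ c0 := bc0 v v2
      exact ⟨⟨u, (mlo u).mpr ⟨by omega, u2⟩⟩, ⟨v, (mup v).mpr ⟨⟨by omega, v1.le⟩, v2⟩⟩⟩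
    have outC : ∀ c, c < n → p c ∈ C → c < u ∨ v < c := by
      intro c hc hcC
      have huc : c ≠ u := fun hh => disj u u2 (by rw [← hh]; exact hcC)
      have hvc : c ≠ v := fun hh => disj v v2 (by rw [← hh]; exact hcC)
      by_contra hcon
      push Not at hcon
      rcases hside with h5 | h5
      · exact same u c0 (rel_symm (hR.cross c0 u c v h5 (by omega) (by omega) v1.le
          (relC c0 c hw hcC) (relB u v u2 v2))) u2 hw
      · exact same u c (hR.cross u c v c0 (by omega) (by omega) h5 hc0.le (relB u v u2 v2)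
          (relC c c0 hcC hw)) u2 hcC
    refine ⟨p v, p u, fun hh => by
      have := hE.inj v u v1 u1 hh
      omega, ?_, ?_⟩
    · intro z hz
      obtain ⟨b, hb, rfl⟩ := hE.surj z (π.le hB hz)
      have b1 := umin b hb hz
      have b2 := vmax b hb hz
      rcases b1.lt_or_eq with h6 | h6
      · rcases b2.lt_or_eq with h7 | h7
        · have := hE.left u b v h6 h7 v1.le
          have e : orient (p v) (p u) (p b) = orient (p u) (p b) (p v) := by unfold orient; ring
          rw [e]; exact this
        · rw [h7]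
          have e : orient (p v) (p u) (p v) = 0 := by unfold orient; ring
          rw [e]
      · rw [← h6]
        have e : orient (p v) (p u) (p u) = 0 := by unfold orient; ring
        rw [e]
    · intro z hz
      obtain ⟨c, hc, rfl⟩ := hE.surj z (π.le hC hz)
      rcases outC c hc hz with h5 | h5
      · have := hE.left c u v h5 huv v1.le
        have e : orient (p v) (p u) (p c) = - orient (p c) (p u) (p v) := by unfold orient; ring
        rw [e]; linarith
      · have := hE.left u v c huv h5 hc.le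
        have e : orient (p v) (p u) (p c) = - orient (p u) (p v) (p c) := by unfold orient; ring
        rw [e]; linarith

theorem from_rel (hE : Enum P n p cor) (hR : NCRel n cor (RelOf P π p)) : Noncrossing P π := by
  intro B hB C hC hBC
  have hI := interval hE hR
  by_cases h1 : ∃ x ∈ B, ∃ y ∈ B, x ≠ y
  · obtain ⟨x, hx, y, hy, hxy⟩ := h1
    obtain ⟨q, r, hqr, h2, h3⟩ := sepline hE hR hB hC hBC hx hy hxy
    exact sep hI hB hC hBC hqr h2 h3
  · by_cases h2 : ∃ x ∈ C, ∃ y ∈ C, x ≠ y
    · obtain ⟨x, hx, y, hy, hxy⟩ := h2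
      obtain ⟨q, r, hqr, h2, h3⟩ := sepline hE hR hC hB hBC.symm hx hy hxy
      exact (sep hI hC hB hBC.symm hqr h2 h3).symm
    · push Not at h1 h2
      obtain ⟨b, hb⟩ := π.nonempty_of_mem_parts hB
      obtain ⟨c, hc⟩ := π.nonempty_of_mem_parts hC
      have e1 : (B : Set Pt) = {b} := by
        ext z
        simp only [Finset.mem_coe, Set.mem_singleton_iff]
        exact ⟨fun hz => h1 z hz b hb, fun hz => by rw [hz]; exact hb⟩
      have e2 : (C : Set Pt) = {c} := by
        ext z
        simp only [Finset.mem_coe, Set.mem_singleton_iff]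
        exact ⟨fun hz => h2 z hz c hc, fun hz => by rw [hz]; exact hc⟩
      rw [e1, e2, convexHull_singleton, convexHull_singleton, Set.disjoint_singleton]
      rintro rfl
      exact hBC (π.eq_of_mem_parts hB hC hb hc)

end

theorem hull : S_HULL := fun _ _ _ _ hE _ => ⟨to_rel hE, from_rel hE⟩

end Q165.NCS
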