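import Pool.Agent.Q165.NCS.Stm

/-! # (PART): partitions and height functions -/

namespace Q165.NCS

theorem relOf_iff_part {P : Finset Pt} {π : Finpartition P} {p : ℕ → Pt} {i j : ℕ} :
    RelOf P π p i j ↔ p i ∈ π.part (p j) := by
  unfold RelOf
  rw [Finpartition.mem_part_iff_exists]

theorem ncrel_congr {n : ℕ} {cor : ℕ → Prop} {R R' : ℕ → ℕ → Prop}
    (h : ∀ i j, i ≤ n → j ≤ n → (R i j ↔ R' i j)) (hR : NCRel n cor R) : NCRel n cor R' := by
  refine ⟨?_, ?_, ?_, ?_, ?_, ?_⟩
  · intro i hi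
    exact (h i i hi hi).mp (hR.refl i hi)
  · intro i j hi hj hh
    exact (h j i hj hi).mp (hR.symm i j hi hj ((h i j hi hj).mpr hh))
  · intro i j k hi hj hk h1 h2
    exact (h i k hi hk).mp (hR.trans i j k hi hj hk ((h i j hi hj).mpr h1) ((h j k hj hk).mpr h2))
  · exact (h 0 n (Nat.zero_le _) le_rfl).mp hR.zero_n
  · intro a b c d hab hbc hcd hd h1 h2
    exact (h a b (by omega) (by omega)).mp (hR.cross a b c d hab hbc hcd hd
      ((h a c (by omega) (by omega)).mpr h1) ((h b d (by omega) hd).mpr h2))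
  · intro a b c hab hbc hc hcor h1
    exact (h a b (by omega) (by omega)).mp (hR.side a b c hab hbc hc hcor
      ((h a c (by omega) hc).mpr h1))

theorem card_parts (h4 : S_REL4) {P : Finset Pt} {n : ℕ} {p : ℕ → Pt} {cor : ℕ → Prop}
    (hE : Enum P n p cor) (π : Finpartition P) (h : ℕ → ℕ) (hG : Good n cor h)
    (hr : ∀ i j, i ≤ n → j ≤ n → (RelOf P π p i j ↔ HRel h i j)) :
    π.parts.card = push n h + 1 := by
  classical
  rw [← h4 n cor h hG]
  symm
  apply Finset.card_bij (fun i _ => π.part (p i))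
  · intro i hi
    rw [Finset.mem_filter, Finset.mem_range] at hi
    exact π.part_mem.mpr (hE.mem i (by omega))
  · intro i hi j hj hij
    rw [Finset.mem_filter, Finset.mem_range] at hi hj
    have hR : RelOf P π p i j := by
      rw [relOf_iff_part, ← hij]
      exact π.mem_part (hE.mem i (by omega))
    have hR' : RelOf P π p j i := by
      rw [relOf_iff_part, hij]
      exact π.mem_part (hE.mem j (by omega))
    rcases Nat.lt_trichotomy i j with hlt | heq | hgt
    · exact absurd ((hr i j (by omega) (by omega)).mp hR) (hj.2 i hlt)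
    · exact heq
    · exact absurd ((hr j i (by omega) (by omega)).mp hR') (hi.2 j hgt)
  · intro B hB
    obtain ⟨x, hx⟩ := π.nonempty_of_mem_parts hB
    obtain ⟨i, hi, rfl⟩ := hE.surj x (π.le hB hx)
    have hex : ∃ i, i ≤ n ∧ p i ∈ B := ⟨i, hi.le, hx⟩
    obtain ⟨q1, q2⟩ := Nat.find_spec hex
    refine ⟨Nat.find hex, ?_, π.part_eq_of_mem hB q2⟩
    rw [Finset.mem_filter, Finset.mem_range]
    refine ⟨by omega, fun i' hi' hc => ?_⟩
    have h1 := (hr i' (Nat.find hex) (by omega) q1).mpr hc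
    rw [relOf_iff_part, π.part_eq_of_mem hB q2] at h1
    exact Nat.find_min hex hi' ⟨by omega, h1⟩

theorem part_unique {P : Finset Pt} {n : ℕ} {p : ℕ → Pt} {cor : ℕ → Prop}
    (hE : Enum P n p cor) (π π' : Finpartition P)
    (hr : ∀ i j, i ≤ n → j ≤ n → (RelOf P π p i j ↔ RelOf P π' p i j)) : π = π' := by
  have hpart : ∀ x ∈ P, π.part x = π'.part x := by
    intro x hx
    obtain ⟨j, hj, rfl⟩ := hE.surj x hx
    ext y
    constructor
    · intro hy
      have hyP := π.part_subset _ hy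
      obtain ⟨i, hi, rfl⟩ := hE.surj y hyP
      exact relOf_iff_part.mp ((hr i j hi.le hj.le).mp (relOf_iff_part.mpr hy))
    · intro hy
      have hyP := π'.part_subset _ hy
      obtain ⟨i, hi, rfl⟩ := hE.surj y hyP
      exact relOf_iff_part.mp ((hr i j hi.le hj.le).mpr (relOf_iff_part.mpr hy))
  ext B
  constructor
  · intro hB
    obtain ⟨x, hx⟩ := π.nonempty_of_mem_parts hB
    have hxP := π.le hB hx
    rw [← π.part_eq_of_mem hB hx, hpart x hxP]
    exact π'.part_mem.mpr hxP
  · intro hB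
    obtain ⟨x, hx⟩ := π'.nonempty_of_mem_parts hB
    have hxP := π'.le hB hx
    rw [← π'.part_eq_of_mem hB hx, ← hpart x hxP]
    exact π.part_mem.mpr hxP

theorem exists_part (h2 : S_REL2) {P : Finset Pt} {n : ℕ} {p : ℕ → Pt} {cor : ℕ → Prop}
    (hE : Enum P n p cor) (h : ℕ → ℕ) (hG : Good n cor h) :
    ∃ π : Finpartition P, ∀ i j, i ≤ n → j ≤ n → (RelOf P π p i j ↔ HRel h i j) := by
  classical
  have hN := h2 n cor h hG
  have heq : ∀ i j, i ≤ n → j ≤ n → p i = p j → HRel h i j := by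
    intro i j hi hj hp
    rcases Nat.lt_or_ge i n with h1 | h1
    · rcases Nat.lt_or_ge j n with h3 | h3
      · rw [hE.inj i j h1 h3 hp]
        exact hN.refl j hj
      · have : j = n := le_antisymm hj h3
        subst this
        rw [hE.closed] at hp
        rw [hE.inj i 0 h1 (by have := hE.pos; omega) hp]
        exact hN.zero_n
    · have : i = n := le_antisymm hi h1
      subst this
      rcases Nat.lt_or_ge j i with h3 | h3
      · rw [hE.closed] at hp
        rw [← hE.inj 0 j (by have := hE.pos; omega) h3 hp]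
        exact hN.symm _ _ (Nat.zero_le _) le_rfl hN.zero_n
      · rw [le_antisymm hj h3]
        exact hN.refl _ le_rfl
  let s : Setoid Pt :=
    { r := fun x y => x = y ∨ ∃ i j, i ≤ n ∧ j ≤ n ∧ p i = x ∧ p j = y ∧ HRel h i j
      iseqv :=
        { refl := fun x => Or.inl rfl
          symm := by
            rintro x y (rfl | ⟨i, j, hi, hj, rfl, rfl, hh⟩)
            · exact Or.inl rfl
            · exact Or.inr ⟨j, i, hj, hi, rfl, rfl, hN.symm _ _ hi hj hh⟩
          trans := by
            rintro x y z (rfl | ⟨i, j, hi, hj, rfl, rfl, hh⟩) h3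
            · exact h3
            · rcases h3 with rfl | ⟨j', k, hj', hk, he, rfl, hh'⟩
              · exact Or.inr ⟨i, j, hi, hj, rfl, rfl, hh⟩
              · refine Or.inr ⟨i, k, hi, hk, rfl, rfl, ?_⟩
                have h5 := heq j j' hj hj' he.symm
                exact hN.trans _ _ _ hi hj hk hh (hN.trans _ _ _ hj hj' hk h5 hh') } }
  refine ⟨Finpartition.ofSetSetoid s P, fun i j hi hj => ?_⟩
  rw [relOf_iff_part, Finpartition.mem_part_ofSetSetoid_iff_rel]
  constructor
  · rintro ⟨_, _, h3 | ⟨j', i', hj', hi', e1, e2, h3⟩⟩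
    · exact heq i j hi hj h3.symm
    · have a1 := heq i i' hi hi' e2.symm
      have a2 := heq j' j hj' hj e1
      exact hN.trans _ _ _ hi hi' hj a1
        (hN.trans _ _ _ hi' hj' hj (hN.symm _ _ hj' hi' h3) a2)
  · intro h3
    exact ⟨hE.mem j hj, hE.mem i hi, Or.inr ⟨j, i, hj, hi, rfl, rfl, hN.symm _ _ hi hj h3⟩⟩

theorem part (h1 : S_REL1) (h2 : S_REL2) (h3 : S_REL3) (h4 : S_REL4) : S_PART := by
  intro P n p cor hE k
  have hex : ∀ π : {π : Finpartition P // NCRel n cor (RelOf P π p) ∧ π.parts.card = k + 1},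
      ∃ h : ℕ → ℕ, (Good n cor h ∧ push n h = k) ∧
        ∀ i j, i ≤ n → j ≤ n → (RelOf P π.1 p i j ↔ HRel h i j) := by
    rintro ⟨π, hN, hk⟩
    obtain ⟨h, hG, hr⟩ := h1 n cor _ hN
    refine ⟨h, ⟨hG, ?_⟩, hr⟩
    have := card_parts h4 hE π h hG hr
    omega
  choose F hF1 hF2 using hex
  apply Nat.card_eq_of_bijective
    (fun π => (⟨F π, hF1 π⟩ : {h : ℕ → ℕ // Good n cor h ∧ push n h = k}))
  constructor
  · intro π π' he
    have he' : F π = F π' := congrArg Subtype.val he
    apply Subtype.ext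
    apply part_unique hE
    intro i j hi hj
    rw [hF2 π i j hi hj, hF2 π' i j hi hj, he']
  · rintro ⟨h, hG, hk⟩
    obtain ⟨π, hπ⟩ := exists_part h2 hE h hG
    have hN : NCRel n cor (RelOf P π p) :=
      ncrel_congr (fun i j hi hj => (hπ i j hi hj).symm) (h2 n cor h hG)
    have hc := card_parts h4 hE π h hG hπ
    refine ⟨⟨π, hN, by omega⟩, ?_⟩
    apply Subtype.ext
    apply h3 n cor _ _ (hF1 _).1 hG
    intro i j hi hj
    rw [← hF2 ⟨π, hN, by omega⟩ i j hi hj]
    exact hπ i j hi hj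

end Q165.NCS
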