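import Pool.Agent.Q165.NCS.Stm

/-! # (PATHS): the generating function of the height functions -/

namespace Q165.NCS

open Finset

/-- prepend a value -/
def cons (a : ℕ) (g : ℕ → ℕ) : ℕ → ℕ
  | 0 => a
  | i + 1 => g i

theorem cons_inj (a : ℕ) : Function.Injective (cons a) := by
  intro g g' h
  funext i
  exact congrFun h (i + 1)

theorem cons_tail (g : ℕ → ℕ) : cons (g 0) (fun i => g (i + 1)) = g := by
  funext i
  cases i <;> rfl

open Classical in
/-- the finite set of paths -/
noncomputable def FS (cor : ℕ → Prop) : ℕ → ℕ → ℕ → ℕ → Finset (ℕ → ℕ)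
  | 0, _, h, _ => if h = 0 then {fun _ => 0} else ∅
  | r + 1, j, h, f =>
      ((FS cor r (j + 1) h (if cor j then h else f)).image (cons h)) ∪
      (((FS cor r (j + 1) (h + 1) (if cor j then h else f)).image (cons h)) ∪
      ((range (if cor j then h else f)).biUnion
        (fun l => (FS cor r (j + 1) l l).image (cons h))))

theorem FS_zero (cor : ℕ → Prop) (r j h f : ℕ) (g : ℕ → ℕ) (hg : g ∈ FS cor r j h f) : g 0 = h := by
  cases r with
  | zero =>
    rw [FS] at hg
    split_ifs at hg with hh
    · rw [mem_singleton] at hg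
      rw [hg, hh]
    · exact absurd hg (notMem_empty _)
  | succ r =>
    rw [FS] at hg
    simp only [mem_union, mem_image, mem_biUnion] at hg
    rcases hg with ⟨g', _, rfl⟩ | ⟨g', _, rfl⟩ | ⟨l, _, g', _, rfl⟩
    · rfl
    · rfl
    · rfl

/-- the condition on the paths -/
structure PC (cor : ℕ → Prop) (r j h f : ℕ) (g : ℕ → ℕ) : Prop where
  start : g 0 = h
  last : g r = 0
  out : ∀ i, r < i → g i = 0
  step : ∀ i, i < r → g (i + 1) ≤ g i + 1
  side : ∀ i, i < r → g (i + 1) < g i →
    ∀ i', i' ≤ i → (∀ l, i' < l → l ≤ i → ¬ cor (j + l)) → g (i + 1) < g i'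
  floor : ∀ i, i < r → g (i + 1) < g i → (∀ l, l ≤ i → ¬ cor (j + l)) → g (i + 1) < f

theorem PC_succ (cor : ℕ → Prop) (r j h f f' : ℕ) (g : ℕ → ℕ)
    (hf1 : cor j → f' = h) (hf2 : ¬ cor j → f' = f) (hg : PC cor (r + 1) j h f g) :
    (g 1 < f' ∧ PC cor r (j + 1) (g 1) (g 1) (fun i => g (i + 1))) ∨
    ((g 1 = h ∨ g 1 = h + 1) ∧ PC cor r (j + 1) (g 1) f' (fun i => g (i + 1))) := by
  have hs := hg.step 0 (by omega)
  simp only [zero_add] at hs
  rw [hg.start] at hs
  have common : (∀ i, i < r → g (i + 1 + 1) < g (i + 1) →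
      ∀ i', i' ≤ i → (∀ l, i' < l → l ≤ i → ¬ cor (j + 1 + l)) → g (i + 1 + 1) < g (i' + 1)) := by
    intro i hi hd i' hi' hc
    apply hg.side (i + 1) (by omega) hd (i' + 1) (by omega)
    intro l l1 l2
    have := hc (l - 1) (by omega) (by omega)
    have e : j + 1 + (l - 1) = j + l := by omega
    rwa [e] at this
  have flo : ∀ i, i < r → g (i + 1 + 1) < g (i + 1) → (∀ l, l ≤ i → ¬ cor (j + 1 + l)) →
      g (i + 1 + 1) < f' := by
    intro i hi hd hc
    have hc' : ∀ l, 0 < l → l ≤ i + 1 → ¬ cor (j + l) := by
      intro l l1 l2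
      have := hc (l - 1) (by omega)
      have e : j + 1 + (l - 1) = j + l := by omega
      rwa [e] at this
    by_cases hcj : cor j
    · rw [hf1 hcj, ← hg.start]
      exact hg.side (i + 1) (by omega) hd 0 (by omega) hc'
    · rw [hf2 hcj]
      apply hg.floor (i + 1) (by omega) hd
      intro l l1
      rcases Nat.eq_zero_or_pos l with rfl | l0
      · exact hcj
      · exact hc' l l0 l1
  by_cases hlt : g 1 < h
  · left
    constructor
    · by_cases hcj : cor j
      · rw [hf1 hcj]; exact hlt
      · rw [hf2 hcj]
        have := hg.floor 0 (by omega) (by simp only [zero_add]; rw [hg.start]; exact hlt)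
        apply this
        intro l hl
        have : l = 0 := by omega
        rw [this]; exact hcj
    · refine ⟨rfl, hg.last, fun i hi => hg.out (i + 1) (by omega),
        fun i hi => hg.step (i + 1) (by omega), common, ?_⟩
      intro i hi hd hc
      exact common i hi hd 0 (Nat.zero_le _) (fun l _ l2 => hc l l2)
  · right
    refine ⟨by omega, rfl, hg.last, fun i hi => hg.out (i + 1) (by omega),
        fun i hi => hg.step (i + 1) (by omega), common, flo⟩

theorem PC_cons (cor : ℕ → Prop) (r j h f f' f'' x : ℕ) (g : ℕ → ℕ) (hf : f ≤ h)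
    (hf1 : cor j → f' = h) (hf2 : ¬ cor j → f' = f) (hx : x ≤ h + 1) (hx2 : x < h → x < f')
    (hf'' : f'' ≤ f') (hg : PC cor r (j + 1) x f'' g) : PC cor (r + 1) j h f (cons h g) := by
  have hf'h : f' ≤ h := by
    by_cases hcj : cor j
    · rw [hf1 hcj]
    · rw [hf2 hcj]; exact hf
  refine ⟨rfl, hg.last, ?_, ?_, ?_, ?_⟩
  · intro i hi
    obtain ⟨i', rfl⟩ : ∃ i', i = i' + 1 := ⟨i - 1, by omega⟩
    exact hg.out i' (by omega)
  · intro i hi
    rcases i with _ | i
    · show g 0 ≤ h + 1
      rw [hg.start]; exact hx
    · exact hg.step i (by omega)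
  · intro i hi hd i' hi' hc
    rcases i with _ | i
    · have : i' = 0 := by omega
      rw [this]; exact hd
    · rcases i' with _ | i'
      · show g (i + 1) < h
        have := hg.floor i (by omega) hd (fun l hl => by
          have := hc (l + 1) (by omega) (by omega)
          have e : j + (l + 1) = j + 1 + l := by omega
          rwa [e] at this)
        omega
      · apply hg.side i (by omega) hd i' (by omega)
        intro l l1 l2
        have := hc (l + 1) (by omega) (by omega)
        have e : j + (l + 1) = j + 1 + l := by omega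
        rwa [e] at this
  · intro i hi hd hc
    have hcj : ¬ cor j := by
      have := hc 0 (Nat.zero_le _)
      simpa using this
    rcases i with _ | i
    · show g 0 < f
      have hd' : g 0 < h := hd
      rw [hg.start] at hd' ⊢
      rw [← hf2 hcj]
      exact hx2 hd'
    · show g (i + 1) < f
      have := hg.floor i (by omega) hd (fun l hl => by
          have := hc (l + 1) (by omega)
          have e : j + (l + 1) = j + 1 + l := by omega
          rwa [e] at this)
      rw [← hf2 hcj]
      omega

theorem mem_FS (cor : ℕ → Prop) : ∀ r j h f (g : ℕ → ℕ), f ≤ h →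
    (g ∈ FS cor r j h f ↔ PC cor r j h f g) := by
  classical
  intro r
  induction r with
  | zero =>
    intro j h f g hf
    rw [FS]
    constructor
    · intro hg
      split_ifs at hg with hh
      · rw [mem_singleton] at hg
        subst hg
        exact ⟨hh.symm, rfl, fun _ _ => rfl, fun i hi => absurd hi (Nat.not_lt_zero _),
          fun i hi => absurd hi (Nat.not_lt_zero _), fun i hi => absurd hi (Nat.not_lt_zero _)⟩
      · exact absurd hg (notMem_empty _)
    · intro hg
      have h1 := hg.start
      have h2 := hg.last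
      have hh : h = 0 := by rw [← h1, h2]
      rw [if_pos hh, mem_singleton]
      funext i
      rcases Nat.eq_zero_or_pos i with rfl | hi
      · exact h2
      · exact hg.out i hi
  | succ r ih =>
    intro j h f g hf
    set f' := if cor j then h else f with hf'
    have hf1 : cor j → f' = h := fun hc => by rw [hf', if_pos hc]
    have hf2 : ¬ cor j → f' = f := fun hc => by rw [hf', if_neg hc]
    have hf'h : f' ≤ h := by
      by_cases hcj : cor j
      · rw [hf1 hcj]
      · rw [hf2 hcj]; exact hf
    rw [FS]
    simp only [mem_union, mem_image, mem_biUnion, mem_range]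
    constructor
    · rintro (⟨g', hg', rfl⟩ | ⟨g', hg', rfl⟩ | ⟨l, hl, g', hg', rfl⟩)
      · rw [ih _ _ _ _ hf'h] at hg'
        exact PC_cons cor r j h f f' f' h g' hf hf1 hf2 (by omega) (by omega) le_rfl hg'
      · rw [ih _ _ _ _ (by omega)] at hg'
        exact PC_cons cor r j h f f' f' (h + 1) g' hf hf1 hf2 (by omega) (by omega) le_rfl hg'
      · rw [ih _ _ _ _ le_rfl] at hg'
        exact PC_cons cor r j h f f' l l g' hf hf1 hf2 (by omega) (by omega) hl.le hg'
    · intro hg
      have hcons : cons h (fun i => g (i + 1)) = g := by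
        rw [← hg.start]; exact cons_tail g
      rcases PC_succ cor r j h f f' g hf1 hf2 hg with ⟨h1, h2⟩ | ⟨h1 | h1, h2⟩
      · right; right
        exact ⟨g 1, h1, _, (ih _ _ _ _ le_rfl).mpr h2, hcons⟩
      · left
        rw [h1] at h2
        exact ⟨_, (ih _ _ _ _ hf'h).mpr h2, hcons⟩
      · right; left
        rw [h1] at h2
        exact ⟨_, (ih _ _ _ _ (by omega)).mpr h2, hcons⟩

theorem push_cons (r a : ℕ) (g : ℕ → ℕ) :
    push (r + 1) (cons a g) = push r g + (if g 0 = a + 1 then 1 else 0) := by
  unfold push
  rw [card_filter, card_filter, sum_range_succ']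
  rfl

theorem push_le (r : ℕ) (g : ℕ → ℕ) : push r g ≤ r := by
  unfold push
  calc _ ≤ (range r).card := card_filter_le _ _
    _ = r := card_range r

theorem sum_FS (t : ℝ) (cor : ℕ → Prop) : ∀ r j h f, f ≤ h →
    ∑ g ∈ FS cor r j h f, t ^ (r - push r g) = Z t cor r j h f := by
  classical
  intro r
  induction r with
  | zero =>
    intro j h f hf
    rw [FS, Z]
    split_ifs with hh
    · simp
    · simp
  | succ r ih =>
    intro j h f hf
    rw [FS, Z]
    set f' := if cor j then h else f with hf'
    have hf'h : f' ≤ h := by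
      by_cases hcj : cor j
      · rw [hf', if_pos hcj]
      · rw [hf', if_neg hcj]; exact hf
    have one : ∀ x fl : ℕ, fl ≤ x → x ≠ h + 1 →
        ∑ g ∈ (FS cor r (j + 1) x fl).image (cons h), t ^ (r + 1 - push (r + 1) g) =
          t * Z t cor r (j + 1) x fl := by
      intro x fl hfl hx
      rw [sum_image (fun a _ b _ hab => cons_inj h hab), ← ih (j + 1) x fl hfl, mul_sum]
      apply sum_congr rfl
      intro g hg
      have h0 := FS_zero cor r (j + 1) x fl g hg
      rw [push_cons, h0, if_neg hx, add_zero]
      have := push_le r g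
      have e : r + 1 - push r g = (r - push r g) + 1 := by omega
      rw [e, pow_succ]
      ring
    have two : ∑ g ∈ (FS cor r (j + 1) (h + 1) f').image (cons h), t ^ (r + 1 - push (r + 1) g) =
          Z t cor r (j + 1) (h + 1) f' := by
      rw [sum_image (fun a _ b _ hab => cons_inj h hab), ← ih (j + 1) (h + 1) f' (by omega)]
      apply sum_congr rfl
      intro g hg
      have h0 := FS_zero cor r (j + 1) (h + 1) f' g hg
      rw [push_cons, h0, if_pos rfl]
      congr 1
      omega
    have val : ∀ (x fl : ℕ) (g : ℕ → ℕ), g ∈ (FS cor r (j + 1) x fl).image (cons h) → g 1 = x := by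
      intro x fl g hg
      rw [mem_image] at hg
      obtain ⟨g', hg', rfl⟩ := hg
      exact FS_zero cor r (j + 1) x fl g' hg'
    rw [sum_union, sum_union, sum_biUnion, one h f' hf'h (by omega), two, mul_sum]
    · have : ∑ x ∈ range f', ∑ g ∈ (FS cor r (j + 1) x x).image (cons h),
          t ^ (r + 1 - push (r + 1) g) = ∑ i ∈ range f', t * Z t cor r (j + 1) i i := by
        apply sum_congr rfl
        intro l hl
        rw [mem_range] at hl
        exact one l l le_rfl (by omega)
      rw [this]
      ring
    · intro a _ b _ hab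
      rw [Function.onFun, disjoint_left]
      intro g hg1 hg2
      exact hab ((val a a g hg1).symm.trans (val b b g hg2))
    · rw [disjoint_left]
      intro g hg1 hg2
      rw [mem_biUnion] at hg2
      obtain ⟨l, hl, hg2⟩ := hg2
      rw [mem_range] at hl
      have a1 := val _ _ g hg1
      have a2 := val _ _ g hg2
      omega
    · rw [disjoint_left]
      intro g hg1 hg2
      rw [mem_union, mem_biUnion] at hg2
      have a1 := val _ _ g hg1
      rcases hg2 with hg2 | ⟨l, hl, hg2⟩
      · have a2 := val _ _ g hg2
        omega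
      · rw [mem_range] at hl
        have a2 := val _ _ g hg2
        omega

theorem good_iff (n : ℕ) (cor : ℕ → Prop) (hc : cor 0) (h : ℕ → ℕ) :
    h ∈ FS cor n 0 0 0 ↔ Good n cor h := by
  rw [mem_FS cor n 0 0 0 h le_rfl]
  constructor
  · intro hg
    refine ⟨hg.start, hg.last, hg.out, hg.step, ?_⟩
    intro j hj hd i hi hcor
    exact hg.side j hj hd i hi (fun l l1 l2 => by rw [zero_add]; exact hcor l l1 l2)
  · intro hg
    refine ⟨hg.zero, hg.last, hg.out, hg.step, ?_, ?_⟩
    · intro j hj hd i hi hcor
      exact hg.side j hj hd i hi (fun l l1 l2 => by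
        have := hcor l l1 l2
        rwa [zero_add] at this)
    · intro i hi hd hcor
      have := hcor 0 (Nat.zero_le _)
      exact absurd hc (by simpa using this)

theorem paths : S_PATHS := by
  classical
  intro t n cor hn hc
  rw [← sum_FS t cor n 0 0 0 le_rfl]
  rw [← sum_fiberwise_of_maps_to (g := fun g => push n g) (t := range (n + 1))
    (fun g _ => mem_range.mpr (by have := push_le n g; omega))]
  apply sum_congr rfl
  intro k _
  have h1 : Nat.card {h : ℕ → ℕ // Good n cor h ∧ push n h = k} =
      ((FS cor n 0 0 0).filter (fun g => push n g = k)).card := by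
    apply Nat.subtype_card
    intro g
    rw [mem_filter, good_iff n cor hc]
  rw [h1, sum_congr rfl (g := fun _ => t ^ (n - k))
    (fun g hg => by rw [(mem_filter.mp hg).2]), sum_const, nsmul_eq_mul]

end Q165.NCS
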