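import Pool.Agent.Q165.NCS.Hull
import Pool.Agent.Q165.NCS.FanE

/-! # (POSET): ranks in `NC(P)` -/

namespace Q165.NCS

open Finset

theorem eq_of_card {P : Finset Pt} (π π' : Finpartition P) (h : π ≤ π')
    (hc : π.parts.card ≤ π'.parts.card) : π = π' := by
  classical
  have h' : ∀ b ∈ π.parts, ∃ c ∈ π'.parts, b ⊆ c := fun b hb => h hb
  choose! g hg hle using h'
  have huniq : ∀ b ∈ π.parts, ∀ c ∈ π'.parts, ∀ x, x ∈ b → x ∈ c → g b = c := fun b hb c hc' x h1 h2 =>
    π'.eq_of_mem_parts (hg b hb) hc' (hle b hb h1) h2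
  have himg : π.parts.image g = π'.parts := by
    ext c
    rw [mem_image]
    constructor
    · rintro ⟨b, hb, rfl⟩; exact hg b hb
    · intro hc'
      obtain ⟨x, hx⟩ := π'.nonempty_of_mem_parts hc'
      have hxP := π'.le hc' hx
      exact ⟨π.part x, π.part_mem.mpr hxP, huniq _ (π.part_mem.mpr hxP) c hc' x (π.mem_part hxP) hx⟩
  have hinj : Set.InjOn g π.parts := by
    apply Finset.card_image_iff.mp
    rw [himg]
    apply le_antisymm _ hc
    rw [← himg]
    exact card_image_le
  have hsub : π'.parts ⊆ π.parts := by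
    intro c hc'
    have hc2 := hc'
    rw [← himg, mem_image] at hc2
    obtain ⟨b, hb, rfl⟩ := hc2
    have : g b = b := by
      apply Finset.Subset.antisymm _ (hle b hb)
      intro y hy
      have hyP := π'.le hc' hy
      have h1 := huniq _ (π.part_mem.mpr hyP) (g b) hc' y (π.mem_part hyP) hy
      have h2 := hinj (by exact_mod_cast π.part_mem.mpr hyP) (by exact_mod_cast hb) h1
      rw [← h2]
      exact π.mem_part hyP
    rw [this]; exact hb
  have hparts : π.parts = π'.parts := (Finset.eq_of_subset_of_card_le hsub hc).symm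
  exact Finpartition.ext hparts

theorem card_lt {P : Finset Pt} {x y : NC P} (h : x < y) : y.1.parts.card < x.1.parts.card := by
  by_contra hcon
  push Not at hcon
  have h1 : x.1 ≤ y.1 := h.le
  have := eq_of_card x.1 y.1 h1 hcon
  exact h.ne (Subtype.ext this)

/-- splitting a block -/
theorem split {P : Finset Pt} (x : NC P) (hx : x.1.parts.card < P.card) :
    ∃ y : NC P, y < x ∧ y.1.parts.card = x.1.parts.card + 1 := by
  classical
  obtain ⟨π, hN⟩ := x
  simp only at hx
  -- a block with two points
  obtain ⟨B, hB, hB2⟩ : ∃ B ∈ π.parts, 2 ≤ B.card := by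
    by_contra hcon
    push Not at hcon
    have h1 : P.card ≤ π.parts.card := by
      rw [← π.sum_card_parts, card_eq_sum_ones]
      apply sum_le_sum
      intro B hB
      have := hcon B hB
      omega
    omega
  obtain ⟨e, he⟩ := generic P
  have hBne : B.Nonempty := card_pos.mp (by omega)
  obtain ⟨b, hb, hbmax⟩ := exists_max_image B (fun x => x.1 + e * x.2) hBne
  have hBe : (B.erase b).Nonempty := by
    apply card_pos.mp
    rw [card_erase_of_mem hb]; omega
  obtain ⟨b', hb', hbmax'⟩ := exists_max_image (B.erase b) (fun x => x.1 + e * x.2) hBe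
  have hBP := π.le hB
  have hlt : b'.1 + e * b'.2 < b.1 + e * b.2 := by
    rcases (hbmax b' (mem_of_mem_erase hb')).lt_or_eq with h | h
    · exact h
    · exact absurd (he b' (hBP (mem_of_mem_erase hb')) b (hBP hb) h) (ne_of_mem_erase hb')
  have hbnot : b ∉ convexHull ℝ ((B.erase b : Finset Pt) : Set Pt) := by
    intro hcon
    have := hull_ge (α := -1) (β := -e) (c := -(b'.1 + e * b'.2))
      (S := ((B.erase b : Finset Pt) : Set Pt)) (x := b) (fun z hz => by
        have := hbmax' z (by exact_mod_cast hz)
        linarith) hcon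
    linarith
  set N : Finset (Finset Pt) := insert {b} (insert (B.erase b) (π.parts.erase B)) with hNdef
  have mN : ∀ D, D ∈ N ↔ D = {b} ∨ D = B.erase b ∨ (D ≠ B ∧ D ∈ π.parts) := by
    intro D
    rw [hNdef, mem_insert, mem_insert, mem_erase]
  have disjB : ∀ D ∈ π.parts, D ≠ B → ∀ z, z ∈ D → z ∈ B → False := fun D hD hDB z h1 h2 =>
    hDB (π.eq_of_mem_parts hD hB h1 h2)
  have hsub : ∀ D ∈ N, D ⊆ P := by
    intro D hD
    rcases (mN D).mp hD with rfl | rfl | ⟨_, h⟩
    · intro z hz
      rw [mem_singleton] at hz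
      rw [hz]; exact hBP hb
    · exact (erase_subset _ _).trans hBP
    · exact π.le h
  have hex : ∀ a ∈ P, ∃! t ∈ N, a ∈ t := by
    intro a ha
    by_cases hab : a = b
    · refine ⟨{b}, ⟨(mN _).mpr (Or.inl rfl), by rw [hab]; exact mem_singleton_self b⟩, ?_⟩
      rintro D ⟨hD, haD⟩
      rcases (mN D).mp hD with rfl | rfl | ⟨h1, h2⟩
      · rfl
      · rw [hab] at haD
        exact absurd haD (notMem_erase b B)
      · rw [hab] at haD
        exact (disjB D h2 h1 b haD hb).elim
    · by_cases haB : a ∈ B
      · refine ⟨B.erase b, ⟨(mN _).mpr (Or.inr (Or.inl rfl)), mem_erase.mpr ⟨hab, haB⟩⟩, ?_⟩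
        rintro D ⟨hD, haD⟩
        rcases (mN D).mp hD with rfl | rfl | ⟨h1, h2⟩
        · exact absurd (mem_singleton.mp haD) hab
        · rfl
        · exact (disjB D h2 h1 a haD haB).elim
      · refine ⟨π.part a, ⟨(mN _).mpr (Or.inr (Or.inr ⟨?_, π.part_mem.mpr ha⟩)), π.mem_part ha⟩, ?_⟩
        · intro hh
          apply haB
          rw [← hh]; exact π.mem_part ha
        · rintro D ⟨hD, haD⟩
          rcases (mN D).mp hD with rfl | rfl | ⟨h1, h2⟩
          · exact absurd (mem_singleton.mp haD) hab
          · exact absurd (mem_of_mem_erase haD) haB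
          · exact π.eq_of_mem_parts h2 (π.part_mem.mpr ha) haD (π.mem_part ha)
  have hbot : ∅ ∉ N := by
    intro hcon
    rcases (mN _).mp hcon with h | h | ⟨_, h⟩
    · exact (singleton_ne_empty b) h.symm
    · exact hBe.ne_empty h.symm
    · exact (π.nonempty_of_mem_parts h).ne_empty rfl
  set σ : Finpartition P := Finpartition.ofExistsUnique N hsub hex hbot with hσ
  have hσN : σ.parts = N := rfl
  have hcard : N.card = π.parts.card + 1 := by
    rw [hNdef, card_insert_of_notMem, card_insert_of_notMem, card_erase_of_mem hB]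
    · have : 0 < π.parts.card := card_pos.mpr ⟨B, hB⟩
      omega
    · rw [mem_erase]
      rintro ⟨h1, h2⟩
      obtain ⟨z, hz⟩ := hBe
      exact disjB _ h2 h1 z hz (mem_of_mem_erase hz)
    · rw [mem_insert, mem_erase]
      rintro (h | ⟨h1, h2⟩)
      · have : b ∈ B.erase b := by rw [← h]; exact mem_singleton_self b
        exact notMem_erase b B this
      · exact disjB _ h2 h1 b (mem_singleton_self b) hb
  -- every part of N is inside a part of π
  have hin : ∀ D ∈ N, ∃ E ∈ π.parts, D ⊆ E ∧ ((D = {b} ∨ D = B.erase b) ∧ E = B ∨ D = E ∧ E ≠ B) := by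
    intro D hD
    rcases (mN D).mp hD with rfl | rfl | ⟨h1, h2⟩
    · exact ⟨B, hB, singleton_subset_iff.mpr hb, Or.inl ⟨Or.inl rfl, rfl⟩⟩
    · exact ⟨B, hB, erase_subset _ _, Or.inl ⟨Or.inr rfl, rfl⟩⟩
    · exact ⟨D, h2, Finset.Subset.refl _, Or.inr ⟨rfl, h1⟩⟩
  have hdisj1 : Disjoint (convexHull ℝ (({b} : Finset Pt) : Set Pt))
      (convexHull ℝ ((B.erase b : Finset Pt) : Set Pt)) := by
    rw [coe_singleton, convexHull_singleton, Set.disjoint_singleton_left]
    exact hbnot
  have hNσ : Noncrossing P σ := by
    intro D hD E hE hDE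
    rw [hσN] at hD hE
    obtain ⟨D', hD', hDD', hDc⟩ := hin D hD
    obtain ⟨E', hE', hEE', hEc⟩ := hin E hE
    by_cases hne : D' = E'
    · rcases hDc with ⟨h1, h2⟩ | ⟨h1, h2⟩
      · rcases hEc with ⟨h3, _⟩ | ⟨_, h4⟩
        · rcases h1 with rfl | rfl <;> rcases h3 with rfl | rfl
          · exact absurd rfl hDE
          · exact hdisj1
          · exact hdisj1.symm
          · exact absurd rfl hDE
        · exact absurd (hne.symm.trans h2) h4
      · rcases hEc with ⟨_, h4⟩ | ⟨h3, _⟩
        · exact absurd (hne.trans h4) h2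
        · exact absurd (h1.trans (hne.trans h3.symm)) hDE
    · have := hN D' hD' E' hE' hne
      exact this.mono (convexHull_mono (by exact_mod_cast hDD'))
        (convexHull_mono (by exact_mod_cast hEE'))
  refine ⟨⟨σ, hNσ⟩, ?_, ?_⟩
  · have hle : σ ≤ π := by
      intro D hD
      obtain ⟨E, hE, hDE, _⟩ := hin D hD
      exact ⟨E, hE, hDE⟩
    refine lt_of_le_of_ne hle ?_
    intro hh
    have : σ.parts.card = π.parts.card := by
      have := congrArg (fun z : NC P => z.1.parts.card) hh
      exact this
    rw [hσN, hcard] at this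
    omega
  · exact hcard

theorem height_eq {P : Finset Pt} (x : NC P) :
    Order.height x = ((P.card - x.1.parts.card : ℕ) : ℕ∞) := by
  apply le_antisymm
  · have hmono : StrictMono (fun x : NC P => P.card - x.1.parts.card) := by
      intro x y hxy
      have h1 := card_lt hxy
      have h2 := x.1.card_parts_le_card
      simp only
      omega
    have := Order.height_le_height_apply_of_strictMono _ hmono x
    simpa using this
  · have key : ∀ k : ℕ, ∀ x : NC P, P.card - x.1.parts.card = k → (k : ℕ∞) ≤ Order.height x := by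
      intro k
      induction k with
      | zero => intro x _; simp
      | succ k ih =>
        intro x hx
        obtain ⟨y, hy, hyc⟩ := split x (by omega)
        have h1 := ih y (by omega)
        have h2 := Order.height_add_one_le hy
        calc ((k + 1 : ℕ) : ℕ∞) = (k : ℕ∞) + 1 := by norm_cast
          _ ≤ Order.height y + 1 := by gcongr
          _ ≤ Order.height x := h2
    exact key _ x rfl

theorem poset : S_POSET := by
  classical
  intro P hP ⟨N, hgr, hsym⟩ k hk1 hk2
  set n := P.card with hn
  have hnpos : 0 < n := card_pos.mpr hP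
  -- the top element
  have htop : Noncrossing P (Finpartition.indiscrete (a := P) (by simpa using hP.ne_empty)) := by
    intro B hB C hC hBC
    rw [Finpartition.indiscrete_parts, mem_singleton] at hB hC
    exact absurd (hB.trans hC.symm) hBC
  set T : NC P := ⟨_, htop⟩ with hT
  have hTc : T.1.parts.card = 1 := by
    rw [hT]; simp
  have hTh : Order.height T = ((n - 1 : ℕ) : ℕ∞) := by
    rw [height_eq T, hTc]
  obtain ⟨s, hs1, hs2⟩ := Order.exists_series_of_height_eq_coe T hTh
  -- its range is a maximal chain with n elements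
  have hcl : ∀ x : NC P, 1 ≤ x.1.parts.card ∧ x.1.parts.card ≤ n := by
    intro x
    refine ⟨?_, x.1.card_parts_le_card⟩
    apply card_pos.mpr
    obtain ⟨z, hz⟩ := hP
    exact ⟨x.1.part z, x.1.part_mem.mpr hz⟩
  have hsm : StrictMono s := s.strictMono
  have hchain : IsChain (· ≤ ·) (Set.range s) := by
    rintro _ ⟨i, rfl⟩ _ ⟨j, rfl⟩ _
    rcases le_total i j with h | h
    · left; exact hsm.monotone h
    · right; exact hsm.monotone h
  have himage : (univ : Finset (Fin (s.length + 1))).image (fun i => (s i).1.parts.card) =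
      Finset.Icc 1 n := by
    apply Finset.eq_of_subset_of_card_le
    · intro c hc
      rw [mem_image] at hc
      obtain ⟨i, _, rfl⟩ := hc
      rw [mem_Icc]
      exact hcl _
    · rw [card_image_of_injective, card_univ, Fintype.card_fin, Nat.card_Icc, hs2]
      · omega
      · intro i j hij
        simp only at hij
        rcases lt_trichotomy i j with h | h | h
        · have := card_lt (hsm h); omega
        · exact h
        · have := card_lt (hsm h); omega
  have hmax : IsMaxChain (· ≤ ·) (Set.range s) := by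
    refine ⟨hchain, fun t ht hst => ?_⟩
    apply Set.Subset.antisymm hst
    intro y hy
    have hyc : y.1.parts.card ∈ Finset.Icc 1 n := by rw [mem_Icc]; exact hcl y
    rw [← himage, mem_image] at hyc
    obtain ⟨i, _, hi⟩ := hyc
    refine ⟨i, ?_⟩
    by_contra hne
    rcases ht (hst ⟨i, rfl⟩) hy hne with h | h
    · have := card_lt (lt_of_le_of_ne h hne); omega
    · have := card_lt (lt_of_le_of_ne h (Ne.symm hne)); omega
  have hN := hgr _ hmax
  have hcard : (Set.range s).ncard = n := by
    rw [← Set.image_univ, Set.ncard_image_of_injective _ hsm.injective, Set.ncard_univ,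
      Nat.card_eq_fintype_card, Fintype.card_fin, hs2]
    omega
  rw [hcard] at hN
  -- translate
  have hrk : ∀ k, 1 ≤ k → k ≤ n →
      Nat.card {π : NC P // π.1.parts.card = k} = rankCount (NC P) (n - k) := by
    intro k h1 h2
    unfold rankCount
    apply Nat.card_congr
    apply Equiv.subtypeEquivRight
    intro x
    rw [height_eq x]
    have h3 := hcl x
    constructor
    · intro h; rw [h]
    · intro h
      have : n - x.1.parts.card = n - k := by exact_mod_cast h
      omega
  have h1 := hsym (n - k) (by omega)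
  rw [hrk k hk1 hk2, hrk (n + 1 - k) (by omega) (by omega), h1]
  congr 1
  omega

end Q165.NCS
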