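import Pool.Agent.Q165.NCS.Stm

/-! # (REL): noncrossing relations and height functions -/

namespace Q165.NCS

theorem lastLevel {n : ℕ} {h : ℕ → ℕ} (hs : ∀ j, j < n → h (j + 1) ≤ h j + 1) {a v : ℕ}
    (ha : h a ≤ v) : ∀ j, a ≤ j → j ≤ n → v ≤ h j →
    ∃ i, a ≤ i ∧ i ≤ j ∧ h i = v ∧ ∀ l, i < l → l ≤ j → v < h l := by
  intro j haj
  induction j, haj using Nat.le_induction with
  | base =>
    intro _ hv
    exact ⟨a, le_rfl, le_rfl, le_antisymm ha hv, fun l h1 h2 => by omega⟩
  | succ j haj ih =>
    intro hj hv
    rcases hv.eq_or_lt with h1 | h1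
    · exact ⟨j + 1, by omega, le_rfl, h1.symm, fun l h1 h2 => by omega⟩
    · have h2 := hs j (by omega)
      obtain ⟨i, i1, i2, i3, i4⟩ := ih (by omega) (by omega)
      refine ⟨i, i1, by omega, i3, fun l hl hl' => ?_⟩
      rcases Nat.lt_or_ge j l with h3 | h3
      · have : l = j + 1 := by omega
        rw [this]; exact h1
      · exact i4 l hl h3

theorem hrel_iff {h : ℕ → ℕ} {i j : ℕ} (hij : i ≤ j) :
    HRel h i j ↔ h i = h j ∧ ∀ l, i ≤ l → l ≤ j → h i ≤ h l := by
  unfold HRel
  rw [min_eq_left hij, max_eq_right hij]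

theorem hrel_symm {h : ℕ → ℕ} {i j : ℕ} (hh : HRel h i j) : HRel h j i := by
  obtain ⟨h1, h2⟩ := hh
  refine ⟨h1.symm, fun l hl1 hl2 => ?_⟩
  rw [← h1]
  exact h2 l (by rw [min_comm]; exact hl1) (by rw [max_comm]; exact hl2)

theorem hrel_refl {h : ℕ → ℕ} (i : ℕ) : HRel h i i := by
  rw [hrel_iff le_rfl]
  exact ⟨rfl, fun l h1 h2 => by rw [le_antisymm h1 h2]⟩

theorem hrel_congr {h h' : ℕ → ℕ} {i j : ℕ} (hh : ∀ l, l ≤ max i j → h l = h' l) :
    HRel h i j ↔ HRel h' i j := by
  unfold HRel
  rw [hh i (le_max_left _ _), hh j (le_max_right _ _)]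
  constructor
  · rintro ⟨h1, h2⟩
    exact ⟨h1, fun l l1 l2 => by rw [← hh l l2]; exact h2 l l1 l2⟩
  · rintro ⟨h1, h2⟩
    exact ⟨h1, fun l l1 l2 => by rw [hh l l2]; exact h2 l l1 l2⟩

theorem rel2 : S_REL2 := by
  intro n cor h hG
  refine ⟨fun i _ => hrel_refl i, fun i j _ _ => hrel_symm, ?_, ?_, ?_, ?_⟩
  · rintro i j k _ _ _ ⟨h1, h2⟩ ⟨h3, h4⟩
    refine ⟨h1.trans h3, fun l l1 l2 => ?_⟩
    by_cases hc : min i j ≤ l ∧ l ≤ max i j
    · exact h2 l hc.1 hc.2
    · rw [h1]
      apply h4 l
      · omega
      · omega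
  · rw [hrel_iff (Nat.zero_le _)]
    exact ⟨by rw [hG.zero, hG.last], fun l _ _ => by rw [hG.zero]; exact Nat.zero_le _⟩
  · intro a b c d hab hbc hcd _ h1 h2
    rw [hrel_iff (by omega)] at h1 h2 ⊢
    have e1 := h1.2 b (by omega) (by omega)
    have e2 := h2.2 c (by omega) (by omega)
    refine ⟨by omega, fun l l1 l2 => h1.2 l l1 (by omega)⟩
  · intro a b c hab hbc hcn hcor h1
    rw [hrel_iff (by omega)] at h1 ⊢
    have e1 := h1.2 b (by omega) (by omega)
    refine ⟨?_, fun l l1 l2 => h1.2 l l1 (by omega)⟩
    by_contra hne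
    have hlt : h a < h b := lt_of_le_of_ne e1 hne
    classical
    have hex : ∃ m, b < m ∧ h m ≤ h a := ⟨c, hbc, h1.1.ge⟩
    obtain ⟨m1, m2⟩ := Nat.find_spec hex
    set m := Nat.find hex with hm
    have hmc : m ≤ c := Nat.find_min' hex ⟨hbc, h1.1.ge⟩
    have hm3 : h a < h (m - 1) := by
      rcases Nat.eq_or_lt_of_le (by omega : b ≤ m - 1) with h3 | h3
      · rw [← h3]; exact hlt
      · have := Nat.find_min hex (m := m - 1) (by omega)
        by_contra hcon
        exact this ⟨h3, by omega⟩
    have e2 := h1.2 m (by omega) hmc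
    have e3 : m - 1 + 1 = m := by omega
    have := hG.side (m - 1) (by omega) (by rw [e3]; omega) a (by omega)
      (fun l l1 l2 => hcor l l1 (by omega))
    rw [e3] at this
    omega

theorem rel1_aux (n : ℕ) (cor : ℕ → Prop) (R : ℕ → ℕ → Prop) (hR : NCRel n cor R) :
    ∀ m, m ≤ n → ∃ h : ℕ → ℕ, h 0 = 0 ∧ (∀ j, j < m → h (j + 1) ≤ h j + 1) ∧
      ∀ i j, i ≤ m → j ≤ m → (R i j ↔ HRel h i j) := by
  intro m
  induction m with
  | zero =>
    intro _
    refine ⟨fun _ => 0, rfl, fun j hj => by omega, fun i j hi hj => ?_⟩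
    have h1 : i = 0 := by omega
    have h2 : j = 0 := by omega
    subst h1; subst h2
    exact ⟨fun _ => hrel_refl 0, fun _ => hR.refl 0 (Nat.zero_le _)⟩
  | succ m ih =>
    intro hm
    obtain ⟨h, h0, hs, hr⟩ := ih (by omega)
    -- it suffices to treat pairs (j, m+1)
    have red : ∀ v : ℕ, v ≤ h m + 1 →
        (∀ j, j ≤ m → (R j (m + 1) ↔ (h j = v ∧ ∀ l, j ≤ l → l ≤ m → h j ≤ h l))) →
        ∃ h : ℕ → ℕ, h 0 = 0 ∧ (∀ j, j < m + 1 → h (j + 1) ≤ h j + 1) ∧
          ∀ i j, i ≤ m + 1 → j ≤ m + 1 → (R i j ↔ HRel h i j) := by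
      intro v hv hpair
      have hold : ∀ l, l ≤ m → Function.update h (m + 1) v l = h l := fun l hl =>
        Function.update_of_ne (by omega) _ _
      have hnew : Function.update h (m + 1) v (m + 1) = v := Function.update_self _ _ _
      have hp : ∀ j, j ≤ m → (R j (m + 1) ↔ HRel (Function.update h (m + 1) v) j (m + 1)) := by
        intro j hj
        rw [hpair j hj, hrel_iff (by omega), hold j hj, hnew]
        constructor
        · rintro ⟨a1, a2⟩
          refine ⟨a1, fun l l1 l2 => ?_⟩
          rcases Nat.lt_or_ge m l with h3 | h3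
          · have : l = m + 1 := by omega
            rw [this, hnew]; exact a1.le
          · rw [hold l h3]; exact a2 l l1 h3
        · rintro ⟨a1, a2⟩
          refine ⟨a1, fun l l1 l2 => ?_⟩
          have := a2 l l1 (by omega)
          rwa [hold l l2] at this
      refine ⟨Function.update h (m + 1) v, ?_, ?_, ?_⟩
      · rw [hold 0 (Nat.zero_le _)]; exact h0
      · intro j hj
        rcases Nat.eq_or_lt_of_le (by omega : j ≤ m) with h3 | h3
        · subst h3; rw [hnew, hold j le_rfl]; exact hv
        · rw [hold j (by omega), hold (j + 1) (by omega)]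
          exact hs j h3
      · intro i j hi hj
        rcases Nat.lt_or_ge m i with h3 | h3
        · have h4 : i = m + 1 := by omega
          subst h4
          rcases Nat.lt_or_ge m j with h5 | h5
          · have h6 : j = m + 1 := by omega
            subst h6
            exact ⟨fun _ => hrel_refl _, fun _ => hR.refl _ (by omega)⟩
          · constructor
            · intro a
              exact hrel_symm ((hp j h5).mp (hR.symm _ _ (by omega) (by omega) a))
            · intro a
              exact hR.symm _ _ (by omega) (by omega) ((hp j h5).mpr (hrel_symm a))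
        · rcases Nat.lt_or_ge m j with h5 | h5
          · have h6 : j = m + 1 := by omega
            subst h6
            exact hp i h3
          · rw [hr i j h3 h5]
            apply hrel_congr
            intro l hl
            exact (hold l (by omega)).symm
    by_cases hex : ∃ i, i ≤ m ∧ R i (m + 1)
    · obtain ⟨i, him, hi⟩ := hex
      have star : ∀ i, i ≤ m → R i (m + 1) → ∀ l, i ≤ l → l ≤ m → h i ≤ h l := by
        intro i him hi l hl1 hl2
        by_contra hcon
        push Not at hcon
        classical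
        have hex : ∃ l, i ≤ l ∧ h l < h i := ⟨l, hl1, hcon⟩
        obtain ⟨q1, q2⟩ := Nat.find_spec hex
        set q := Nat.find hex with hq
        have hqm : q ≤ l := Nat.find_min' hex ⟨hl1, hcon⟩
        have hqi : i < q := lt_of_le_of_ne q1 (fun hh => by rw [← hh] at q2; omega)
        obtain ⟨i', i1, i2, i3, i4⟩ := lastLevel (n := m) hs (a := 0) (v := h q)
          (by rw [h0]; exact Nat.zero_le _) i (Nat.zero_le _) him q2.le
        have hi'i : i' < i := lt_of_le_of_ne i2 (fun hh => by rw [hh] at i3; omega)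
        have hrel : HRel h i' q := by
          rw [hrel_iff (by omega)]
          refine ⟨i3, fun x x1 x2 => ?_⟩
          rw [i3]
          rcases Nat.eq_or_lt_of_le x1 with e | e
          · rw [← e, i3]
          rcases Nat.lt_or_ge i x with f | f
          · rcases Nat.eq_or_lt_of_le x2 with e2 | e2
            · rw [e2]
            · have := Nat.find_min hex (m := x) e2
              by_contra hc
              exact this ⟨by omega, by omega⟩
          · exact (i4 x e f).le
        have hRq : R i' q := (hr i' q (by omega) (by omega)).mpr hrel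
        have := hR.cross i' i q (m + 1) hi'i hqi (by omega) hm hRq hi
        have := ((hr i' i (by omega) him).mp this).1
        omega
      apply red (h i)
      · have := star i him hi m him le_rfl
        omega
      · intro j hj
        constructor
        · intro a
          have h1 : R i j := hR.trans _ _ _ (by omega) hm (by omega) hi
            (hR.symm _ _ (by omega) hm a)
          have h2 := ((hr i j him hj).mp h1).1
          exact ⟨h2.symm, star j hj a⟩
        · rintro ⟨a1, a2⟩
          have h3 : HRel h i j := by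
            refine ⟨a1.symm, fun l l1 l2 => ?_⟩
            rcases Nat.lt_or_ge l i with h4 | h4
            · rw [← a1]; exact a2 l (by omega) (by omega)
            · exact star i him hi l h4 (by omega)
          have h4 := (hr i j him hj).mpr h3
          exact hR.trans _ _ _ (by omega) (by omega) hm (hR.symm _ _ (by omega) (by omega) h4) hi
    · push Not at hex
      apply red (h m + 1) le_rfl
      intro j hj
      constructor
      · intro a; exact absurd a (hex j hj)
      · rintro ⟨a1, a2⟩
        have := a2 m hj le_rfl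
        omega

theorem rel1 : S_REL1 := by
  intro n cor R hR
  obtain ⟨h, h0, hs, hr⟩ := rel1_aux n cor R hR n le_rfl
  obtain ⟨g, hin, hout⟩ : ∃ g : ℕ → ℕ, (∀ l, l ≤ n → g l = h l) ∧ ∀ l, n < l → g l = 0 :=
    ⟨fun i => if i ≤ n then h i else 0, fun l hl => by simp [hl],
      fun l hl => by simp [Nat.not_le.mpr hl]⟩
  refine ⟨g, ⟨?_, ?_, hout, ?_, ?_⟩, ?_⟩
  · rw [hin 0 (Nat.zero_le _)]; exact h0
  · rw [hin n le_rfl]
    have := ((hr 0 n (Nat.zero_le _) le_rfl).mp hR.zero_n).1
    rw [← this, h0]
  · intro j hj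
    rw [hin j hj.le, hin (j + 1) hj]
    exact hs j hj
  · intro j hj hd i hij hcor
    rw [hin j hj.le, hin (j + 1) hj] at hd
    rw [hin (j + 1) hj, hin i (by omega)]
    by_contra hcon
    push Not at hcon
    obtain ⟨i', i1, i2, i3, i4⟩ := lastLevel (n := n) hs (a := i) (v := h (j + 1)) hcon j hij hj.le hd.le
    have hij' : i' < j := lt_of_le_of_ne i2 (fun hh => by rw [hh] at i3; omega)
    have hrel : HRel h i' (j + 1) := by
      rw [hrel_iff (by omega)]
      refine ⟨i3, fun l l1 l2 => ?_⟩
      rw [i3]
      rcases Nat.eq_or_lt_of_le l1 with e | e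
      · rw [← e, i3]
      rcases Nat.eq_or_lt_of_le l2 with f | f
      · rw [f]
      · exact (i4 l e (by omega)).le
    have h1 := (hr i' (j + 1) (by omega) hj).mpr hrel
    have h2 := hR.side i' (i' + 1) (j + 1) (by omega) (by omega) hj
      (fun l l1 l2 => hcor l (by omega) (by omega)) h1
    have h3 := ((hr i' (i' + 1) (by omega) (by omega)).mp h2).1
    have h4 := i4 (i' + 1) (by omega) (by omega)
    omega
  · intro i j hi hj
    rw [hr i j hi hj]
    apply hrel_congr
    intro l hl
    exact (hin l (by omega)).symm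

/-- a step which is not an up-step has a partner, and conversely -/
theorem partner {n : ℕ} {h : ℕ → ℕ} (h0 : h 0 = 0) (hs : ∀ j, j < n → h (j + 1) ≤ h j + 1)
    {i : ℕ} (hi : i < n) : (h (i + 1) ≤ h i ↔ ∃ i', i' ≤ i ∧ HRel h i' (i + 1)) := by
  constructor
  · intro hle
    obtain ⟨i', i1, i2, i3, i4⟩ := lastLevel (n := n) hs (a := 0) (v := h (i + 1))
      (by rw [h0]; exact Nat.zero_le _) i (Nat.zero_le _) hi.le hle
    refine ⟨i', i2, ?_⟩
    rw [hrel_iff (by omega)]
    refine ⟨i3, fun l l1 l2 => ?_⟩
    rw [i3]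
    rcases Nat.eq_or_lt_of_le l1 with e | e
    · rw [← e, i3]
    rcases Nat.eq_or_lt_of_le l2 with f | f
    · rw [f]
    · exact (i4 l e (by omega)).le
  · rintro ⟨i', h1, h2⟩
    rw [hrel_iff (by omega)] at h2
    rw [← h2.1]
    exact h2.2 i h1 (by omega)

theorem rel3 : S_REL3 := by
  intro n cor h h' hG hG' hrel
  have key : ∀ i, i ≤ n → h i = h' i := by
    intro i
    induction i using Nat.strong_induction_on with
    | _ i ih =>
      intro hi
      rcases Nat.eq_zero_or_pos i with rfl | hi0
      · rw [hG.zero, hG'.zero]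
      · obtain ⟨j, rfl⟩ : ∃ j, i = j + 1 := ⟨i - 1, by omega⟩
        have p1 := partner hG.zero hG.step (i := j) (by omega)
        have p2 := partner hG'.zero hG'.step (i := j) (by omega)
        have hj := ih j (by omega) (by omega)
        rcases Nat.lt_or_ge (h j) (h (j + 1)) with a | a
        · have a' : h' j < h' (j + 1) := by
            by_contra hcon
            push Not at hcon
            obtain ⟨i', i1, i2⟩ := p2.mp hcon
            have := p1.mpr ⟨i', i1, (hrel i' (j + 1) (by omega) hi).mpr i2⟩
            omega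
          have s1 := hG.step j (by omega)
          have s2 := hG'.step j (by omega)
          omega
        · obtain ⟨i', i1, i2⟩ := p1.mp a
          have i3 := (hrel i' (j + 1) (by omega) hi).mp i2
          rw [← i2.1, ← i3.1]
          exact ih i' (by omega) (by omega)
  funext i
  rcases Nat.lt_or_ge n i with hi | hi
  · rw [hG.out i hi, hG'.out i hi]
  · exact key i hi

theorem rel4 : S_REL4 := by
  intro n cor h hG
  classical
  unfold push
  rw [Finset.card_filter, Finset.card_filter, Finset.sum_range_succ']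
  congr 1
  · apply Finset.sum_congr rfl
    intro i hi
    rw [Finset.mem_range] at hi
    have p1 := partner hG.zero hG.step (i := i) hi
    have s1 := hG.step i hi
    have : (∀ i', i' < i + 1 → ¬ HRel h i' (i + 1)) ↔ h (i + 1) = h i + 1 := by
      constructor
      · intro hh
        by_contra hcon
        obtain ⟨i', i1, i2⟩ := p1.mp (by omega)
        exact hh i' (by omega) i2
      · intro hh i' hi' hc
        have := p1.mpr ⟨i', by omega, hc⟩
        omega
    by_cases hc : h (i + 1) = h i + 1
    · rw [if_pos hc, if_pos (this.mpr hc)]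
    · rw [if_neg hc, if_neg (fun hh => hc (this.mp hh))]

end Q165.NCS
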