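import Pool.Agent.Q165.NCS.Stm

/-! # (SUP): supporting lines at the points on the boundary -/

namespace Q165.NCS

theorem span_top (P : Finset Pt) (hP : ¬ Collinear ℝ (P : Set Pt)) :
    affineSpan ℝ (P : Set Pt) = ⊤ := by
  have hne : (P : Set Pt).Nonempty := by
    by_contra hcon
    rw [Set.not_nonempty_iff_eq_empty] at hcon
    rw [hcon] at hP
    exact hP (collinear_empty ℝ Pt)
  rw [AffineSubspace.affineSpan_eq_top_iff_vectorSpan_eq_top_of_nonempty ℝ Pt Pt hne]
  rw [collinear_iff_finrank_le_one] at hP
  have hP' := not_le.mp hP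
  have h2 : Module.finrank ℝ Pt = 2 := by
    simp [Pt, Module.finrank_prod]
  have h3 := Submodule.finrank_le (vectorSpan ℝ (P : Set Pt))
  rw [h2] at h3
  apply Submodule.eq_top_of_finrank_eq
  rw [h2]
  exact le_antisymm h3 hP'

theorem sup : S_SUP := by
  intro P hP hfr p hp
  have hint : (interior (convexHull ℝ (P : Set Pt))).Nonempty := by
    rw [interior_convexHull_nonempty_iff_affineSpan_eq_top]
    exact span_top P hP
  have hnot : p ∉ interior (convexHull ℝ (P : Set Pt)) := (hfr (by exact_mod_cast hp)).2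
  obtain ⟨f, hf0, hf⟩ := geometric_hahn_banach_of_nonempty_interior_point
    (convex_convexHull ℝ (P : Set Pt)) hnot hint
  have hlin : ∀ x : Pt, f x = f (1, 0) * x.1 + f (0, 1) * x.2 := by
    intro x
    have : x = x.1 • ((1, 0) : Pt) + x.2 • ((0, 1) : Pt) := by
      apply Prod.ext <;> simp
    conv_lhs => rw [this]
    rw [map_add, map_smul, map_smul]
    simp only [smul_eq_mul]
    ring
  refine ⟨f (1, 0), f (0, 1), ?_, ?_⟩
  · by_contra hcon
    push Not at hcon
    apply hf0
    ext
    · simpa using hcon.1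
    · simpa using hcon.2
  · intro x hx
    have h1 := hf x (subset_convexHull ℝ _ (by exact_mod_cast hx))
    rw [hlin x, hlin p] at h1
    linarith

end Q165.NCS
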