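import Pool.Agent.Q165.NCS.Enum
import Pool.Agent.Q165.NCS.Alg
import Pool.Agent.Q165.NCS.Rel
import Pool.Agent.Q165.NCS.Paths
import Pool.Agent.Q165.NCS.Part
import Pool.Agent.Q165.NCS.Hull
import Pool.Agent.Q165.NCS.FanE
import Pool.Agent.Q165.NCS.Blk
import Pool.Agent.Q165.NCS.Sup
import Pool.Agent.Q165.NCS.Poset

/-! # Assembly -/

namespace Q165.NCS

open Finset

theorem main (P : Finset Pt) (hull' : HullConfiguration P) (hcol : ¬ Collinear ℝ (P : Set Pt))
    (hnb : ∀ a b : Pt, ¬ BlankSide P a b) : ¬ RankSymmetric (NC P) := by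
  intro hrs
  have hfr : (P : Set Pt) ⊆ frontier (convexHull ℝ (P : Set Pt)) := by
    rcases hull' with ⟨a, b, h⟩ | h
    · exact absurd (colSeg (y := a) (z := b) (fun x hx => h (by exact_mod_cast hx))) hcol
    · exact h
  have hS := sup P hcol hfr
  obtain ⟨n, p, e, L, s, hF⟩ := fan P hcol
  obtain ⟨cor, hE⟩ := enum P n p e L s hF hS
  have hadj := adj P n p cor hE hcol hnb
  have hn := hE.pos
  have hcard := hE.card
  have hne : P.Nonempty := card_pos.mp (by omega)
  have hpo := poset P hne hrs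
  set c : ℕ → ℕ := fun k => Nat.card {h : ℕ → ℕ // Good n cor h ∧ push n h = k} with hc
  have hcnt : ∀ k, Nat.card {π : NC P // π.1.parts.card = k + 1} = c k := by
    intro k
    rw [hc]
    simp only
    rw [← part rel1 rel2 rel3 rel4 P n p cor hE k]
    apply Nat.card_congr
    refine (Equiv.subtypeSubtypeEquivSubtypeInter _ (fun π : Finpartition P =>
      π.parts.card = k + 1)).trans ?_
    apply Equiv.subtypeEquivRight
    intro π
    rw [hull P n p cor hE π]
  have hcsym : ∀ k, k < n → c k = c (n - 1 - k) := by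
    intro k hk
    rw [← hcnt, ← hcnt, hpo (k + 1) (by omega) (by omega)]
    have e1 : P.card + 1 - (k + 1) = n - 1 - k + 1 := by omega
    rw [e1]
  have hcn : c n = 0 := by
    rw [← hcnt]
    rw [Nat.card_eq_zero]
    left
    constructor
    rintro ⟨π, hπ⟩
    have := π.1.card_parts_le_card
    omega
  have hZ : ∀ t : ℝ, Z t cor n 0 0 0 = ∑ k ∈ range n, (c k : ℝ) * t ^ (n - k) := by
    intro t
    have := paths t n cor (by omega) hE.cor_zero
    rw [← this, sum_range_succ]
    have h0 : (Nat.card {h : ℕ → ℕ // Good n cor h ∧ push n h = n} : ℝ) = 0 := by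
      have : (c n : ℝ) = 0 := by rw [hcn]; simp
      exact this
    rw [h0, zero_mul, add_zero]
  apply alg n cor (by omega) hE.cor_zero hE.cor_n hadj
  rw [hZ, hZ, mul_sum]
  rw [← sum_range_reflect (fun k => (2 : ℝ) ^ (n + 1) * ((c k : ℝ) * (1 / 2) ^ (n - k)))]
  apply sum_congr rfl
  intro k hk
  rw [mem_range] at hk
  rw [← hcsym k hk]
  have e1 : n - (n - 1 - k) = k + 1 := by omega
  have e2 : n + 1 = (n - k) + (k + 1) := by omega
  rw [e1, e2, pow_add, one_div, inv_pow]
  field_simp

end Q165.NCS
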