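import Pool.Agent.Q165.NCS.Defs

/-!
# Steps for MP_f3bbeb_co

Geometry: `S_SUP`, `S_BLK`, `S_FAN`, `S_ENUM`, `S_ADJ`, `S_HULL`.
Posets: `S_POSET`.
Combinatorics: `S_REL1` ... `S_REL4`, `S_PART`, `S_PATHS`.
Algebra: `S_ALG`.
-/

namespace Q165.NCS

/-- Twice the signed area of the triangle `a b c`. -/
def orient (a b c : Pt) : ℝ := (b.1 - a.1) * (c.2 - a.2) - (b.2 - a.2) * (c.1 - a.1)

/-- Every point of `P` has a supporting line. -/
def HasSup (P : Finset Pt) : Prop :=
  ∀ p ∈ P, ∃ α β : ℝ, (α ≠ 0 ∨ β ≠ 0) ∧ ∀ x ∈ P, α * (x.1 - p.1) + β * (x.2 - p.2) ≤ 0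

/-- (SUP) points on the boundary have supporting lines. -/
def S_SUP : Prop := ∀ P : Finset Pt, ¬ Collinear ℝ (P : Set Pt) →
  (P : Set Pt) ⊆ frontier (convexHull ℝ (P : Set Pt)) → HasSup P

/-- (BLK) a combinatorial blank side is a blank side. -/
def S_BLK : Prop := ∀ (P : Finset Pt) (a b : Pt), ¬ Collinear ℝ (P : Set Pt) →
  a ∈ P → b ∈ P → a ≠ b →
  (∀ c ∈ P, 0 ≤ orient a b c) → (∀ c ∈ P, orient a b c = 0 → c = a ∨ c = b) → BlankSide P a b

/-- The points of `P` sorted around an extreme point `p 0 = p n`: slopes `s` and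
heights `L` (the linear functional `x + e y`, minus its value at `p 0`). -/
structure Fan (P : Finset Pt) (n : ℕ) (p : ℕ → Pt) (e : ℝ) (L s : ℕ → ℝ) : Prop where
  card : P.card = n
  pos : 3 ≤ n
  closed : p n = p 0
  mem : ∀ i, i ≤ n → p i ∈ P
  inj : ∀ i j, i < n → j < n → p i = p j → i = j
  surj : ∀ x ∈ P, ∃ i, i < n ∧ p i = x
  Lpos : ∀ i, 0 < i → i < n → 0 < L i
  fst : ∀ i, 0 < i → i < n → (p i).1 = (p 0).1 + L i * (1 - e * s i)
  snd : ∀ i, 0 < i → i < n → (p i).2 = (p 0).2 + L i * s i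
  mono : ∀ i j, 0 < i → i < j → j < n →
    s i < s j ∨ (s i = s j ∧ s i < s (n - 1) ∧ L i < L j) ∨ (s i = s j ∧ s i = s (n - 1) ∧ L j < L i)
  ends : s 1 < s (n - 1)

/-- (FAN) existence of the fan (no convexity needed). -/
def S_FAN : Prop := ∀ P : Finset Pt, ¬ Collinear ℝ (P : Set Pt) →
  ∃ (n : ℕ) (p : ℕ → Pt) (e : ℝ) (L s : ℕ → ℝ), Fan P n p e L s

/-- Enumeration of `P` along the boundary, counterclockwise, `p n = p 0` a vertex of the hull;
`cor i` says that `p i` is a vertex of the hull (a corner). -/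
structure Enum (P : Finset Pt) (n : ℕ) (p : ℕ → Pt) (cor : ℕ → Prop) : Prop where
  card : P.card = n
  pos : 3 ≤ n
  closed : p n = p 0
  mem : ∀ i, i ≤ n → p i ∈ P
  inj : ∀ i j, i < n → j < n → p i = p j → i = j
  surj : ∀ x ∈ P, ∃ i, i < n ∧ p i = x
  left : ∀ i j k, i < j → j < k → k ≤ n → 0 ≤ orient (p i) (p j) (p k)
  cor_zero : cor 0
  cor_n : cor n
  btw : ∀ i j k, i < j → j < k → k ≤ n → (∀ l, i < l → l < k → ¬ cor l) →
    p j ∈ segment ℝ (p i) (p k)
  col : ∀ i j k, i < j → j < k → k < n → orient (p i) (p j) (p k) = 0 →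
    (∀ l, i < l → l < k → ¬ cor l) ∨ (i = 0 ∧ ∀ l, j < l → l < n → ¬ cor l)

/-- (ENUM) from the fan and the supporting lines to the enumeration. -/
def S_ENUM : Prop := ∀ (P : Finset Pt) (n : ℕ) (p : ℕ → Pt) (e : ℝ) (L s : ℕ → ℝ),
  Fan P n p e L s → HasSup P → ∃ cor : ℕ → Prop, Enum P n p cor

/-- (ADJ) no blank side: no two consecutive corners. -/
def S_ADJ : Prop := ∀ (P : Finset Pt) (n : ℕ) (p : ℕ → Pt) (cor : ℕ → Prop),
  Enum P n p cor → ¬ Collinear ℝ (P : Set Pt) → (∀ a b, ¬ BlankSide P a b) →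
  ∀ j, j < n → cor j → ¬ cor (j + 1)

/-- The relation on indices given by a partition. -/
def RelOf (P : Finset Pt) (π : Finpartition P) (p : ℕ → Pt) (i j : ℕ) : Prop :=
  ∃ B ∈ π.parts, p i ∈ B ∧ p j ∈ B

/-- Equivalence relations on `{0, ..., n}` with `0 ~ n`, noncrossing, and such that every class
meets every side in an interval. -/
structure NCRel (n : ℕ) (cor : ℕ → Prop) (R : ℕ → ℕ → Prop) : Prop where
  refl : ∀ i, i ≤ n → R i i
  symm : ∀ i j, i ≤ n → j ≤ n → R i j → R j i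
  trans : ∀ i j k, i ≤ n → j ≤ n → k ≤ n → R i j → R j k → R i k
  zero_n : R 0 n
  cross : ∀ a b c d, a < b → b < c → c < d → d ≤ n → R a c → R b d → R a b
  side : ∀ a b c, a < b → b < c → c ≤ n → (∀ l, a < l → l < c → ¬ cor l) → R a c → R a b

/-- (HULL) noncrossing in terms of the enumeration. -/
def S_HULL : Prop := ∀ (P : Finset Pt) (n : ℕ) (p : ℕ → Pt) (cor : ℕ → Prop),
  Enum P n p cor → ∀ π : Finpartition P, Noncrossing P π ↔ NCRel n cor (RelOf P π p)

/-- (POSET) rank symmetry of `NC(P)` in terms of the numbers of blocks. -/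
def S_POSET : Prop := ∀ P : Finset Pt, P.Nonempty → RankSymmetric (NC P) →
  ∀ k, 1 ≤ k → k ≤ P.card →
    Nat.card {π : NC P // π.1.parts.card = k} = Nat.card {π : NC P // π.1.parts.card = P.card + 1 - k}

/-- The relation of a height function. -/
def HRel (h : ℕ → ℕ) (i j : ℕ) : Prop :=
  h i = h j ∧ ∀ l, min i j ≤ l → l ≤ max i j → h i ≤ h l

/-- Height functions of the relations `NCRel n cor`. -/
structure Good (n : ℕ) (cor : ℕ → Prop) (h : ℕ → ℕ) : Prop where
  zero : h 0 = 0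
  last : h n = 0
  out : ∀ i, n < i → h i = 0
  step : ∀ j, j < n → h (j + 1) ≤ h j + 1
  side : ∀ j, j < n → h (j + 1) < h j →
    ∀ i, i ≤ j → (∀ l, i < l → l ≤ j → ¬ cor l) → h (j + 1) < h i

/-- The number of up-steps. -/
def push (n : ℕ) (h : ℕ → ℕ) : ℕ :=
  ((Finset.range n).filter (fun j => h (j + 1) = h j + 1)).card

/-- (REL1) a relation has a height function. -/
def S_REL1 : Prop := ∀ (n : ℕ) (cor : ℕ → Prop) (R : ℕ → ℕ → Prop), NCRel n cor R →
  ∃ h, Good n cor h ∧ ∀ i j, i ≤ n → j ≤ n → (R i j ↔ HRel h i j)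

/-- (REL2) height functions give relations. -/
def S_REL2 : Prop := ∀ (n : ℕ) (cor : ℕ → Prop) (h : ℕ → ℕ), Good n cor h → NCRel n cor (HRel h)

/-- (REL3) uniqueness. -/
def S_REL3 : Prop := ∀ (n : ℕ) (cor : ℕ → Prop) (h h' : ℕ → ℕ), Good n cor h → Good n cor h' →
  (∀ i j, i ≤ n → j ≤ n → (HRel h i j ↔ HRel h' i j)) → h = h'

open Classical in
/-- (REL4) the number of classes. -/
def S_REL4 : Prop := ∀ (n : ℕ) (cor : ℕ → Prop) (h : ℕ → ℕ), Good n cor h →
  ((Finset.range (n + 1)).filter (fun i => ∀ i', i' < i → ¬ HRel h i' i)).card = push n h + 1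

/-- (PART) counting partitions by height functions (only the enumeration matters). -/
def S_PART : Prop := ∀ (P : Finset Pt) (n : ℕ) (p : ℕ → Pt) (cor : ℕ → Prop),
  Enum P n p cor → ∀ k : ℕ,
    Nat.card {π : Finpartition P // NCRel n cor (RelOf P π p) ∧ π.parts.card = k + 1} =
      Nat.card {h : ℕ → ℕ // Good n cor h ∧ push n h = k}

open Classical in
/-- Transfer recursion: `Z t cor r j h f` is the weighted number of paths with `r` steps left at
position `j`, height `h`, floor `f` (the minimum of the heights on the present side), which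
end at height `0`. Up-steps have weight `1`, the other steps weight `t`. -/
noncomputable def Z (t : ℝ) (cor : ℕ → Prop) : ℕ → ℕ → ℕ → ℕ → ℝ
  | 0, _, h, _ => if h = 0 then 1 else 0
  | r + 1, j, h, f =>
      t * Z t cor r (j + 1) h (if cor j then h else f) +
        Z t cor r (j + 1) (h + 1) (if cor j then h else f) +
        t * ∑ l ∈ Finset.range (if cor j then h else f), Z t cor r (j + 1) l l

/-- (PATHS) the generating function of the height functions is given by the recursion. -/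
def S_PATHS : Prop := ∀ (t : ℝ) (n : ℕ) (cor : ℕ → Prop), 0 < n → cor 0 →
  ∑ k ∈ Finset.range (n + 1),
    (Nat.card {h : ℕ → ℕ // Good n cor h ∧ push n h = k} : ℝ) * t ^ (n - k) = Z t cor n 0 0 0

/-- (ALG) the generating function is not symmetric. -/
def S_ALG : Prop := ∀ (n : ℕ) (cor : ℕ → Prop), 0 < n → cor 0 → cor n →
  (∀ j, j < n → cor j → ¬ cor (j + 1)) →
  Z 2 cor n 0 0 0 ≠ 2 ^ (n + 1) * Z (1 / 2) cor n 0 0 0

end Q165.NCS
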